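import Pool.Agent.EB.St

set_option autoImplicit false

/-!
# EB / Aff: affinity of a matrix with a gap and a matrix of block rank one
-/

namespace Pool.Agent.EB

open Finset Pool.Agent.WD
open scoped NNReal

private theorem Aff_pqrs (x1 x2 y1 y2 w1 w2 w3 w4 : ℝ) :
    ((x1 ^ 2 + x2 ^ 2) * (y1 ^ 2 + y2 ^ 2)) ^ 2 * (w1 * w4 - w2 * w3) ^ 2 ≤
      ((x1 ^ 2 + x2 ^ 2) * (y1 ^ 2 + y2 ^ 2) * (w1 ^ 2 + w2 ^ 2 + w3 ^ 2 + w4 ^ 2)) *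
      ((x1 ^ 2 + x2 ^ 2) * (y1 ^ 2 + y2 ^ 2) * (w1 ^ 2 + w2 ^ 2 + w3 ^ 2 + w4 ^ 2) -
        (x1 * y1 * w1 + x1 * y2 * w2 + x2 * y1 * w3 + x2 * y2 * w4) ^ 2) := by
  obtain ⟨p, hp⟩ : ∃ p, p = x1 * y1 * w1 + x1 * y2 * w2 + x2 * y1 * w3 + x2 * y2 * w4 :=
    ⟨_, rfl⟩
  obtain ⟨q, hq⟩ : ∃ q, q = -x2 * (w1 * y1 + w2 * y2) + x1 * (w3 * y1 + w4 * y2) := ⟨_, rfl⟩
  obtain ⟨r, hr⟩ : ∃ r, r = x1 * (-w1 * y2 + w2 * y1) + x2 * (-w3 * y2 + w4 * y1) := ⟨_, rfl⟩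
  obtain ⟨s, hs⟩ : ∃ s, s = -x2 * (-w1 * y2 + w2 * y1) + x1 * (-w3 * y2 + w4 * y1) := ⟨_, rfl⟩
  have e1 : (x1 ^ 2 + x2 ^ 2) * (y1 ^ 2 + y2 ^ 2) * (w1 ^ 2 + w2 ^ 2 + w3 ^ 2 + w4 ^ 2) =
      p ^ 2 + q ^ 2 + r ^ 2 + s ^ 2 := by
    rw [hp, hq, hr, hs]
    ring
  have e2 : ((x1 ^ 2 + x2 ^ 2) * (y1 ^ 2 + y2 ^ 2)) ^ 2 * (w1 * w4 - w2 * w3) ^ 2 =
      (p * s - q * r) ^ 2 := by
    rw [hp, hq, hr, hs]
    ring
  have e3 : (p * s - q * r) ^ 2 ≤ (p ^ 2 + q ^ 2 + r ^ 2 + s ^ 2) * (q ^ 2 + r ^ 2 + s ^ 2) := by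
    have h1 : (p ^ 2 + r ^ 2) * (s ^ 2 + q ^ 2) - (p * s - q * r) ^ 2 = (p * q + r * s) ^ 2 := by
      ring
    have h2 : (p ^ 2 + q ^ 2 + r ^ 2 + s ^ 2) * (q ^ 2 + r ^ 2 + s ^ 2) -
        (p ^ 2 + r ^ 2) * (s ^ 2 + q ^ 2) =
        (p ^ 2 + r ^ 2) * r ^ 2 + (q ^ 2 + s ^ 2) * (q ^ 2 + r ^ 2 + s ^ 2) := by ring
    have h3 : 0 ≤ (p ^ 2 + r ^ 2) * r ^ 2 + (q ^ 2 + s ^ 2) * (q ^ 2 + r ^ 2 + s ^ 2) := by
      positivity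
    linarith [sq_nonneg (p * q + r * s)]
  rw [e1, e2, ← hp]
  have e4 : p ^ 2 + q ^ 2 + r ^ 2 + s ^ 2 - p ^ 2 = q ^ 2 + r ^ 2 + s ^ 2 := by ring
  rw [e4]
  exact e3

private theorem Aff_fac (v1 v2 v3 v4 : ℝ) (h : v1 * v4 = v2 * v3) :
    ∃ x1 x2 y1 y2 : ℝ, v1 = x1 * y1 ∧ v2 = x1 * y2 ∧ v3 = x2 * y1 ∧ v4 = x2 * y2 := by
  by_cases h1 : v1 = 0
  · rw [h1, zero_mul] at h
    rcases mul_eq_zero.mp h.symm with h2 | h2
    · exact ⟨0, 1, v3, v4, by rw [h1, zero_mul], by rw [h2, zero_mul], by rw [one_mul],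
        by rw [one_mul]⟩
    · exact ⟨v2, v4, 0, 1, by rw [h1, mul_zero], by rw [mul_one], by rw [h2, mul_zero],
        by rw [mul_one]⟩
  · refine ⟨1, v3 / v1, v1, v2, by rw [one_mul], by rw [one_mul], ?_, ?_⟩
    · rw [div_mul_cancel₀ _ h1]
    · rw [div_mul_eq_mul_div, eq_div_iff h1]
      linarith

/-- rank one against a matrix with determinant -/
private theorem Aff_det (v1 v2 v3 v4 w1 w2 w3 w4 δ : ℝ) (h : v1 * v4 = v2 * v3)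
    (hδ : δ * (w1 ^ 2 + w2 ^ 2 + w3 ^ 2 + w4 ^ 2) ^ 2 ≤ (w1 * w4 - w2 * w3) ^ 2) :
    (v1 * w1 + v2 * w2 + v3 * w3 + v4 * w4) ^ 2 ≤
      (1 - δ) * (v1 ^ 2 + v2 ^ 2 + v3 ^ 2 + v4 ^ 2) * (w1 ^ 2 + w2 ^ 2 + w3 ^ 2 + w4 ^ 2) := by
  obtain ⟨x1, x2, y1, y2, rfl, rfl, rfl, rfl⟩ := Aff_fac v1 v2 v3 v4 h
  have hp := Aff_pqrs x1 x2 y1 y2 w1 w2 w3 w4
  have e : (x1 * y1) ^ 2 + (x1 * y2) ^ 2 + (x2 * y1) ^ 2 + (x2 * y2) ^ 2 =
      (x1 ^ 2 + x2 ^ 2) * (y1 ^ 2 + y2 ^ 2) := by ring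
  rw [e]
  obtain ⟨S, hS⟩ : ∃ S, S = x1 * y1 * w1 + x1 * y2 * w2 + x2 * y1 * w3 + x2 * y2 * w4 :=
    ⟨_, rfl⟩
  have hCS : S ^ 2 ≤ (x1 ^ 2 + x2 ^ 2) * (y1 ^ 2 + y2 ^ 2) *
      (w1 ^ 2 + w2 ^ 2 + w3 ^ 2 + w4 ^ 2) := by
    have h1 : (x1 ^ 2 + x2 ^ 2) * (y1 ^ 2 + y2 ^ 2) * (w1 ^ 2 + w2 ^ 2 + w3 ^ 2 + w4 ^ 2) - S ^ 2 =
        (x1 * y1 * w2 - x1 * y2 * w1) ^ 2 + (x1 * y1 * w3 - x2 * y1 * w1) ^ 2 +
        (x1 * y1 * w4 - x2 * y2 * w1) ^ 2 + (x1 * y2 * w3 - x2 * y1 * w2) ^ 2 +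
        (x1 * y2 * w4 - x2 * y2 * w2) ^ 2 + (x2 * y1 * w4 - x2 * y2 * w3) ^ 2 := by
      rw [hS]
      ring
    have h2 : 0 ≤ (x1 * y1 * w2 - x1 * y2 * w1) ^ 2 + (x1 * y1 * w3 - x2 * y1 * w1) ^ 2 +
        (x1 * y1 * w4 - x2 * y2 * w1) ^ 2 + (x1 * y2 * w3 - x2 * y1 * w2) ^ 2 +
        (x1 * y2 * w4 - x2 * y2 * w2) ^ 2 + (x2 * y1 * w4 - x2 * y2 * w3) ^ 2 := by positivity
    linarith
  rw [← hS] at hp
  rw [← hS]
  have hN : 0 ≤ (x1 ^ 2 + x2 ^ 2) * (y1 ^ 2 + y2 ^ 2) := by positivity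
  have hW : 0 ≤ w1 ^ 2 + w2 ^ 2 + w3 ^ 2 + w4 ^ 2 := by positivity
  generalize (x1 ^ 2 + x2 ^ 2) * (y1 ^ 2 + y2 ^ 2) = N at *
  generalize w1 ^ 2 + w2 ^ 2 + w3 ^ 2 + w4 ^ 2 = W at *
  generalize (w1 * w4 - w2 * w3) ^ 2 = D at *
  rcases eq_or_lt_of_le hN with h0 | h0
  · rw [← h0] at hCS ⊢
    simp only [zero_mul, mul_zero] at hCS ⊢
    exact hCS
  rcases eq_or_lt_of_le hW with h1 | h1
  · rw [← h1] at hCS ⊢
    simp only [mul_zero] at hCS ⊢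
    exact hCS
  have h2 : N ^ 2 * (δ * W ^ 2) ≤ N * W * (N * W - S ^ 2) :=
    (mul_le_mul_of_nonneg_left hδ (sq_nonneg N)).trans hp
  have h3 : N * W * (δ * (N * W)) ≤ N * W * (N * W - S ^ 2) := by
    calc N * W * (δ * (N * W)) = N ^ 2 * (δ * W ^ 2) := by ring
      _ ≤ _ := h2
  have h4 := le_of_mul_le_mul_left h3 (mul_pos h0 h1)
  linarith

theorem thm_Aff : St_Aff := by
  intro ε hε hε1
  have hε' : (0 : ℝ) < ε := hε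
  have hε1' : (ε : ℝ) ≤ 1 := hε1
  have hsq1 : (ε : ℝ) ^ 2 ≤ ε := by
    rw [sq]
    exact mul_le_of_le_one_left hε'.le hε1'
  have hsq : (ε : ℝ) ^ 2 ≤ 1 := hsq1.trans hε1'
  refine ⟨1 - ((ε : ℝ) / 15) ^ 2, ?_, ?_, ?_⟩
  · rw [div_pow]
    linarith
  · have : 0 < ((ε : ℝ) / 15) ^ 2 := by positivity
    linarith
  intro M T hM hT
  simp only [Fintype.sum_bool]
  obtain ⟨m1, hm1⟩ : ∃ m : ℝ, m = M true true := ⟨_, rfl⟩
  obtain ⟨m2, hm2⟩ : ∃ m : ℝ, m = M true false := ⟨_, rfl⟩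
  obtain ⟨m3, hm3⟩ : ∃ m : ℝ, m = M false true := ⟨_, rfl⟩
  obtain ⟨m4, hm4⟩ : ∃ m : ℝ, m = M false false := ⟨_, rfl⟩
  obtain ⟨t1, ht1⟩ : ∃ m : ℝ, m = T true true := ⟨_, rfl⟩
  obtain ⟨t2, ht2⟩ : ∃ m : ℝ, m = T true false := ⟨_, rfl⟩
  obtain ⟨t3, ht3⟩ : ∃ m : ℝ, m = T false true := ⟨_, rfl⟩
  obtain ⟨t4, ht4⟩ : ∃ m : ℝ, m = T false false := ⟨_, rfl⟩
  have hm1' : 0 ≤ m1 := by rw [hm1]; exact NNReal.coe_nonneg _
  have hm2' : 0 ≤ m2 := by rw [hm2]; exact NNReal.coe_nonneg _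
  have hm3' : 0 ≤ m3 := by rw [hm3]; exact NNReal.coe_nonneg _
  have hm4' : 0 ≤ m4 := by rw [hm4]; exact NNReal.coe_nonneg _
  have ht1' : 0 ≤ t1 := by rw [ht1]; exact NNReal.coe_nonneg _
  have ht2' : 0 ≤ t2 := by rw [ht2]; exact NNReal.coe_nonneg _
  have ht3' : 0 ≤ t3 := by rw [ht3]; exact NNReal.coe_nonneg _
  have ht4' : 0 ≤ t4 := by rw [ht4]; exact NNReal.coe_nonneg _
  -- the gap
  have hG : (m3 = m2 ∧ m4 = m2 ∧ (1 + (ε : ℝ)) * m2 ≤ m1 ∧ m1 ≤ 2 * m2) ∨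
      (m4 = 0 ∧ (ε : ℝ) * m1 ≤ m3 ∧ (ε : ℝ) * m1 ≤ m2 ∧ m3 ≤ m1 ∧ m2 ≤ m1) := by
    rcases hM with ⟨a, b, c, d⟩ | ⟨a, b, c, d, e⟩
    · left
      refine ⟨?_, ?_, ?_, ?_⟩
      · rw [hm3, hm2, a]
      · rw [hm4, hm2, b]
      · rw [hm1, hm2]
        exact_mod_cast c
      · rw [hm1, hm2]
        exact_mod_cast d
    · right
      refine ⟨?_, ?_, ?_, ?_, ?_⟩
      · rw [hm4, a]
        rfl
      · rw [hm1, hm3]
        exact_mod_cast b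
      · rw [hm1, hm2]
        exact_mod_cast c
      · rw [hm1, hm3]
        exact_mod_cast d
      · rw [hm1, hm2]
        exact_mod_cast e
  have hF : t1 * t4 = t2 * t3 ∨ (t1 = 0 ∧ t4 = 0) ∨ (t2 = 0 ∧ t3 = 0) := by
    rcases hT with a | ⟨a, b⟩ | ⟨a, b⟩
    · left
      rw [ht1, ht2, ht3, ht4]
      exact_mod_cast a
    · right
      left
      exact ⟨by rw [ht1, a]; rfl, by rw [ht4, b]; rfl⟩
    · right
      right
      exact ⟨by rw [ht2, a]; rfl, by rw [ht3, b]; rfl⟩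
  rw [← hm1, ← hm2, ← hm3, ← hm4, ← ht1, ← ht2, ← ht3, ← ht4]
  rw [Real.sqrt_mul ht1', Real.sqrt_mul ht2', Real.sqrt_mul ht3', Real.sqrt_mul ht4']
  have s1 := Real.sq_sqrt ht1'
  have s2 := Real.sq_sqrt ht2'
  have s3 := Real.sq_sqrt ht3'
  have s4 := Real.sq_sqrt ht4'
  have r1 := Real.sq_sqrt hm1'
  have r2 := Real.sq_sqrt hm2'
  have r3 := Real.sq_sqrt hm3'
  have r4 := Real.sq_sqrt hm4'
  have n1 := Real.sqrt_nonneg m1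
  have n2 := Real.sqrt_nonneg m2
  have n3 := Real.sqrt_nonneg m3
  have n4 := Real.sqrt_nonneg m4
  rcases hF with hF | ⟨h1, h4⟩ | ⟨h2, h3⟩
  · -- rank one
    have hv : √t1 * √t4 = √t2 * √t3 := by
      rw [← Real.sqrt_mul ht1', ← Real.sqrt_mul ht2', hF]
    have hd := Aff_det (√t1) (√t2) (√t3) (√t4) (√m1) (√m2) (√m3) (√m4) (((ε : ℝ) / 15) ^ 2) hv
      (by
        rw [r1, r2, r3, r4]
        rcases hG with ⟨a, b, c, d⟩ | ⟨a, b, c, d, e⟩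
        · subst a
          subst b
          -- `√m1 √m - m`
          have k1 : 0 ≤ √m4 := Real.sqrt_nonneg _
          have k2 : (1 + (ε : ℝ) / 3) * √m4 ≤ √m1 := by
            refine Real.le_sqrt_of_sq_le ?_
            rw [mul_pow, r4]
            have : (1 + (ε : ℝ) / 3) ^ 2 ≤ 1 + ε := by
              have e : (1 + (ε : ℝ) / 3) ^ 2 = 1 + 2 * ε / 3 + (ε : ℝ) ^ 2 / 9 := by ring
              linarith
            exact (mul_le_mul_of_nonneg_right this hm4').trans c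
          have k3 : (ε : ℝ) / 3 * m4 ≤ √m1 * √m4 - √m4 * √m4 := by
            have : (ε : ℝ) / 3 * √m4 ≤ √m1 - √m4 := by linarith
            calc (ε : ℝ) / 3 * m4 = (ε : ℝ) / 3 * √m4 * √m4 := by
                  rw [mul_assoc, ← sq, r4]
              _ ≤ (√m1 - √m4) * √m4 := mul_le_mul_of_nonneg_right this k1
              _ = _ := by ring
          have k4 : m1 + m4 + m4 + m4 ≤ 5 * m4 := by linarith
          have k5 : (ε : ℝ) / 15 * (m1 + m4 + m4 + m4) ≤ √m1 * √m4 - √m4 * √m4 := by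
            refine le_trans ?_ k3
            calc (ε : ℝ) / 15 * (m1 + m4 + m4 + m4) ≤ (ε : ℝ) / 15 * (5 * m4) :=
                  mul_le_mul_of_nonneg_left k4 (by positivity)
              _ = _ := by ring
          rw [← mul_pow]
          exact pow_le_pow_left₀ (by positivity) k5 2
        · subst a
          rw [Real.sqrt_zero, mul_zero, zero_sub, neg_sq, ← mul_pow]
          have k1 : (ε : ℝ) * m1 ≤ √m2 * √m3 := by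
            rw [← Real.sqrt_mul hm2']
            refine Real.le_sqrt_of_sq_le ?_
            rw [sq]
            exact mul_le_mul c b (by positivity) hm2'
          refine pow_le_pow_left₀ (by positivity) ?_ 2
          refine le_trans ?_ k1
          calc (ε : ℝ) / 15 * (m1 + m2 + m3 + 0) ≤ (ε : ℝ) / 15 * (3 * m1) :=
                mul_le_mul_of_nonneg_left (by linarith) (by positivity)
            _ ≤ _ := by
              have e1 : 0 ≤ (ε : ℝ) * m1 := by positivity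
              have e2 : (ε : ℝ) / 15 * (3 * m1) = (ε : ℝ) * m1 / 5 := by ring
              linarith)
    rw [s1, s2, s3, s4, r1, r2, r3, r4] at hd
    calc (√t1 * √m1 + √t2 * √m2 + (√t3 * √m3 + √t4 * √m4)) ^ 2 =
          (√t1 * √m1 + √t2 * √m2 + √t3 * √m3 + √t4 * √m4) ^ 2 := by ring
      _ ≤ _ := hd
      _ = _ := by ring
  · -- antidiagonal
    subst h1
    subst h4
    rw [Real.sqrt_zero]
    have k1 : (0 * √m1 + √t2 * √m2 + (√t3 * √m3 + 0 * √m4)) ^ 2 ≤ (t2 + t3) * (m2 + m3) := by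
      rw [← s2, ← s3, ← r2, ← r3, Real.sqrt_sq (Real.sqrt_nonneg _),
        Real.sqrt_sq (Real.sqrt_nonneg _), Real.sqrt_sq (Real.sqrt_nonneg _),
        Real.sqrt_sq (Real.sqrt_nonneg _)]
      have e : (√t2 ^ 2 + √t3 ^ 2) * (√m2 ^ 2 + √m3 ^ 2) -
          (0 * √m1 + √t2 * √m2 + (√t3 * √m3 + 0 * √m4)) ^ 2 =
          (√t2 * √m3 - √t3 * √m2) ^ 2 := by ring
      linarith [sq_nonneg (√t2 * √m3 - √t3 * √m2)]
    refine k1.trans ?_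
    have k2 : m2 + m3 ≤ (1 - ((ε : ℝ) / 15) ^ 2) * (m1 + m2 + (m3 + m4)) := by
      have k3 : 2 / 3 ≤ 1 - ((ε : ℝ) / 15) ^ 2 := by
        rw [div_pow]
        linarith
      have k4 : m2 + m3 ≤ 2 / 3 * (m1 + m2 + (m3 + m4)) := by
        rcases hG with ⟨a, b, c, d⟩ | ⟨a, b, c, d, e⟩
        · linarith
        · linarith
      exact k4.trans (mul_le_mul_of_nonneg_right k3 (by positivity))
    calc (t2 + t3) * (m2 + m3) ≤ (t2 + t3) *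
          ((1 - ((ε : ℝ) / 15) ^ 2) * (m1 + m2 + (m3 + m4))) :=
          mul_le_mul_of_nonneg_left k2 (by positivity)
      _ = _ := by ring
  · -- diagonal
    subst h2
    subst h3
    rw [Real.sqrt_zero]
    have k1 : (√t1 * √m1 + 0 * √m2 + (0 * √m3 + √t4 * √m4)) ^ 2 ≤ (t1 + t4) * (m1 + m4) := by
      rw [← s1, ← s4, ← r1, ← r4, Real.sqrt_sq (Real.sqrt_nonneg _),
        Real.sqrt_sq (Real.sqrt_nonneg _), Real.sqrt_sq (Real.sqrt_nonneg _),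
        Real.sqrt_sq (Real.sqrt_nonneg _)]
      have e : (√t1 ^ 2 + √t4 ^ 2) * (√m1 ^ 2 + √m4 ^ 2) -
          (√t1 * √m1 + 0 * √m2 + (0 * √m3 + √t4 * √m4)) ^ 2 =
          (√t1 * √m4 - √t4 * √m1) ^ 2 := by ring
      linarith [sq_nonneg (√t1 * √m4 - √t4 * √m1)]
    refine k1.trans ?_
    have k2 : m1 + m4 ≤ (1 - ((ε : ℝ) / 15) ^ 2) * (m1 + m2 + (m3 + m4)) := by
      have k3 : 1 - (ε : ℝ) / 3 ≤ 1 - ((ε : ℝ) / 15) ^ 2 := by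
        rw [div_pow]
        linarith
      have k4 : m1 + m4 ≤ (1 - (ε : ℝ) / 3) * (m1 + m2 + (m3 + m4)) := by
        have e0 : (1 - (ε : ℝ) / 3) * (m1 + m2 + (m3 + m4)) =
            (m1 + m2 + (m3 + m4)) - (ε : ℝ) * (m1 + m2 + (m3 + m4)) / 3 := by ring
        rw [e0]
        rcases hG with ⟨a, b, c, d⟩ | ⟨a, b, c, d, e⟩
        · have e1 : (ε : ℝ) * (m1 + m2 + (m3 + m4)) ≤ m1 + m2 + (m3 + m4) :=
            mul_le_of_le_one_left (by positivity) hε1'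
          linarith
        · have e1 : (ε : ℝ) * (m1 + m2 + (m3 + m4)) ≤ ε * (3 * m1) :=
            mul_le_mul_of_nonneg_left (by linarith) hε'.le
          have e2 : (ε : ℝ) * (3 * m1) = 3 * (ε * m1) := by ring
          linarith
      exact k4.trans (mul_le_mul_of_nonneg_right k3 (by positivity))
    calc (t1 + t4) * (m1 + m4) ≤ (t1 + t4) *
          ((1 - ((ε : ℝ) / 15) ^ 2) * (m1 + m2 + (m3 + m4))) :=
          mul_le_mul_of_nonneg_left k2 (by positivity)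
      _ = _ := by ring

end Pool.Agent.EB
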