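import Pool.Agent.EB.St

set_option autoImplicit false

/-!
# B1: broken terms, the chain rule for the affinity
-/

namespace Pool.Agent.EB

open Finset Pool.Agent.WD
open scoped NNReal

section

variable {V : Type} [Fintype V] [DecidableEq V]

/-- the assignments which agree with `z` outside `C` -/
def B1_fib (C : Finset V) (z : V → Bool) : Finset (V → Bool) :=
  univ.filter (fun y : V → Bool => ∀ v, v ∉ C → y v = z v)

lemma B1_mem_fib {C : Finset V} {z y : V → Bool} :
    y ∈ B1_fib C z ↔ ∀ v, v ∉ C → y v = z v := by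
  simp [B1_fib]

lemma B1_split1 {M : Type} [AddCommMonoid M] (C : Finset V) (p : V) (hp : p ∉ C) (z : V → Bool)
    (h : (V → Bool) → M) :
    ∑ x ∈ B1_fib (insert p C) z, h x =
      ∑ a : Bool, ∑ x ∈ B1_fib C (Function.update z p a), h x := by
  rw [← Finset.sum_fiberwise (B1_fib (insert p C) z) (fun x => x p) h]
  refine Finset.sum_congr rfl fun a _ => Finset.sum_congr ?_ fun _ _ => rfl
  ext x
  rw [Finset.mem_filter, B1_mem_fib, B1_mem_fib]
  constructor
  · rintro ⟨h1, h2⟩ v hv
    by_cases hvp : v = p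
    · subst hvp
      rw [Function.update_self]
      exact h2
    · rw [Function.update_of_ne hvp]
      exact h1 v (by rw [Finset.mem_insert]; tauto)
  · intro h1
    refine ⟨fun v hv => ?_, ?_⟩
    · rw [Finset.mem_insert, not_or] at hv
      rw [h1 v hv.2, Function.update_of_ne hv.1]
    · rw [h1 p hp, Function.update_self]

lemma B1_split {M : Type} [AddCommMonoid M] (C : Finset V) (g : Gad V) (hpq : g.p ≠ g.q)
    (hp : g.p ∉ C) (hq : g.q ∉ C) (z : V → Bool) (h : (V → Bool) → M) :
    ∑ x ∈ B1_fib (insert g.p (insert g.q C)) z, h x =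
      ∑ a : Bool, ∑ b : Bool, ∑ x ∈ B1_fib C (upd g z a b), h x := by
  rw [B1_split1 (insert g.q C) g.p (by rw [Finset.mem_insert]; tauto)]
  refine Finset.sum_congr rfl fun a _ => ?_
  rw [B1_split1 C g.q hq]
  rfl

lemma B1_upd_q (g : Gad V) (x : V → Bool) (a b : Bool) : upd g x a b g.q = b := by
  unfold upd
  rw [Function.update_self]

lemma B1_upd_p (g : Gad V) (hpq : g.p ≠ g.q) (x : V → Bool) (a b : Bool) :
    upd g x a b g.p = a := by
  unfold upd
  rw [Function.update_of_ne hpq, Function.update_self]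

lemma B1_upd_ne (g : Gad V) (x : V → Bool) (a b : Bool) (v : V) (h1 : v ≠ g.p) (h2 : v ≠ g.q) :
    upd g x a b v = x v := by
  unfold upd
  rw [Function.update_of_ne h2, Function.update_of_ne h1]

lemma B1_reparam (C : Finset V) (g : Gad V) (hpq : g.p ≠ g.q)
    (hp : g.p ∉ C) (hq : g.q ∉ C) (z : V → Bool) (a b : Bool) (h : (V → Bool) → ℝ≥0) :
    ∑ y ∈ B1_fib C (upd g z a b), h y = ∑ x ∈ B1_fib C z, h (upd g x a b) := by
  symm
  refine Finset.sum_nbij' (fun x => upd g x a b) (fun y => upd g y (z g.p) (z g.q)) ?_ ?_ ?_ ?_ ?_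
  · intro x hx
    rw [B1_mem_fib] at hx ⊢
    intro v hv
    by_cases h1 : v = g.q
    · subst h1
      rw [B1_upd_q, B1_upd_q]
    · by_cases h2 : v = g.p
      · subst h2
        rw [B1_upd_p g hpq, B1_upd_p g hpq]
      · rw [B1_upd_ne g x a b v h2 h1, B1_upd_ne g z a b v h2 h1]
        exact hx v hv
  · intro y hy
    rw [B1_mem_fib] at hy ⊢
    intro v hv
    by_cases h1 : v = g.q
    · subst h1
      rw [B1_upd_q]
    · by_cases h2 : v = g.p
      · subst h2
        rw [B1_upd_p g hpq]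
      · rw [B1_upd_ne g y _ _ v h2 h1, hy v hv, B1_upd_ne g z a b v h2 h1]
  · intro x hx
    rw [B1_mem_fib] at hx
    funext v
    by_cases h1 : v = g.q
    · subst h1
      rw [B1_upd_q]
      exact (hx _ hq).symm
    · by_cases h2 : v = g.p
      · subst h2
        rw [B1_upd_p g hpq]
        exact (hx _ hp).symm
      · rw [B1_upd_ne g _ _ _ v h2 h1, B1_upd_ne g _ _ _ v h2 h1]
  · intro y hy
    rw [B1_mem_fib] at hy
    funext v
    by_cases h1 : v = g.q
    · subst h1
      have h3 := hy _ hq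
      rw [B1_upd_q] at h3 ⊢
      exact h3.symm
    · by_cases h2 : v = g.p
      · subst h2
        have h3 := hy _ hp
        rw [B1_upd_p g hpq] at h3 ⊢
        exact h3.symm
      · rw [B1_upd_ne g _ _ _ v h2 h1, B1_upd_ne g _ _ _ v h2 h1]
  · intro x _
    rfl

lemma B1_cs {ι : Type} (s : Finset ι) (f g : ι → ℝ) (hf : ∀ i, 0 ≤ f i) (hg : ∀ i, 0 ≤ g i) :
    (∑ i ∈ s, Real.sqrt (f i * g i)) ^ 2 ≤ (∑ i ∈ s, f i) * ∑ i ∈ s, g i := by
  have h1 := Real.sum_sqrt_mul_sqrt_le s hf hg
  have h2 : ∑ i ∈ s, Real.sqrt (f i * g i) = ∑ i ∈ s, Real.sqrt (f i) * Real.sqrt (g i) :=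
    Finset.sum_congr rfl fun i _ => Real.sqrt_mul (hf i) _
  rw [h2]
  have h3 : 0 ≤ ∑ i ∈ s, Real.sqrt (f i) * Real.sqrt (g i) :=
    Finset.sum_nonneg fun i _ => mul_nonneg (Real.sqrt_nonneg _) (Real.sqrt_nonneg _)
  calc (∑ i ∈ s, Real.sqrt (f i) * Real.sqrt (g i)) ^ 2
      ≤ (Real.sqrt (∑ i ∈ s, f i) * Real.sqrt (∑ i ∈ s, g i)) ^ 2 := pow_le_pow_left₀ h3 h1 2
    _ = (∑ i ∈ s, f i) * ∑ i ∈ s, g i := by
        rw [mul_pow, Real.sq_sqrt (Finset.sum_nonneg fun i _ => hf i),
          Real.sq_sqrt (Finset.sum_nonneg fun i _ => hg i)]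

lemma B1_cs2 (T M : Bool → Bool → ℝ≥0) :
    (∑ a, ∑ b, Real.sqrt (T a b * M a b)) ^ 2 ≤
      (∑ a, ∑ b, (T a b : ℝ)) * (∑ a, ∑ b, (M a b : ℝ)) := by
  have h := B1_cs (univ : Finset (Bool × Bool)) (fun i => (T i.1 i.2 : ℝ))
    (fun i => (M i.1 i.2 : ℝ)) (fun i => NNReal.coe_nonneg _) (fun i => NNReal.coe_nonneg _)
  rw [Fintype.sum_prod_type, Fintype.sum_prod_type, Fintype.sum_prod_type] at h
  exact h

lemma B1_gap1_sum {ι : Type} (s : Finset ι) (ε : ℝ≥0) (m : ι → Bool → Bool → ℝ≥0)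
    (h : ∀ i ∈ s, Gap1 ε (m i)) : Gap1 ε (fun a b => ∑ i ∈ s, m i a b) := by
  refine ⟨Finset.sum_congr rfl fun i hi => (h i hi).1,
    Finset.sum_congr rfl fun i hi => (h i hi).2.1, ?_, ?_⟩
  · show (1 + ε) * ∑ i ∈ s, m i true false ≤ ∑ i ∈ s, m i true true
    rw [Finset.mul_sum]
    exact Finset.sum_le_sum fun i hi => (h i hi).2.2.1
  · show ∑ i ∈ s, m i true true ≤ 2 * ∑ i ∈ s, m i true false
    rw [Finset.mul_sum]
    exact Finset.sum_le_sum fun i hi => (h i hi).2.2.2

lemma B1_gap2_sum {ι : Type} (s : Finset ι) (ε : ℝ≥0) (m : ι → Bool → Bool → ℝ≥0)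
    (h : ∀ i ∈ s, Gap2 ε (m i)) : Gap2 ε (fun a b => ∑ i ∈ s, m i a b) := by
  refine ⟨Finset.sum_eq_zero fun i hi => (h i hi).1, ?_, ?_,
    Finset.sum_le_sum fun i hi => (h i hi).2.2.2.1, Finset.sum_le_sum fun i hi => (h i hi).2.2.2.2⟩
  · show ε * ∑ i ∈ s, m i true true ≤ ∑ i ∈ s, m i false true
    rw [Finset.mul_sum]
    exact Finset.sum_le_sum fun i hi => (h i hi).2.1
  · show ε * ∑ i ∈ s, m i true true ≤ ∑ i ∈ s, m i true false
    rw [Finset.mul_sum]
    exact Finset.sum_le_sum fun i hi => (h i hi).2.2.1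

lemma B1_mem_cores {J : Finset (Gad V)} {v : V} :
    v ∈ cores J ↔ ∃ g ∈ J, v = g.p ∨ v = g.q := by
  simp [cores]

/-- activity depends on the region without the cores only -/
lemma B1_act (g : Gad V) (x y : V → Bool)
    (h : ∀ v ∈ g.R, v ≠ g.p → v ≠ g.q → x v = y v) : Act g x ↔ Act g y := by
  unfold Act
  constructor
  · intro h1 v hv hp hq
    rw [← h v hv hp hq]
    exact h1 v hv hp hq
  · intro h1 v hv hp hq
    rw [h v hv hp hq]
    exact h1 v hv hp hq

lemma B1_nact (J : Finset (Gad V)) (x y : V → Bool)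
    (h : ∀ g ∈ J, ∀ v ∈ g.R, v ≠ g.p → v ≠ g.q → x v = y v) : nact J x = nact J y := by
  classical
  unfold nact
  have h1 : J.filter (fun g => Act g x) = J.filter (fun g => Act g y) :=
    Finset.filter_congr fun g hg => B1_act g x y (h g hg)
  exact congrArg Finset.card h1

/-- the chain rule -/
lemma B1_chain (ε : ℝ≥0) (ρ : ℝ) (h0 : 0 ≤ ρ) (hAff : ∀ M T : Bool → Bool → ℝ≥0,
    (Gap1 ε M ∨ Gap2 ε M) → Four (T true true) (T true false) (T false true) (T false false) →
    (∑ a, ∑ b, Real.sqrt (T a b * M a b)) ^ 2 ≤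
      ρ * (∑ a, ∑ b, (T a b : ℝ)) * (∑ a, ∑ b, (M a b : ℝ)))
    (f T : (V → Bool) → ℝ≥0) (U : Finset V) (K : ℝ≥0) (r : ℕ) (J : Finset (Gad V))
    (hF : Fam f U ε K r J) (hT : ∀ g ∈ J, PairB T g.p g.q) (J' : Finset (Gad V)) :
    J' ⊆ J → ∀ z : V → Bool,
      (∑ x ∈ B1_fib (cores J') z, Real.sqrt (T x * f x)) ^ 2 ≤
        ρ ^ nact J' z * (marg (cores J') T z : ℝ) * (marg (cores J') f z : ℝ) := by
  classical
  induction J' using Finset.induction_on with
  | empty =>
    intro _ z
    have h1 := B1_cs (B1_fib (cores (∅ : Finset (Gad V))) z) (fun x => (T x : ℝ))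
      (fun x => (f x : ℝ)) (fun i => NNReal.coe_nonneg _) (fun i => NNReal.coe_nonneg _)
    have h2 : nact (∅ : Finset (Gad V)) z = 0 := by
      unfold nact
      simp
    rw [h2, pow_zero, one_mul]
    have h3 : ∀ h : (V → Bool) → ℝ≥0, (marg (cores (∅ : Finset (Gad V))) h z : ℝ) =
        ∑ x ∈ B1_fib (cores (∅ : Finset (Gad V))) z, (h x : ℝ) := by
      intro h
      unfold marg B1_fib
      rw [NNReal.coe_sum]
    rw [h3, h3]
    exact h1
  | insert g J₀ hg ih =>
    intro hJ z
    have hJ₀ : J₀ ⊆ J := fun x hx => hJ (Finset.mem_insert_of_mem hx)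
    have hgJ : g ∈ J := hJ (Finset.mem_insert_self _ _)
    have hpq := hF.pq g hgJ
    -- the cores of the others are not in the region of `g`
    have hcR : ∀ v ∈ g.R, v ∉ cores J₀ := by
      intro v hv hc
      rw [B1_mem_cores] at hc
      obtain ⟨g', hg', hv'⟩ := hc
      have hne : g ≠ g' := fun h => hg (h ▸ hg')
      have hd := hF.disj g hgJ g' (hJ₀ hg') hne
      have hv2 : v ∈ g'.R := by
        rcases hv' with h | h
        · rw [h]; exact hF.pR g' (hJ₀ hg')
        · rw [h]; exact hF.qR g' (hJ₀ hg')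
      exact Finset.disjoint_left.1 hd hv hv2
    have hp : g.p ∉ cores J₀ := hcR _ (hF.pR g hgJ)
    have hq : g.q ∉ cores J₀ := hcR _ (hF.qR g hgJ)
    have hcores : cores (insert g J₀) = insert g.p (insert g.q (cores J₀)) := by
      ext v
      rw [Finset.mem_insert, Finset.mem_insert, B1_mem_cores, B1_mem_cores]
      constructor
      · rintro ⟨g', hg', h⟩
        rw [Finset.mem_insert] at hg'
        rcases hg' with rfl | hg'
        · tauto
        · exact Or.inr (Or.inr ⟨g', hg', h⟩)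
      · rintro (h | h | ⟨g', hg', h⟩)
        · exact ⟨g, Finset.mem_insert_self _ _, Or.inl h⟩
        · exact ⟨g, Finset.mem_insert_self _ _, Or.inr h⟩
        · exact ⟨g', Finset.mem_insert_of_mem hg', h⟩
    -- activity of the others
    have hn : ∀ a b : Bool, nact J₀ (upd g z a b) = nact J₀ z := by
      intro a b
      apply B1_nact
      intro g' hg' v hv _ _
      have hne : g ≠ g' := fun h => hg (h ▸ hg')
      have hd := hF.disj g hgJ g' (hJ₀ hg') hne
      apply B1_upd_ne
      · rintro rfl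
        exact Finset.disjoint_left.1 hd (hF.pR g hgJ) hv
      · rintro rfl
        exact Finset.disjoint_left.1 hd (hF.qR g hgJ) hv
    set S : Bool → Bool → ℝ := fun a b =>
      ∑ x ∈ B1_fib (cores J₀) (upd g z a b), Real.sqrt (T x * f x) with hS
    set T' : Bool → Bool → ℝ≥0 := fun a b => marg (cores J₀) T (upd g z a b) with hT'
    set M' : Bool → Bool → ℝ≥0 := fun a b => marg (cores J₀) f (upd g z a b) with hM'
    have hsplit : ∀ h : (V → Bool) → ℝ≥0, marg (cores (insert g J₀)) h z =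
        ∑ a : Bool, ∑ b : Bool, marg (cores J₀) h (upd g z a b) := by
      intro h
      rw [hcores]
      exact B1_split (cores J₀) g hpq hp hq z h
    have hS0 : ∀ a b, 0 ≤ S a b := fun a b => Finset.sum_nonneg fun x _ => Real.sqrt_nonneg _
    have hρ0 : 0 ≤ ρ ^ nact J₀ z := pow_nonneg h0 _
    have hSle : ∀ a b, S a b ≤ Real.sqrt (ρ ^ nact J₀ z) * Real.sqrt (T' a b * M' a b) := by
      intro a b
      have h1 := ih hJ₀ (upd g z a b)
      rw [hn a b] at h1
      rw [← Real.sqrt_mul hρ0]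
      apply Real.le_sqrt_of_sq_le
      rw [← mul_assoc]
      exact h1
    have hsum : (∑ x ∈ B1_fib (cores (insert g J₀)) z, Real.sqrt (T x * f x)) ≤
        Real.sqrt (ρ ^ nact J₀ z) * ∑ a, ∑ b, Real.sqrt (T' a b * M' a b) := by
      rw [hcores, B1_split (cores J₀) g hpq hp hq z, Finset.mul_sum]
      refine Finset.sum_le_sum fun a _ => ?_
      rw [Finset.mul_sum]
      exact Finset.sum_le_sum fun b _ => hSle a b
    have hsum0 : 0 ≤ ∑ x ∈ B1_fib (cores (insert g J₀)) z, Real.sqrt (T x * f x) :=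
      Finset.sum_nonneg fun x _ => Real.sqrt_nonneg _
    have hsq : (∑ x ∈ B1_fib (cores (insert g J₀)) z, Real.sqrt (T x * f x)) ^ 2 ≤
        ρ ^ nact J₀ z * (∑ a, ∑ b, Real.sqrt (T' a b * M' a b)) ^ 2 := by
      calc _ ≤ (Real.sqrt (ρ ^ nact J₀ z) * ∑ a, ∑ b, Real.sqrt (T' a b * M' a b)) ^ 2 :=
            pow_le_pow_left₀ hsum0 hsum 2
        _ = _ := by rw [mul_pow, Real.sq_sqrt hρ0]
    have hmT : (marg (cores (insert g J₀)) T z : ℝ) = ∑ a, ∑ b, (T' a b : ℝ) := by
      rw [hsplit T]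
      push_cast
      rfl
    have hmf : (marg (cores (insert g J₀)) f z : ℝ) = ∑ a, ∑ b, (M' a b : ℝ) := by
      rw [hsplit f]
      push_cast
      rfl
    rw [hmT, hmf]
    by_cases hact : Act g z
    · have hn2 : nact (insert g J₀) z = nact J₀ z + 1 := by
        unfold nact
        rw [Finset.filter_insert, if_pos hact, Finset.card_insert_of_notMem]
        intro h
        exact hg (Finset.mem_filter.1 h).1
      have hactx : ∀ x ∈ B1_fib (cores J₀) z, Act g x := by
        intro x hx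
        rw [B1_mem_fib] at hx
        refine (B1_act g x z fun v hv _ _ => hx v (hcR v hv)).2 hact
      have hMr : M' = fun a b => ∑ x ∈ B1_fib (cores J₀) z, f (upd g x a b) := by
        funext a b
        exact B1_reparam (cores J₀) g hpq hp hq z a b f
      have hgap : Gap1 ε M' ∨ Gap2 ε M' := by
        rw [hMr]
        rcases hF.gap g hgJ with h | h
        · left
          exact B1_gap1_sum _ ε (fun x a b => f (upd g x a b)) fun x hx => h x (hactx x hx)
        · right
          exact B1_gap2_sum _ ε (fun x a b => f (upd g x a b)) fun x hx => h x (hactx x hx)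
      have hfour : Four (T' true true) (T' true false) (T' false true) (T' false false) := by
        have h1 := hT g hgJ (cores J₀) (upd g z true true) (upd g z false false) (by
          intro w hw1 hw2
          rw [B1_upd_ne g z _ _ w hw1 hw2, B1_upd_ne g z _ _ w hw1 hw2])
        unfold Cross at h1
        have e1 : ({g.p} : Finset V).piecewise (upd g z true true) (upd g z false false) =
            upd g z true false := by
          funext v
          by_cases hv : v = g.p
          · subst hv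
            rw [Finset.piecewise_eq_of_mem _ _ _ (Finset.mem_singleton_self _), B1_upd_p g hpq,
              B1_upd_p g hpq]
          · rw [Finset.piecewise_eq_of_notMem _ _ _ (by rw [Finset.mem_singleton]; exact hv)]
            by_cases hv2 : v = g.q
            · subst hv2
              rw [B1_upd_q, B1_upd_q]
            · rw [B1_upd_ne g z _ _ v hv hv2, B1_upd_ne g z _ _ v hv hv2]
        have e2 : ({g.p} : Finset V).piecewise (upd g z false false) (upd g z true true) =
            upd g z false true := by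
          funext v
          by_cases hv : v = g.p
          · subst hv
            rw [Finset.piecewise_eq_of_mem _ _ _ (Finset.mem_singleton_self _), B1_upd_p g hpq,
              B1_upd_p g hpq]
          · rw [Finset.piecewise_eq_of_notMem _ _ _ (by rw [Finset.mem_singleton]; exact hv)]
            by_cases hv2 : v = g.q
            · subst hv2
              rw [B1_upd_q, B1_upd_q]
            · rw [B1_upd_ne g z _ _ v hv hv2, B1_upd_ne g z _ _ v hv hv2]
        rw [e1, e2] at h1
        exact h1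
      have hA := hAff M' T' hgap hfour
      rw [hn2, pow_succ]
      calc _ ≤ ρ ^ nact J₀ z * (∑ a, ∑ b, Real.sqrt (T' a b * M' a b)) ^ 2 := hsq
        _ ≤ ρ ^ nact J₀ z * (ρ * (∑ a, ∑ b, (T' a b : ℝ)) * (∑ a, ∑ b, (M' a b : ℝ))) :=
            mul_le_mul_of_nonneg_left hA hρ0
        _ = _ := by ring
    · have hn2 : nact (insert g J₀) z = nact J₀ z := by
        unfold nact
        rw [Finset.filter_insert, if_neg hact]
      rw [hn2]
      calc _ ≤ ρ ^ nact J₀ z * (∑ a, ∑ b, Real.sqrt (T' a b * M' a b)) ^ 2 := hsq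
        _ ≤ ρ ^ nact J₀ z * ((∑ a, ∑ b, (T' a b : ℝ)) * (∑ a, ∑ b, (M' a b : ℝ))) :=
            mul_le_mul_of_nonneg_left (B1_cs2 T' M') hρ0
        _ = _ := by ring

end

theorem thm_B1 (hAff : St_Aff) : St_B1 := by
  intro ε hε0 hε1
  obtain ⟨ρ, h0, h1, hA⟩ := hAff ε hε0 hε1
  refine ⟨ρ, h0, h1, ?_⟩
  intro V _ _ f U K r J hF T κ x₀ hκ hT
  classical
  have hchain := B1_chain ε ρ h0 hA f T U K r J hF hT J (Finset.Subset.refl J)
  have hcU : ∀ v ∈ U, v ∉ cores J := by
    intro v hv hc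
    rw [B1_mem_cores] at hc
    obtain ⟨g, hg, h⟩ := hc
    have hd := hF.RU g hg
    rcases h with h | h
    · exact Finset.disjoint_left.1 hd (hF.pR g hg) (h ▸ hv)
    · exact Finset.disjoint_left.1 hd (hF.qR g hg) (h ▸ hv)
  set Q := univ.filter (fun x : V → Bool => ∀ v ∈ U, x v = x₀ v) with hQ
  -- the projection
  set pj : (V → Bool) → (V → Bool) := fun x v => if v ∈ cores J then false else x v with hpj
  have hfib : ∀ z ∈ Q.image pj, Q.filter (fun x => pj x = z) = B1_fib (cores J) z := by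
    intro z hz
    rw [Finset.mem_image] at hz
    obtain ⟨z₁, hz₁, rfl⟩ := hz
    ext x
    rw [Finset.mem_filter, B1_mem_fib]
    constructor
    · rintro ⟨_, h⟩ v hv
      have h2 := congrFun h v
      rw [hpj] at h2 ⊢
      simp only [hv, if_false] at h2 ⊢
      exact h2
    · intro h
      refine ⟨?_, ?_⟩
      · rw [hQ, Finset.mem_filter] at hz₁ ⊢
        refine ⟨Finset.mem_univ _, fun v hv => ?_⟩
        have h2 := h v (hcU v hv)
        rw [hpj] at h2
        simp only [hcU v hv, if_false] at h2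
        rw [h2]
        exact hz₁.2 v hv
      · funext v
        by_cases hv : v ∈ cores J
        · rw [hpj]
          simp only [hv, if_true]
        · have h2 := h v hv
          rw [hpj] at h2 ⊢
          simp only [hv, if_false] at h2 ⊢
          exact h2
  have hfw : ∀ h : (V → Bool) → ℝ, ∑ x ∈ Q, h x =
      ∑ z ∈ Q.image pj, ∑ x ∈ B1_fib (cores J) z, h x := by
    intro h
    rw [← Finset.sum_fiberwise_of_maps_to (g := pj) (t := Q.image pj)
      (fun x hx => Finset.mem_image_of_mem pj hx) h]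
    exact Finset.sum_congr rfl fun z hz => by rw [hfib z hz]
  rw [hfw, hfw, Finset.mul_sum]
  refine Finset.sum_le_sum fun z hz => ?_
  have hmarg : ∀ h : (V → Bool) → ℝ≥0, (marg (cores J) h z : ℝ) =
      ∑ x ∈ B1_fib (cores J) z, (h x : ℝ) := by
    intro h
    unfold marg B1_fib
    rw [NNReal.coe_sum]
  have hnact : ∀ x ∈ B1_fib (cores J) z, nact J x = nact J z := by
    intro x hx
    rw [B1_mem_fib] at hx
    apply B1_nact
    intro g hg v hv hvp hvq
    apply hx
    intro hc
    rw [B1_mem_cores] at hc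
    obtain ⟨g', hg', h⟩ := hc
    by_cases hne : g = g'
    · subst hne
      tauto
    · have hd := hF.disj g hg g' hg' hne
      have hv2 : v ∈ g'.R := by
        rcases h with h | h
        · rw [h]; exact hF.pR g' hg'
        · rw [h]; exact hF.qR g' hg'
      exact Finset.disjoint_left.1 hd hv hv2
  have hR : ∑ x ∈ B1_fib (cores J) z, ρ ^ nact J x * (f x : ℝ) =
      ρ ^ nact J z * ∑ x ∈ B1_fib (cores J) z, (f x : ℝ) := by
    rw [Finset.mul_sum]
    exact Finset.sum_congr rfl fun x hx => by rw [hnact x hx]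
  rw [hR]
  have hc := hchain z
  rw [hmarg, hmarg] at hc
  set A := ∑ x ∈ B1_fib (cores J) z, (T x : ℝ) with hAdef
  set B := ∑ x ∈ B1_fib (cores J) z, (f x : ℝ) with hBdef
  set S := ∑ x ∈ B1_fib (cores J) z, Real.sqrt (T x * f x) with hSdef
  have hA0 : 0 ≤ A := Finset.sum_nonneg fun x _ => NNReal.coe_nonneg _
  have hB0 : 0 ≤ B := Finset.sum_nonneg fun x _ => NNReal.coe_nonneg _
  have hS0 : 0 ≤ S := Finset.sum_nonneg fun x _ => Real.sqrt_nonneg _
  have hκ0 : (0 : ℝ) ≤ κ := NNReal.coe_nonneg _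
  have hAS : A ≤ Real.sqrt κ * S := by
    rw [hAdef, hSdef, Finset.mul_sum]
    refine Finset.sum_le_sum fun x hx => ?_
    have hxQ : ∀ v ∈ U, x v = x₀ v := by
      have h2 : x ∈ Q.filter (fun x => pj x = z) := by rw [hfib z hz]; exact hx
      have h3 := (Finset.mem_filter.1 h2).1
      rw [hQ, Finset.mem_filter] at h3
      exact h3.2
    have h2 : (T x : ℝ) ≤ κ * f x := by
      have := hκ x hxQ
      exact_mod_cast this
    rw [← Real.sqrt_mul hκ0]
    apply Real.le_sqrt_of_sq_le
    have hT0 : (0 : ℝ) ≤ T x := NNReal.coe_nonneg _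
    calc (T x : ℝ) ^ 2 = T x * T x := by ring
      _ ≤ T x * (κ * f x) := mul_le_mul_of_nonneg_left h2 hT0
      _ = κ * (T x * f x) := by ring
  rcases hA0.lt_or_eq with hApos | hAz
  · have h5 : A ^ 2 ≤ κ * (ρ ^ nact J z * A * B) := by
      calc A ^ 2 ≤ (Real.sqrt κ * S) ^ 2 := pow_le_pow_left₀ hA0 hAS 2
        _ = κ * S ^ 2 := by rw [mul_pow, Real.sq_sqrt hκ0]
        _ ≤ κ * (ρ ^ nact J z * A * B) := mul_le_mul_of_nonneg_left hc hκ0
    have h6 : A * A ≤ A * (κ * (ρ ^ nact J z * B)) := by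
      calc A * A = A ^ 2 := by ring
        _ ≤ κ * (ρ ^ nact J z * A * B) := h5
        _ = A * (κ * (ρ ^ nact J z * B)) := by ring
    exact le_of_mul_le_mul_left h6 hApos
  · rw [← hAz]
    exact mul_nonneg hκ0 (mul_nonneg (pow_nonneg h0 _) hB0)

end Pool.Agent.EB
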