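import Pool.Agent.EB.St
import Mathlib

/-!
# Terms of rank `W`

The core variables of the gadgets in `J` are replaced by new values `s` (for the `p`) and `t` (for the
`q`); for fixed outer variables the core estimate applies, and the sum over everything counts every
point `4 ^ |J|` times.
-/

namespace Pool.Agent.EB

open Finset Pool.Agent.WD
open scoped NNReal

variable {V : Type} [DecidableEq V]

open Classical in
/-- the cores get the new values `s`, `t` -/
private noncomputable def ins (J : Finset (Gad V)) (z : V → Bool) (s t : {g // g ∈ J} → Bool)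
    (v : V) : Bool :=
  if h : ∃ g : {g // g ∈ J}, v = g.1.p then s h.choose
  else if h : ∃ g : {g // g ∈ J}, v = g.1.q then t h.choose else z v

private theorem B2_same {f : (V → Bool) → ℝ≥0} {U : Finset V} {ε K : ℝ≥0} {r : ℕ}
    {J : Finset (Gad V)} (hF : Fam f U ε K r J) {g h : {g // g ∈ J}} {v : V} (h1 : v ∈ g.1.R)
    (h2 : v ∈ h.1.R) : g = h := by
  by_contra hne
  have h3 : g.1 ≠ h.1 := fun h4 => hne (Subtype.ext h4)
  exact Finset.disjoint_left.1 (hF.disj g.1 g.2 h.1 h.2 h3) h1 h2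

private theorem ins_p {f : (V → Bool) → ℝ≥0} {U : Finset V} {ε K : ℝ≥0} {r : ℕ}
    {J : Finset (Gad V)} (hF : Fam f U ε K r J) (z : V → Bool) (s t : {g // g ∈ J} → Bool)
    (g : {g // g ∈ J}) : ins J z s t g.1.p = s g := by
  have h : ∃ h : {g // g ∈ J}, g.1.p = h.1.p := ⟨g, rfl⟩
  unfold ins
  rw [dif_pos h]
  congr 1
  have h2 := h.choose_spec
  exact B2_same hF (v := g.1.p) ((congrArg (fun w => w ∈ h.choose.1.R) h2).mpr
    (hF.pR _ h.choose.2)) (hF.pR g.1 g.2)

private theorem ins_q {f : (V → Bool) → ℝ≥0} {U : Finset V} {ε K : ℝ≥0} {r : ℕ}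
    {J : Finset (Gad V)} (hF : Fam f U ε K r J) (z : V → Bool) (s t : {g // g ∈ J} → Bool)
    (g : {g // g ∈ J}) : ins J z s t g.1.q = t g := by
  have h0 : ¬ ∃ h : {g // g ∈ J}, g.1.q = h.1.p := by
    rintro ⟨h, h1⟩
    have h2 : g = h := B2_same hF (v := g.1.q) (hF.qR g.1 g.2) (h1 ▸ hF.pR h.1 h.2)
    rw [← h2] at h1
    exact hF.pq g.1 g.2 h1.symm
  have h : ∃ h : {g // g ∈ J}, g.1.q = h.1.q := ⟨g, rfl⟩
  unfold ins
  rw [dif_neg h0, dif_pos h]
  congr 1
  have h2 := h.choose_spec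
  exact B2_same hF (v := g.1.q) ((congrArg (fun w => w ∈ h.choose.1.R) h2).mpr
    (hF.qR _ h.choose.2)) (hF.qR g.1 g.2)

private theorem ins_o (J : Finset (Gad V)) (z : V → Bool) (s t : {g // g ∈ J} → Bool) (v : V)
    (h1 : ∀ g : {g // g ∈ J}, v ≠ g.1.p) (h2 : ∀ g : {g // g ∈ J}, v ≠ g.1.q) :
    ins J z s t v = z v := by
  unfold ins
  rw [dif_neg (fun ⟨g, hg⟩ => h1 g hg), dif_neg (fun ⟨g, hg⟩ => h2 g hg)]

/-- to prove equality of a function with `ins z s t` -/
private theorem ins_eq {f : (V → Bool) → ℝ≥0} {U : Finset V} {ε K : ℝ≥0} {r : ℕ}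
    {J : Finset (Gad V)} (hF : Fam f U ε K r J) (z : V → Bool) (s t : {g // g ∈ J} → Bool)
    (y : V → Bool) (hp : ∀ g : {g // g ∈ J}, y g.1.p = s g) (hq : ∀ g : {g // g ∈ J}, y g.1.q = t g)
    (ho : ∀ v, (∀ g : {g // g ∈ J}, v ≠ g.1.p) → (∀ g : {g // g ∈ J}, v ≠ g.1.q) → y v = z v) :
    ins J z s t = y := by
  funext v
  by_cases h1 : ∃ g : {g // g ∈ J}, v = g.1.p
  · obtain ⟨g, rfl⟩ := h1
    rw [ins_p hF, hp]
  · by_cases h2 : ∃ g : {g // g ∈ J}, v = g.1.q
    · obtain ⟨g, rfl⟩ := h2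
      rw [ins_q hF, hq]
    · have h1' : ∀ g : {g // g ∈ J}, v ≠ g.1.p := fun g hg => h1 ⟨g, hg⟩
      have h2' : ∀ g : {g // g ∈ J}, v ≠ g.1.q := fun g hg => h2 ⟨g, hg⟩
      rw [ins_o J z s t v h1' h2', ho v h1' h2']

/-- active gadgets do not depend on the cores -/
private theorem ins_act {f : (V → Bool) → ℝ≥0} {U : Finset V} {ε K : ℝ≥0} {r : ℕ}
    {J : Finset (Gad V)} (hF : Fam f U ε K r J) (z : V → Bool) (s t : {g // g ∈ J} → Bool)
    (g : {g // g ∈ J}) : Act g.1 (ins J z s t) ↔ Act g.1 z := by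
  have h : ∀ v ∈ g.1.R, v ≠ g.1.p → v ≠ g.1.q → ins J z s t v = z v := by
    intro v hv h1 h2
    refine ins_o J z s t v (fun h h3 => ?_) (fun h h3 => ?_)
    · have h4 : g = h := B2_same hF hv (h3 ▸ hF.pR h.1 h.2)
      exact h1 (h4 ▸ h3)
    · have h4 : g = h := B2_same hF hv (h3 ▸ hF.qR h.1 h.2)
      exact h2 (h4 ▸ h3)
  unfold Act
  constructor
  · intro h1 v hv h2 h3
    rw [← h v hv h2 h3]
    exact h1 v hv h2 h3
  · intro h1 v hv h2 h3
    rw [h v hv h2 h3]
    exact h1 v hv h2 h3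

private theorem ins_nact {f : (V → Bool) → ℝ≥0} {U : Finset V} {ε K : ℝ≥0} {r : ℕ}
    {J : Finset (Gad V)} (hF : Fam f U ε K r J) (z : V → Bool) (s t : {g // g ∈ J} → Bool) :
    nact J (ins J z s t) = nact J z := by
  classical
  unfold nact
  congr 1
  refine Finset.filter_congr fun g hg => ?_
  exact ins_act hF z s t ⟨g, hg⟩

private theorem ins_U {f : (V → Bool) → ℝ≥0} {U : Finset V} {ε K : ℝ≥0} {r : ℕ}
    {J : Finset (Gad V)} (hF : Fam f U ε K r J) (z : V → Bool) (s t : {g // g ∈ J} → Bool) (v : V)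
    (hv : v ∈ U) : ins J z s t v = z v := by
  refine ins_o J z s t v (fun h h3 => ?_) (fun h h3 => ?_)
  · exact Finset.disjoint_left.1 (hF.RU h.1 h.2) (h3 ▸ hF.pR h.1 h.2) hv
  · exact Finset.disjoint_left.1 (hF.RU h.1 h.2) (h3 ▸ hF.qR h.1 h.2) hv

open Classical in
/-- every point is counted `4 ^ |J|` times -/
private theorem B2_count [Fintype V] {f : (V → Bool) → ℝ≥0} {U : Finset V} {ε K : ℝ≥0} {r : ℕ}
    {J : Finset (Gad V)} (hF : Fam f U ε K r J) (x₀ : V → Bool) (H : (V → Bool) → ℝ) :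
    ∑ z ∈ univ.filter (fun x : V → Bool => ∀ v ∈ U, x v = x₀ v),
      ∑ s : {g // g ∈ J} → Bool, ∑ t : {g // g ∈ J} → Bool, H (ins J z s t) =
    ((2 : ℝ) ^ J.card * 2 ^ J.card) *
      ∑ x ∈ univ.filter (fun x : V → Bool => ∀ v ∈ U, x v = x₀ v), H x := by
  set Q : Finset (V → Bool) := univ.filter (fun x : V → Bool => ∀ v ∈ U, x v = x₀ v) with hQ
  have h1 : ∑ z ∈ Q, ∑ s : {g // g ∈ J} → Bool, ∑ t : {g // g ∈ J} → Bool, H (ins J z s t) =
      ∑ a ∈ Q ×ˢ ((univ : Finset ({g // g ∈ J} → Bool)) ×ˢ (univ : Finset ({g // g ∈ J} → Bool))),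
        H (ins J a.1 a.2.1 a.2.2) := by
    rw [Finset.sum_product]
    refine Finset.sum_congr rfl fun z _ => ?_
    rw [Finset.sum_product]
  have h2 : ∑ a ∈ Q ×ˢ ((univ : Finset ({g // g ∈ J} → Bool)) ×ˢ
        (univ : Finset ({g // g ∈ J} → Bool))), H (ins J a.1 a.2.1 a.2.2) =
      ∑ a ∈ Q ×ˢ ((univ : Finset ({g // g ∈ J} → Bool)) ×ˢ
        (univ : Finset ({g // g ∈ J} → Bool))), H a.1 := by
    refine Finset.sum_nbij'
      (fun a => (ins J a.1 a.2.1 a.2.2, fun g => a.1 g.1.p, fun g => a.1 g.1.q))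
      (fun a => (ins J a.1 a.2.1 a.2.2, fun g => a.1 g.1.p, fun g => a.1 g.1.q)) ?_ ?_ ?_ ?_ ?_
    · rintro ⟨z, s, t⟩ ha
      rw [Finset.mem_product] at ha ⊢
      refine ⟨?_, Finset.mem_product.2 ⟨Finset.mem_univ _, Finset.mem_univ _⟩⟩
      rw [hQ, Finset.mem_filter] at ha ⊢
      exact ⟨Finset.mem_univ _, fun v hv => (ins_U hF z s t v hv).trans (ha.1.2 v hv)⟩
    · rintro ⟨z, s, t⟩ ha
      rw [Finset.mem_product] at ha ⊢
      refine ⟨?_, Finset.mem_product.2 ⟨Finset.mem_univ _, Finset.mem_univ _⟩⟩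
      rw [hQ, Finset.mem_filter] at ha ⊢
      exact ⟨Finset.mem_univ _, fun v hv => (ins_U hF z s t v hv).trans (ha.1.2 v hv)⟩
    · rintro ⟨z, s, t⟩ _
      refine Prod.ext ?_ (Prod.ext ?_ ?_)
      · exact ins_eq hF _ _ _ z (fun _ => rfl) (fun _ => rfl)
          fun v h3 h4 => (ins_o J z s t v h3 h4).symm
      · funext g
        exact ins_p hF z s t g
      · funext g
        exact ins_q hF z s t g
    · rintro ⟨z, s, t⟩ _
      refine Prod.ext ?_ (Prod.ext ?_ ?_)
      · exact ins_eq hF _ _ _ z (fun _ => rfl) (fun _ => rfl)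
          fun v h3 h4 => (ins_o J z s t v h3 h4).symm
      · funext g
        exact ins_p hF z s t g
      · funext g
        exact ins_q hF z s t g
    · intro a _
      rfl
  have h3 : (Fintype.card ({g // g ∈ J} → Bool) : ℝ) = 2 ^ J.card := by
    rw [Fintype.card_fun, Fintype.card_bool, Fintype.card_coe]
    push_cast
    rfl
  rw [h1, h2, Finset.sum_product, Finset.mul_sum]
  refine Finset.sum_congr rfl fun z _ => ?_
  rw [Finset.sum_product]
  show (∑ _x : {g // g ∈ J} → Bool, ∑ _y : {g // g ∈ J} → Bool, H z) = _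
  rw [Finset.sum_const, Finset.sum_const, Finset.card_univ, nsmul_eq_mul, nsmul_eq_mul, h3,
    mul_assoc]

theorem thm_B2 (hRk : St_Rk) : St_B2 := by
  classical
  intro ε hε hε1
  obtain ⟨ρ, hρ0, hρ1, hR⟩ := hRk ε hε hε1
  refine ⟨ρ, hρ0, hρ1, ?_⟩
  intro V _ _ f U K r J hF T κ x₀ hT S W hrank hcut
  obtain ⟨u, v, hu, hv, hTuv⟩ := hrank
  set Q : Finset (V → Bool) := univ.filter (fun x : V → Bool => ∀ v ∈ U, x v = x₀ v) with hQ
  have hz : ∀ z ∈ Q, ∑ s : {g // g ∈ J} → Bool, ∑ t : {g // g ∈ J} → Bool,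
      (T (ins J z s t) : ℝ) ≤ κ * W * ∑ s : {g // g ∈ J} → Bool, ∑ t : {g // g ∈ J} → Bool,
        ρ ^ nact J (ins J z s t) * (f (ins J z s t) : ℝ) := by
    intro z hz
    have hzU : ∀ v ∈ U, z v = x₀ v := (Finset.mem_filter.1 hz).2
    set L : Finset {g // g ∈ J} := univ.filter fun g => Act g.1 z with hL
    have hLc : L.card = nact J z := by
      unfold nact
      rw [← Finset.card_image_of_injective L Subtype.val_injective]
      congr 1
      ext g
      rw [Finset.mem_image, Finset.mem_filter]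
      constructor
      · rintro ⟨i, hi, rfl⟩
        exact ⟨i.2, (Finset.mem_filter.1 hi).2⟩
      · rintro ⟨h1, h2⟩
        exact ⟨⟨g, h1⟩, Finset.mem_filter.2 ⟨Finset.mem_univ _, h2⟩, rfl⟩
    have hkey := hR {g // g ∈ J} L (fun s t => f (ins J z s t)) (fun s t => T (ins J z s t)) κ W
      (fun i s => u i (ins J z s fun _ => false)) (fun i t => v i (ins J z (fun _ => false) t))
      ?_ ?_ ?_
    · rw [hLc] at hkey
      refine hkey.trans (le_of_eq ?_)
      rw [mul_assoc, Finset.mul_sum]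
      congr 1
      refine Finset.sum_congr rfl fun s _ => ?_
      rw [Finset.mul_sum]
      refine Finset.sum_congr rfl fun t _ => ?_
      rw [ins_nact hF]
    · intro i hi
      have hact : Act i.1 z := (Finset.mem_filter.1 hi).2
      have hupd : ∀ (s t : {g // g ∈ J} → Bool) (a b : Bool),
          ins J z (Function.update s i a) (Function.update t i b) = upd i.1 (ins J z s t) a b := by
        intro s t a b
        refine ins_eq hF _ _ _ _ ?_ ?_ ?_
        · intro g
          unfold upd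
          by_cases hg : g = i
          · subst hg
            rw [Function.update_of_ne (hF.pq g.1 g.2), Function.update_self,
              Function.update_self]
          · have h1 : g.1.p ≠ i.1.p := fun h =>
              hg (B2_same hF (v := g.1.p) (hF.pR g.1 g.2) (h ▸ hF.pR i.1 i.2))
            have h2 : g.1.p ≠ i.1.q := fun h =>
              hg (B2_same hF (v := g.1.p) (hF.pR g.1 g.2) (h ▸ hF.qR i.1 i.2))
            rw [Function.update_of_ne h2, Function.update_of_ne h1, Function.update_of_ne hg,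
              ins_p hF]
        · intro g
          unfold upd
          by_cases hg : g = i
          · subst hg
            rw [Function.update_self, Function.update_self]
          · have h1 : g.1.q ≠ i.1.p := fun h =>
              hg (B2_same hF (v := g.1.q) (hF.qR g.1 g.2) (h ▸ hF.pR i.1 i.2))
            have h2 : g.1.q ≠ i.1.q := fun h =>
              hg (B2_same hF (v := g.1.q) (hF.qR g.1 g.2) (h ▸ hF.qR i.1 i.2))
            rw [Function.update_of_ne h2, Function.update_of_ne h1, Function.update_of_ne hg,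
              ins_q hF]
        · intro w h1 h2
          unfold upd
          rw [Function.update_of_ne (h2 i), Function.update_of_ne (h1 i), ins_o J z s t w h1 h2]
      rcases hF.gap i.1 i.2 with h | h
      · refine Or.inl fun s t => ?_
        have h3 := h (ins J z s t) ((ins_act hF z s t i).2 hact)
        simp only [hupd]
        exact h3
      · refine Or.inr fun s t => ?_
        have h3 := h (ins J z s t) ((ins_act hF z s t i).2 hact)
        simp only [hupd]
        exact h3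
    · intro s t
      exact hT _ fun w hw => (ins_U hF z s t w hw).trans (hzU w hw)
    · intro s t
      show (T (ins J z s t) : ℝ) = _
      rw [hTuv]
      refine Finset.sum_congr rfl fun i _ => ?_
      have h1 : u i (ins J z s t) = u i (ins J z s fun _ => false) := by
        refine hu i _ _ fun w hw => ?_
        by_cases h3 : ∃ g : {g // g ∈ J}, w = g.1.p
        · obtain ⟨g, rfl⟩ := h3
          rw [ins_p hF, ins_p hF]
        · have h4 : ∀ g : {g // g ∈ J}, w ≠ g.1.p := fun g hg => h3 ⟨g, hg⟩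
          have h5 : ∀ g : {g // g ∈ J}, w ≠ g.1.q := fun g hg => (hcut g.1 g.2).2 (hg ▸ hw)
          rw [ins_o J z _ _ w h4 h5, ins_o J z _ _ w h4 h5]
      have h2 : v i (ins J z s t) = v i (ins J z (fun _ => false) t) := by
        refine hv i _ _ fun w hw => ?_
        by_cases h3 : ∃ g : {g // g ∈ J}, w = g.1.q
        · obtain ⟨g, rfl⟩ := h3
          rw [ins_q hF, ins_q hF]
        · have h4 : ∀ g : {g // g ∈ J}, w ≠ g.1.q := fun g hg => h3 ⟨g, hg⟩
          have h5 : ∀ g : {g // g ∈ J}, w ≠ g.1.p := fun g hg => hw (hg ▸ (hcut g.1 g.2).1)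
          rw [ins_o J z _ _ w h5 h4, ins_o J z _ _ w h5 h4]
      rw [h1, h2]
  have hsum := Finset.sum_le_sum hz
  rw [B2_count hF x₀ (fun x => (T x : ℝ)), ← Finset.mul_sum,
    B2_count hF x₀ (fun x => ρ ^ nact J x * (f x : ℝ))] at hsum
  have h4 : (0 : ℝ) < (2 : ℝ) ^ J.card * 2 ^ J.card := by positivity
  refine le_of_mul_le_mul_left (hsum.trans (le_of_eq ?_)) h4
  ring

end Pool.Agent.EB
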