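import Pool.Agent.EB.St

/-!
# Concentration of the number of active gadgets
-/

namespace Pool.Agent.EB

open Finset Pool.Agent.WD
open scoped NNReal

set_option linter.unusedSectionVars false

variable {V : Type} [Fintype V] [DecidableEq V]

private theorem Conc_sub {f : (V → Bool) → ℝ≥0} {U : Finset V} {ε K : ℝ≥0} {r : ℕ}
    {J J' : Finset (Gad V)} (h : Fam f U ε K r J) (hs : J' ⊆ J) : Fam f U ε K r J' where
  pR := fun g hg => h.pR g (hs hg)
  qR := fun g hg => h.qR g (hs hg)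
  pq := fun g hg => h.pq g (hs hg)
  CR := fun g hg => h.CR g (hs hg)
  pC := fun g hg => h.pC g (hs hg)
  qC := fun g hg => h.qC g (hs hg)
  RU := fun g hg => h.RU g (hs hg)
  Rr := fun g hg => h.Rr g (hs hg)
  disj := fun g hg g' hg' => h.disj g (hs hg) g' (hs hg')
  gap := fun g hg => h.gap g (hs hg)
  ratio := fun g hg => h.ratio g (hs hg)

private theorem Conc_act_congr (g : Gad V) (x y : V → Bool) (h : ∀ v ∈ g.R, x v = y v) :
    Act g x ↔ Act g y := by
  unfold Act
  constructor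
  · intro hx v hv h1 h2
    rw [← h v hv]
    exact hx v hv h1 h2
  · intro hx v hv h1 h2
    rw [h v hv]
    exact hx v hv h1 h2

private theorem Conc_rst_off (g : Gad V) (x : V → Bool) (v : V) (hv : v ∉ g.R) :
    rst g x v = x v := by
  unfold rst
  rw [if_neg hv]

private theorem Conc_rst_act (g : Gad V) (x : V → Bool) : Act g (rst g x) := by
  intro v hv _ _
  unfold rst
  rw [if_pos hv]
  by_cases hc : v ∈ g.C
  · simp [hc]
  · simp [hc]

private theorem Conc_rst_rst (g : Gad V) (x : V → Bool) : rst g (rst g x) = rst g x := by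
  funext v
  unfold rst
  split_ifs <;> rfl

private theorem Conc_nact_rst (J : Finset (Gad V)) (g : Gad V)
    (hd : ∀ h ∈ J, Disjoint g.R h.R) (x : V → Bool) : nact J (rst g x) = nact J x := by
  classical
  unfold nact
  have h1 : J.filter (fun h => Act h (rst g x)) = J.filter (fun h => Act h x) := by
    refine Finset.filter_congr fun h hh => ?_
    refine Conc_act_congr h _ _ fun v hv => ?_
    exact Conc_rst_off g x v fun hv' => (Finset.disjoint_left.1 (hd h hh)) hv' hv
  rw [h1]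

private theorem Conc_nact_insert (J : Finset (Gad V)) [DecidableEq (Gad V)] (g : Gad V)
    (hg : g ∉ J) (x : V → Bool) [Decidable (Act g x)] :
    nact (insert g J) x = nact J x + if Act g x then 1 else 0 := by
  classical
  unfold nact
  rw [Finset.filter_insert]
  split_ifs with h
  · rw [Finset.card_insert_of_notMem]
    intro h2
    exact hg (Finset.mem_filter.1 h2).1
  · rfl

private theorem Conc_fibre_card (g : Gad V) (Q : Finset (V → Bool)) (z : V → Bool) :
    (Q.filter (fun x => rst g x = z)).card ≤ 2 ^ g.R.card := by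
  have h1 : (Q.filter (fun x => rst g x = z)).card ≤ (univ : Finset (g.R → Bool)).card := by
    refine Finset.card_le_card_of_injOn (fun x v => x v.1) (fun _ _ => Finset.mem_coe.2 (mem_univ _))
      ?_
    intro x hx y hy hxy
    have hx' : rst g x = z := (Finset.mem_filter.1 (Finset.mem_coe.1 hx)).2
    have hy' : rst g y = z := (Finset.mem_filter.1 (Finset.mem_coe.1 hy)).2
    funext v
    by_cases hv : v ∈ g.R
    · exact congrFun hxy ⟨v, hv⟩
    · rw [← Conc_rst_off g x v hv, ← Conc_rst_off g y v hv, hx', hy']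
  refine h1.trans (le_of_eq ?_)
  rw [Finset.card_univ, Fintype.card_fun, Fintype.card_bool, Fintype.card_coe]

private theorem Conc_step (f : (V → Bool) → ℝ≥0) (U : Finset V) (K : ℝ≥0) (r : ℕ)
    (g : Gad V) (hRU : Disjoint g.R U) (hRr : g.R.card ≤ r)
    (hratio : ∀ x, f x ≤ K * f (rst g x)) (hK : 1 ≤ K) (ρ : ℝ) (hρ1 : ρ ≤ 1)
    (x₀ : V → Bool) (wt : (V → Bool) → ℝ) (hw0 : ∀ x, 0 ≤ wt x)
    (hw : ∀ x, wt (rst g x) = wt x) (B : (V → Bool) → ℝ)
    (hB : ∀ x, B x ≤ 1) (hBa : ∀ x, B (rst g x) = ρ) :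
    ∑ x ∈ univ.filter (fun x : V → Bool => ∀ v ∈ U, x v = x₀ v), wt x * B x * (f x : ℝ) ≤
      (1 - (1 - ρ) / (K * 2 ^ r)) *
        ∑ x ∈ univ.filter (fun x : V → Bool => ∀ v ∈ U, x v = x₀ v), wt x * (f x : ℝ) := by
  classical
  set Q : Finset (V → Bool) := univ.filter (fun x : V → Bool => ∀ v ∈ U, x v = x₀ v) with hQ
  have hmem : ∀ x ∈ Q, rst g x ∈ Q := by
    intro x hx
    rw [hQ, Finset.mem_filter] at hx ⊢
    refine ⟨mem_univ _, fun v hv => ?_⟩
    rw [Conc_rst_off g x v fun hv' => (Finset.disjoint_left.1 hRU) hv' hv]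
    exact hx.2 v hv
  have hmaps : ∀ x ∈ Q, rst g x ∈ Q.image (rst g) := fun x hx => Finset.mem_image_of_mem _ hx
  rw [← Finset.sum_fiberwise_of_maps_to hmaps, ← Finset.sum_fiberwise_of_maps_to hmaps,
    Finset.mul_sum]
  refine Finset.sum_le_sum fun z hz => ?_
  obtain ⟨x1, hx1, rfl⟩ := Finset.mem_image.1 hz
  set z : V → Bool := rst g x1 with hzdef
  have hzz : rst g z = z := by rw [hzdef]; exact Conc_rst_rst g x1
  have hzQ : z ∈ Q := hmem x1 hx1
  set P : Finset (V → Bool) := Q.filter (fun x => rst g x = z) with hP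
  have hzP : z ∈ P := by
    rw [hP, Finset.mem_filter]
    exact ⟨hzQ, hzz⟩
  have hwP : ∀ x ∈ P, wt x = wt z := by
    intro x hx
    have h1 := (Finset.mem_filter.1 hx).2
    rw [← hw x, h1]
  have hK0 : (0 : ℝ) < K := lt_of_lt_of_le one_pos (by exact_mod_cast hK)
  have hKr : (0 : ℝ) < (K : ℝ) * 2 ^ r := by positivity
  have hcard : (P.card : ℝ) ≤ 2 ^ r := by
    have h1 := Conc_fibre_card g Q z
    have h2 : P.card ≤ 2 ^ r := h1.trans (Nat.pow_le_pow_right (by norm_num) hRr)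
    exact_mod_cast h2
  have hmass : ∑ x ∈ P, (f x : ℝ) ≤ (K : ℝ) * 2 ^ r * (f z : ℝ) := by
    have h1 : ∀ x ∈ P, (f x : ℝ) ≤ (K : ℝ) * (f z : ℝ) := by
      intro x hx
      have h2 := hratio x
      rw [(Finset.mem_filter.1 hx).2] at h2
      exact_mod_cast h2
    refine (Finset.sum_le_card_nsmul P _ _ h1).trans ?_
    rw [nsmul_eq_mul]
    have h3 : (0 : ℝ) ≤ (K : ℝ) * (f z : ℝ) := mul_nonneg hK0.le (NNReal.coe_nonneg _)
    nlinarith [mul_le_mul_of_nonneg_right hcard h3]
  have h4 : ∑ x ∈ P, wt x * B x * (f x : ℝ) = wt z * ∑ x ∈ P, B x * (f x : ℝ) := by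
    rw [Finset.mul_sum]
    refine Finset.sum_congr rfl fun x hx => ?_
    rw [hwP x hx]
    ring
  have h5 : ∑ x ∈ P, wt x * (f x : ℝ) = wt z * ∑ x ∈ P, (f x : ℝ) := by
    rw [Finset.mul_sum]
    refine Finset.sum_congr rfl fun x hx => ?_
    rw [hwP x hx]
  have h6 : ∑ x ∈ P, B x * (f x : ℝ) ≤ ∑ x ∈ P, (f x : ℝ) - (1 - ρ) * (f z : ℝ) := by
    have h7 : ∑ x ∈ P, (1 - B x) * (f x : ℝ) ≥ (1 - ρ) * (f z : ℝ) := by
      have h8 : (1 - B z) * (f z : ℝ) ≤ ∑ x ∈ P, (1 - B x) * (f x : ℝ) :=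
        Finset.single_le_sum (f := fun x => (1 - B x) * (f x : ℝ))
          (fun x _ => mul_nonneg (by linarith [hB x]) (NNReal.coe_nonneg _)) hzP
      have h9 : B z = ρ := by rw [← hzz]; exact hBa z
      rw [h9] at h8
      exact h8
    have h10 : ∑ x ∈ P, (1 - B x) * (f x : ℝ) =
        ∑ x ∈ P, (f x : ℝ) - ∑ x ∈ P, B x * (f x : ℝ) := by
      rw [← Finset.sum_sub_distrib]
      refine Finset.sum_congr rfl fun x _ => ?_
      ring
    linarith
  have h11 : ∑ x ∈ P, (f x : ℝ) - (1 - ρ) * (f z : ℝ) ≤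
      (1 - (1 - ρ) / (K * 2 ^ r)) * ∑ x ∈ P, (f x : ℝ) := by
    have h12 : (1 - ρ) / (K * 2 ^ r) * ∑ x ∈ P, (f x : ℝ) ≤ (1 - ρ) * (f z : ℝ) := by
      rw [div_mul_eq_mul_div, div_le_iff₀ hKr]
      have h13 := mul_le_mul_of_nonneg_left hmass (by linarith : (0 : ℝ) ≤ 1 - ρ)
      linarith
    linarith
  rw [h4, h5]
  have h14 := mul_le_mul_of_nonneg_left (h6.trans h11) (hw0 z)
  linarith

theorem thm_Conc : St_Conc := by
  classical
  intro V _ _ f U ε K r J hJ hK ρ hρ0 hρ1 x₀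
  have hK0 : (1 : ℝ) ≤ K := by exact_mod_cast hK
  have hKr : (1 : ℝ) ≤ (K : ℝ) * 2 ^ r := by
    have h1 : (1 : ℝ) ≤ 2 ^ r := one_le_pow₀ (by norm_num)
    nlinarith
  have hθ : 0 ≤ 1 - (1 - ρ) / ((K : ℝ) * 2 ^ r) := by
    rw [sub_nonneg, div_le_one (by linarith)]
    linarith
  induction J using Finset.induction_on with
  | empty =>
    have h1 : ∀ x : V → Bool, nact (∅ : Finset (Gad V)) x = 0 := by
      intro x
      unfold nact
      simp
    simp [h1]
  | insert g J hg ih =>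
    have ih' := ih (Conc_sub hJ (Finset.subset_insert g J))
    have hgI : g ∈ insert g J := Finset.mem_insert_self g J
    have hdisj : ∀ h ∈ J, Disjoint g.R h.R := fun h hh =>
      hJ.disj g hgI h (Finset.mem_insert_of_mem hh) (fun e => hg (e ▸ hh))
    have hstep := Conc_step f U K r g (hJ.RU g hgI) (hJ.Rr g hgI) (hJ.ratio g hgI) hK ρ hρ1 x₀
      (fun x => ρ ^ nact J x) (fun x => pow_nonneg hρ0 _)
      (fun x => by rw [Conc_nact_rst J g hdisj x])
      (fun x => if Act g x then ρ else 1)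
      (fun x => by
        split_ifs
        · exact hρ1
        · exact le_refl _)
      (fun x => by rw [if_pos (Conc_rst_act g x)])
    have heq : ∑ x ∈ univ.filter (fun x : V → Bool => ∀ v ∈ U, x v = x₀ v),
        ρ ^ nact (insert g J) x * (f x : ℝ) =
        ∑ x ∈ univ.filter (fun x : V → Bool => ∀ v ∈ U, x v = x₀ v),
          ρ ^ nact J x * (if Act g x then ρ else 1) * (f x : ℝ) := by
      refine Finset.sum_congr rfl fun x _ => ?_
      rw [Conc_nact_insert J g hg x, pow_add]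
      congr 2
      split_ifs <;> simp
    rw [heq, Finset.card_insert_of_notMem hg, pow_succ]
    refine hstep.trans ?_
    have h2 := mul_le_mul_of_nonneg_left ih' hθ
    refine h2.trans (le_of_eq ?_)
    ring

end Pool.Agent.EB
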