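import Pool.Agent.EB.Sel1

/-!
# The number of models on a cube
-/

namespace Pool.Agent.EB

open Finset

variable {V : Type} [Fintype V] [DecidableEq V]

/-- the models of the monotone 2-CNF `E` on the cube given by `F`, `r` -/
def Cube_mod (E : Finset (Sym2 V)) (F : Finset V) (r : V → Bool) : Finset (V → Bool) :=
  univ.filter fun x => (∀ e ∈ E, ∃ v ∈ e, x v = true) ∧ ∀ v ∈ F, x v = r v

theorem Cube_mem {E : Finset (Sym2 V)} {F : Finset V} {r : V → Bool} {x : V → Bool} :
    x ∈ Cube_mod E F r ↔ (∀ e ∈ E, ∃ v ∈ e, x v = true) ∧ ∀ v ∈ F, x v = r v := by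
  rw [Cube_mod, mem_filter]
  simp

theorem Cube_step (E : Finset (Sym2 V)) (hloop : ∀ e ∈ E, ¬ e.IsDiag) (F : Finset V)
    (r : V → Bool) (v : V) (D : ℕ) (hD : (nb E v).card ≤ D)
    (hv : Disjoint (insert v (nb E v)) F) :
    (Cube_mod E F r).card ≤ 2 ^ (D + 1) * ((Cube_mod E F r).filter fun x => x v ≠ r v).card := by
  classical
  set N := insert v (nb E v) with hN
  set f : (V → Bool) → (V → Bool) := fun x w => if w = v then !(r v) else
    if w ∈ nb E v then true else x w with hf
  have hvn : v ∉ nb E v := by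
    intro h
    have := (mem_filter.1 h).2
    exact hloop _ this (by simp)
  have hNc : N.card ≤ D + 1 := by
    rw [hN, card_insert_of_notMem hvn]
    omega
  apply card_le_mul_card_image_of_maps_to (f := f)
  · intro x hx
    rw [Cube_mod, mem_filter] at hx
    obtain ⟨-, hx1, hx2⟩ := hx
    rw [mem_filter, Cube_mod, mem_filter]
    refine ⟨⟨mem_univ _, ?_, ?_⟩, ?_⟩
    · intro e he
      by_cases hve : v ∈ e
      · obtain ⟨w, rfl⟩ := Sym2.mem_iff_exists.1 hve
        have hw : w ∈ nb E v := mem_filter.2 ⟨mem_univ _, he⟩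
        have hwv : w ≠ v := fun h => hvn (h ▸ hw)
        refine ⟨w, Sym2.mem_mk_right _ _, ?_⟩
        rw [hf]
        simp only
        rw [if_neg hwv, if_pos hw]
      · obtain ⟨w, hw, hxw⟩ := hx1 e he
        refine ⟨w, hw, ?_⟩
        have hwv : w ≠ v := fun h => hve (h ▸ hw)
        rw [hf]
        simp only
        rw [if_neg hwv, hxw]
        simp
    · intro u hu
      have hu1 : u ∉ N := fun h => (Finset.disjoint_left.1 hv h) hu
      rw [hN, mem_insert] at hu1
      push Not at hu1
      rw [hf]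
      simp only
      rw [if_neg hu1.1, if_neg hu1.2]
      exact hx2 u hu
    · rw [hf]
      simp
  · intro b hb
    have hinj : ((Cube_mod E F r).filter fun x => f x = b).card ≤ N.powerset.card := by
      apply card_le_card_of_injOn (fun x => N.filter fun w => x w = true)
      · intro x hx
        rw [mem_coe, mem_powerset]
        exact filter_subset _ _
      · intro x hx y hy hxy
        have hx' := (mem_filter.1 hx).2
        have hy' := (mem_filter.1 hy).2
        funext w
        by_cases hw : w ∈ N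
        · have h := congrArg (fun s => w ∈ s) hxy
          simp only [mem_filter, hw, true_and, eq_iff_iff] at h
          cases hxw : x w <;> cases hyw : y w <;> simp_all
        · have h1 := congrFun hx' w
          have h2 := congrFun hy' w
          rw [hN, mem_insert] at hw
          push Not at hw
          rw [hf] at h1 h2
          simp only at h1 h2
          rw [if_neg hw.1, if_neg hw.2] at h1 h2
          rw [h1, h2]
    rw [card_powerset] at hinj
    exact hinj.trans (Nat.pow_le_pow_right (by norm_num) hNc)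

theorem Cube_ins (E : Finset (Sym2 V)) (hloop : ∀ e ∈ E, ¬ e.IsDiag) (F : Finset V)
    (r : V → Bool) (v : V) (D : ℕ) (hD : (nb E v).card ≤ D)
    (hv : Disjoint (insert v (nb E v)) F) :
    2 ^ (D + 1) * (Cube_mod E (insert v F) r).card ≤
      (2 ^ (D + 1) - 1) * (Cube_mod E F r).card := by
  classical
  have h := Cube_step E hloop F r v D hD hv
  have h1 : Cube_mod E (insert v F) r = (Cube_mod E F r).filter fun x => x v = r v := by
    ext x
    simp only [Cube_mod, mem_filter, mem_univ, true_and, mem_insert, forall_eq_or_imp]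
    tauto
  have h2 := card_filter_add_card_filter_not (s := Cube_mod E F r) (fun x => x v = r v)
  rw [h1]
  set a := ((Cube_mod E F r).filter fun x => x v = r v).card
  set b := ((Cube_mod E F r).filter fun x => ¬ x v = r v).card
  have h3 : 1 ≤ 2 ^ (D + 1) := Nat.one_le_two_pow
  obtain ⟨q, hq⟩ : ∃ q, 2 ^ (D + 1) = q + 1 := ⟨2 ^ (D + 1) - 1, by omega⟩
  rw [hq] at h ⊢
  rw [Nat.add_sub_cancel]
  rw [← h2] at h ⊢
  change a + b ≤ (q + 1) * b at h
  nlinarith

theorem Cube_set (E : Finset (Sym2 V)) (hloop : ∀ e ∈ E, ¬ e.IsDiag) (r : V → Bool) (D : ℕ)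
    (hD : ∀ v, (nb E v).card ≤ D) (J : Finset V)
    (hJ : ∀ u ∈ J, ∀ v ∈ J, u ≠ v → v ∉ insert u (nb E u)) :
    (2 ^ (D + 1)) ^ J.card * (Cube_mod E J r).card ≤
      (2 ^ (D + 1) - 1) ^ J.card * (Cube_mod E ∅ r).card := by
  classical
  induction J using Finset.induction_on with
  | empty => simp
  | insert v J hv ih =>
    have ih' := ih fun u hu w hw => hJ u (mem_insert_of_mem hu) w (mem_insert_of_mem hw)
    have h1 := Cube_ins E hloop J r v D (hD v) (by
      rw [Finset.disjoint_left]
      intro w hw hwJ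
      exact hJ v (mem_insert_self _ _) w (mem_insert_of_mem hwJ) (fun h => hv (h ▸ hwJ)) hw)
    rw [card_insert_of_notMem hv]
    calc (2 ^ (D + 1)) ^ (J.card + 1) * (Cube_mod E (insert v J) r).card
        = (2 ^ (D + 1)) ^ J.card * (2 ^ (D + 1) * (Cube_mod E (insert v J) r).card) := by ring
      _ ≤ (2 ^ (D + 1)) ^ J.card * ((2 ^ (D + 1) - 1) * (Cube_mod E J r).card) :=
          Nat.mul_le_mul_left _ h1
      _ = (2 ^ (D + 1) - 1) * ((2 ^ (D + 1)) ^ J.card * (Cube_mod E J r).card) := by ring
      _ ≤ (2 ^ (D + 1) - 1) * ((2 ^ (D + 1) - 1) ^ J.card * (Cube_mod E ∅ r).card) :=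
          Nat.mul_le_mul_left _ ih'
      _ = _ := by ring

/-- a cube of codimension `|F|` contains an exponentially small part of the models -/
theorem Cube_main (E : Finset (Sym2 V)) (hloop : ∀ e ∈ E, ¬ e.IsDiag) (F : Finset V)
    (r : V → Bool) (D : ℕ) (hD : ∀ v, (nb E v).card ≤ D) :
    ∃ m, F.card ≤ (D + 1) * m ∧ (2 ^ (D + 1)) ^ m * (Cube_mod E F r).card ≤
      (2 ^ (D + 1) - 1) ^ m * (Cube_mod E ∅ r).card := by
  classical
  obtain ⟨J, hJF, hJ, hc⟩ := Sel1_greedy F (fun u v => v ∈ insert u (nb E u)) (by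
    intro a b h
    rw [mem_insert] at h ⊢
    rcases h with h | h
    · exact Or.inl h.symm
    · right
      have := (mem_filter.1 h).2
      exact mem_filter.2 ⟨mem_univ _, by rw [Sym2.eq_swap]; exact this⟩) (D + 1)
      (fun u => insert u (nb E u)) (fun u _ => (card_insert_le _ _).trans
        (Nat.add_le_add_right (hD u) 1)) (fun u _ v _ h => h) (fun u _ => mem_insert_self _ _)
  refine ⟨J.card, hc, ?_⟩
  have h1 : (Cube_mod E F r).card ≤ (Cube_mod E J r).card := by
    apply card_le_card
    intro x hx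
    rw [Cube_mod, mem_filter] at hx ⊢
    exact ⟨hx.1, hx.2.1, fun v hv => hx.2.2 v (hJF hv)⟩
  exact (Nat.mul_le_mul_left _ h1).trans (Cube_set E hloop r D hD J hJ)

end Pool.Agent.EB
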