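import Pool.Agent.EB.Model

/-!
# Gadgets and pseudorandom graphs
-/

namespace Pool.Agent.EB

open Finset Pool.Agent.WD
open scoped NNReal

variable {V : Type} [Fintype V] [DecidableEq V]

/-! ### Gadgets -/

/-- a gadget: two core variables, a region, and the variables which are `false` if it is active -/
structure Gad (V : Type) where
  p : V
  q : V
  R : Finset V
  C : Finset V

/-- the gadget is active at `x` -/
def Act (g : Gad V) (x : V → Bool) : Prop :=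
  ∀ v ∈ g.R, v ≠ g.p → v ≠ g.q → (x v = false ↔ v ∈ g.C)

/-- change `x` on the region to the canonical active values -/
def rst (g : Gad V) (x : V → Bool) (v : V) : Bool :=
  if v ∈ g.R then (if v ∈ g.C then false else true) else x v

/-- the values of the core variables are set to `a`, `b` -/
def upd (g : Gad V) (x : V → Bool) (a b : Bool) : V → Bool :=
  Function.update (Function.update x g.p a) g.q b

/-- the two-by-two matrix `(a, b; b, b)` with a gap -/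
def Gap1 (ε : ℝ≥0) (M : Bool → Bool → ℝ≥0) : Prop :=
  M false true = M true false ∧ M false false = M true false ∧
    (1 + ε) * M true false ≤ M true true ∧ M true true ≤ 2 * M true false

/-- the two-by-two matrix `(a, b; c, 0)` with a gap -/
def Gap2 (ε : ℝ≥0) (M : Bool → Bool → ℝ≥0) : Prop :=
  M false false = 0 ∧ ε * M true true ≤ M false true ∧ ε * M true true ≤ M true false ∧
    M false true ≤ M true true ∧ M true false ≤ M true true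

/-- A family `J` of gadgets for the function `f`, away from the set `U` of fixed variables. -/
structure Fam (f : (V → Bool) → ℝ≥0) (U : Finset V) (ε K : ℝ≥0) (r : ℕ) (J : Finset (Gad V)) :
    Prop where
  pR : ∀ g ∈ J, g.p ∈ g.R
  qR : ∀ g ∈ J, g.q ∈ g.R
  pq : ∀ g ∈ J, g.p ≠ g.q
  CR : ∀ g ∈ J, g.C ⊆ g.R
  pC : ∀ g ∈ J, g.p ∉ g.C
  qC : ∀ g ∈ J, g.q ∉ g.C
  RU : ∀ g ∈ J, Disjoint g.R U
  Rr : ∀ g ∈ J, g.R.card ≤ r
  disj : ∀ g ∈ J, ∀ h ∈ J, g ≠ h → Disjoint g.R h.R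
  gap : ∀ g ∈ J, (∀ x, Act g x → Gap1 ε fun a b => f (upd g x a b)) ∨
    ∀ x, Act g x → Gap2 ε fun a b => f (upd g x a b)
  ratio : ∀ g ∈ J, ∀ x, f x ≤ K * f (rst g x)

open Classical in
/-- the number of active gadgets -/
noncomputable def nact (J : Finset (Gad V)) (x : V → Bool) : ℕ := (J.filter fun g => Act g x).card

open Classical in
/-- the core variables -/
noncomputable def cores (J : Finset (Gad V)) : Finset V := univ.filter fun v => ∃ g ∈ J, v = g.p ∨ v = g.q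

/-! ### Graphs -/

/-- neighbours -/
def nb (E : Finset (Sym2 V)) (v : V) : Finset V := univ.filter fun w => s(v, w) ∈ E

/-- the properties of a gadget for the clauses `A` of the formula `E` and the eliminated
variables `Y` -/
structure IsGad (E A : Finset (Sym2 V)) (Y : Finset V) (D : ℕ) (g : Gad V) : Prop where
  pR : g.p ∈ g.R
  qR : g.q ∈ g.R
  pq : g.p ≠ g.q
  CR : g.C ⊆ g.R
  pC : g.p ∉ g.C
  qC : g.q ∉ g.C
  RY : Disjoint g.R Y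
  Cc : g.C.card ≤ 2 * D
  Rc : g.R.card ≤ (D + 1) * (2 * D + 3)
  near : ∀ u v, (u ∈ g.C ∨ u = g.p ∨ u = g.q) → v ∉ Y → s(u, v) ∈ E → v ∈ g.R
  typ : (∃ e ∈ Y, s(e, g.p) ∈ E ∧ s(e, g.q) ∈ E ∧ (∀ v, v ∉ Y → s(e, v) ∈ E → v ∈ g.R) ∧
      (∀ u ∈ g.C, s(e, u) ∉ E) ∧
      (∀ u v, (u ∈ g.C ∨ u = g.p ∨ u = g.q) → (v ∈ g.C ∨ v = g.p ∨ v = g.q) → s(u, v) ∉ E) ∧
      ∀ e' ∈ Y, e' ≠ e → (s(e', g.p) ∈ E ∨ s(e', g.q) ∈ E) → ∃ u ∈ g.C, s(e', u) ∈ E) ∨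
    (g.C = ∅ ∧ s(g.p, g.q) ∈ A)

/-- A graph with vertex set `Fin n` with the required pseudorandom properties; `k` is the parameter
(`ε = 1/k`). The average degree is about `10 ^ 10 * k ^ 2`. -/
structure PG (k n D : ℕ) (E : Finset (Sym2 (Fin n))) : Prop where
  loop : ∀ e ∈ E, ¬ e.IsDiag
  deg : ∀ v, (nb E v).card ≤ D
  c3 : ∀ a b c, ¬ (s(a, b) ∈ E ∧ s(b, c) ∈ E ∧ s(c, a) ∈ E)
  c4 : ∀ a b c d, a ≠ c → b ≠ d → ¬ (s(a, b) ∈ E ∧ s(b, c) ∈ E ∧ s(c, d) ∈ E ∧ s(d, a) ∈ E)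
  c5 : ∀ a b c d e, ¬ (s(a, b) ∈ E ∧ s(b, c) ∈ E ∧ s(c, d) ∈ E ∧ s(d, e) ∈ E ∧ s(e, a) ∈ E)
  c7 : ∀ a b c d e f g, ¬ (s(a, b) ∈ E ∧ s(b, c) ∈ E ∧ s(c, d) ∈ E ∧ s(d, e) ∈ E ∧ s(e, f) ∈ E ∧
    s(f, g) ∈ E ∧ s(g, a) ∈ E)
  big : 10 ^ 9 * k ^ 2 * n ≤ E.card
  G1 : ∀ S T : Finset (Fin n), Disjoint S T → n ≤ 20000 * k * S.card → n ≤ 20000 * k * T.card →
    ∃ u ∈ S, ∃ v ∈ T, s(u, v) ∈ E
  G2 : ∀ S : Finset (Fin n), 1000 * k * S.card ≤ n →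
    (E.filter fun e => ∀ v ∈ e, v ∈ S).card ≤ 40000 * n
  G3 : ∀ S : Finset (Fin n), 20000 * k * S.card ≤ 3 * n →
    (E.filter fun e => ∃ v ∈ e, v ∈ S).card ≤ 5 * 10 ^ 8 * k * n

/-- a simple cycle of length `l` -/
def Cy {n : ℕ} (l : ℕ) [NeZero l] (E : Finset (Sym2 (Fin n))) (c : Fin l → Fin n) : Prop :=
  Function.Injective c ∧ ∀ i, s(c i, c (i + 1)) ∈ E

/-- the edge `e` lies in a simple cycle of length 3, 4, 5 or 7 -/
def Short {n : ℕ} (E : Finset (Sym2 (Fin n))) (e : Sym2 (Fin n)) : Prop :=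
  (∃ c : Fin 3 → Fin n, Cy 3 E c ∧ e = s(c 0, c 1)) ∨
  (∃ c : Fin 4 → Fin n, Cy 4 E c ∧ e = s(c 0, c 1)) ∨
  (∃ c : Fin 5 → Fin n, Cy 5 E c ∧ e = s(c 0, c 1)) ∨
  (∃ c : Fin 7 → Fin n, Cy 7 E c ∧ e = s(c 0, c 1))

open Classical in
/-- the typical properties of the random graph `G(n, d/n)`, `d = 10 ^ 10 * k ^ 2` -/
structure RG (k n : ℕ) (E : Finset (Sym2 (Fin n))) : Prop where
  loop : ∀ e ∈ E, ¬ e.IsDiag
  tot : 10 ^ 10 * k ^ 2 * n ≤ 8 * E.card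
  tot2 : E.card ≤ 2 * 10 ^ 10 * k ^ 2 * n
  R1 : ∀ S T : Finset (Fin n), Disjoint S T → n ≤ 20000 * k * S.card → n ≤ 20000 * k * T.card →
    4 * n ≤ (E.filter fun e => ∃ u ∈ S, ∃ v ∈ T, e = s(u, v)).card
  R2 : ∀ S : Finset (Fin n), 1000 * k * S.card ≤ n →
    (E.filter fun e => ∀ v ∈ e, v ∈ S).card ≤ 40000 * n
  R3 : ∀ S : Finset (Fin n), 20000 * k * S.card ≤ 3 * n →
    (E.filter fun e => ∃ v ∈ e, v ∈ S).card ≤ 5 * 10 ^ 8 * k * n
  R4 : ∀ S : Finset (Fin n), 4 * 10 ^ 10 * k ^ 2 * S.card ≤ n →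
    (E.filter fun e => ∃ v ∈ e, v ∈ S).card ≤ 2 * n
  R5 : (E.filter fun e => Short E e).card ≤ n

end Pool.Agent.EB
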