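import Pool.Agent.EB.Main

/-!
# MP_4ed1f9_lc: branching, caching, joins and early elimination do not help to count

Let `E` be a monotone 2-CNF: a set of clauses `x_u ∨ x_v`. For a set `A` of clauses and a set `Y` of
variables, all of whose clauses are in `A` (`Closed E A Y`), the partial count `part A Y x` is the
number of assignments `y` which agree with `x` outside `Y` and satisfy all clauses in `A`. The
partial counts, restricted to the cubes of the assignments with given values of some variables, are
the intermediate results of all algorithms for `#SAT` which combine

* branching (conditioning, slicing), caching of subproblems and decomposition into components,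
* joins of the results for sets of clauses and early elimination of variables by summation, once
  all clauses of the variables have been processed: variable (bucket) elimination in any order, join
  trees, contraction of the tensor network of the formula in any order.

The theorem: for all `0 < ε < 1` and `t` there are monotone 2-CNFs with bounded degree such that

1. the partial count for `A`, `Y` is hard (`Hard c A Y`) whenever at least `ε |E|` clauses have been
   processed and at most `(1 - ε) |E|` of them, or at most `(1 - ε) n` variables have been
   eliminated;
2. each run (`Run`) of an algorithm as above which joins at most `t`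
   results at a time has at least `2 ^ (c n)` subproblems or a subproblem the result of which is
   hard on its cube, even if all results for at most `(1 - ε) |E| / t` clauses are free. (For
   `t = 2` all clauses are the join of two halves: the threshold is optimal.)
3. In contrast, the supports of the partial counts (the results of the same algorithms for SAT)
   are trivial.

Hard (`HardOn`): all programs (definition in
`Pool/Agent/WE/Model.lean`: they extend monotone circuits, `(d-)DNNF`, traces of DPLL algorithms with
caching, tree tensor networks with cancellation, and have all tame functions as leaves) which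
compute the partial count approximately, from below on average, on the cube have size `2 ^ (c n)`.
The definitions are in `Pool/Agent/EB/Model.lean`.
-/

namespace Pool.Agent.Results.MP_4ed1f9_lc.EarlyElimination

open Finset Pool.Agent.WD Pool.Agent.EB
open scoped NNReal

theorem result (ε : ℝ) (hε0 : 0 < ε) (hε1 : ε < 1) (t : ℕ) (ht : 1 ≤ t) :
    ∃ c : ℝ, 0 < c ∧ ∃ C : ℕ, ∀ n : ℕ, ∃ E : Finset (Sym2 (Fin n)),
      (∀ e ∈ E, ¬ e.IsDiag) ∧ (∀ v, (E.filter fun e => v ∈ e).card ≤ C) ∧
      (∀ (A : Finset (Sym2 (Fin n))) (Y : Finset (Fin n)), Closed E A Y →
        ε * E.card ≤ A.card →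
        ((A.card : ℝ) ≤ (1 - ε) * E.card ∨ (Y.card : ℝ) ≤ (1 - ε) * n) → Hard c A Y) ∧
      (∀ (N : ℕ) (A : Fin N → Finset (Sym2 (Fin n))) (Y F : Fin N → Finset (Fin n))
        (r : Fin N → Fin n → Bool), Run E t ((1 - ε) * E.card) A Y F r →
        (∃ i, A i = E ∧ F i = ∅) →
        (2 : ℝ) ^ (c * n) ≤ N ∨ ∃ i, HardOn c (A i) (Y i) (F i) (r i)) ∧
      ∀ (A : Finset (Sym2 (Fin n))) (Y : Finset (Fin n)) (x : Fin n → Bool),
        part A Y x ≠ 0 ↔ ∀ e ∈ A, ∃ v ∈ e, v ∈ Y ∨ x v = true := by
  obtain ⟨c, hc, C, H⟩ := Main_real ε hε0 hε1 t ht
  refine ⟨c, hc, C, fun n => ?_⟩
  obtain ⟨E, h1, h2, h3, h4⟩ := H n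
  exact ⟨E, h1, h2, h3, h4, Main_supp⟩

end Pool.Agent.Results.MP_4ed1f9_lc.EarlyElimination
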