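import Pool.Agent.EB.St
import Pool.Agent.WE.Hard3

/-!
# The main theorem from the modules
-/

namespace Pool.Agent.EB

open Finset Pool.Agent.WD
open scoped NNReal

/-- the loss for one term and one family of gadgets -/
theorem Fin_loss (hPar : St_Par) (hConc : St_Conc) (hB1 : St_B1) (hB2 : St_B2) (D : ℕ) :
    ∃ η : ℝ, 0 < η ∧ η < 1 ∧ ∀ (V : Type) [Fintype V] [DecidableEq V] (E A : Finset (Sym2 V))
      (Y F : Finset V), A ⊆ E → (∀ e ∈ E, ¬ e.IsDiag) → (∀ v, (nb E v).card ≤ D) →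
      (∀ e ∈ E, ∀ v ∈ Y, v ∈ e → e ∈ A) → ∀ J : Finset (Gad V),
      (∀ g ∈ J, IsGad E A Y D g) → (∀ g ∈ J, ∀ h ∈ J, g ≠ h → Disjoint g.R h.R) →
      (∀ g ∈ J, Disjoint g.R F) → ∀ (T : (V → Bool) → ℝ≥0) (κ : ℝ≥0) (x₀ : V → Bool),
      (∀ x, (∀ v ∈ Y ∪ F, x v = x₀ v) → T x ≤ κ * part A Y x) → ∀ (S : Finset V) (W : ℕ),
      (Broken T S ∨ RankLe W T S) → (∀ g ∈ J, g.p ∈ S ∧ g.q ∉ S) →
      ∑ x ∈ univ.filter (fun x : V → Bool => ∀ v ∈ Y ∪ F, x v = x₀ v), (T x : ℝ) ≤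
        κ * (W + 1) * (1 - η) ^ J.card *
          ∑ x ∈ univ.filter (fun x : V → Bool => ∀ v ∈ Y ∪ F, x v = x₀ v), (part A Y x : ℝ) := by
  set ε : ℝ≥0 := ((2 : ℝ≥0) ^ D)⁻¹ with hε
  set K : ℝ≥0 := 2 ^ (2 * D ^ 2) with hK
  set r : ℕ := (D + 1) * (2 * D + 3) with hr
  have hε0 : 0 < ε := by positivity
  have hε1 : ε ≤ 1 := by
    rw [hε]
    exact inv_le_one_of_one_le₀ (one_le_pow₀ (by norm_num))
  have hK1 : 1 ≤ K := by rw [hK]; exact one_le_pow₀ (by norm_num)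
  have hK1' : (1 : ℝ) ≤ K := by exact_mod_cast hK1
  have hr3 : 1 ≤ r := by rw [hr]; nlinarith
  obtain ⟨ρ1, h10, h11, H1⟩ := hB1 ε hε0 hε1
  obtain ⟨ρ2, h20, h21, H2⟩ := hB2 ε hε0 hε1
  have hKr : (2 : ℝ) ≤ K * 2 ^ r := by
    have h2 : (2 : ℝ) ≤ 2 ^ r := by
      calc (2 : ℝ) = 2 ^ 1 := by norm_num
        _ ≤ 2 ^ r := pow_le_pow_right₀ (by norm_num) hr3
    nlinarith
  have hKr0 : (0 : ℝ) < K * 2 ^ r := by linarith
  refine ⟨min ((1 - ρ1) / (K * 2 ^ r)) ((1 - ρ2) / (K * 2 ^ r)), ?_, ?_, ?_⟩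
  · exact lt_min (div_pos (by linarith) hKr0) (div_pos (by linarith) hKr0)
  · refine (min_le_left _ _).trans_lt ?_
    rw [div_lt_one hKr0]
    linarith
  intro V _ _ E A Y F hAE hloop hdeg hclo J hJ hdis hJF T κ x₀ hT S W hTS hpq
  have hFam : Fam (part A Y) (Y ∪ F) ε K r J :=
    { pR := fun g hg => (hJ g hg).pR
      qR := fun g hg => (hJ g hg).qR
      pq := fun g hg => (hJ g hg).pq
      CR := fun g hg => (hJ g hg).CR
      pC := fun g hg => (hJ g hg).pC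
      qC := fun g hg => (hJ g hg).qC
      RU := fun g hg => by
        rw [disjoint_union_right]
        exact ⟨(hJ g hg).RY, hJF g hg⟩
      Rr := fun g hg => (hJ g hg).Rc
      disj := hdis
      gap := fun g hg => (hPar V E A Y D hAE hloop hdeg hclo g (hJ g hg)).1
      ratio := fun g hg => (hPar V E A Y D hAE hloop hdeg hclo g (hJ g hg)).2 }
  set Q := univ.filter (fun x : V → Bool => ∀ v ∈ Y ∪ F, x v = x₀ v) with hQ
  have hSum0 : 0 ≤ ∑ x ∈ Q, (part A Y x : ℝ) := sum_nonneg fun x _ => NNReal.coe_nonneg _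
  have key : ∀ ρ : ℝ, 0 ≤ ρ → ρ < 1 → min ((1 - ρ1) / (K * 2 ^ r)) ((1 - ρ2) / (K * 2 ^ r)) ≤
      (1 - ρ) / (K * 2 ^ r) → ∀ w : ℝ, 0 ≤ w → w ≤ κ * (W + 1) →
      ∑ x ∈ Q, (T x : ℝ) ≤ w * ∑ x ∈ Q, ρ ^ nact J x * (part A Y x : ℝ) →
      ∑ x ∈ Q, (T x : ℝ) ≤ κ * (W + 1) *
        (1 - min ((1 - ρ1) / (K * 2 ^ r)) ((1 - ρ2) / (K * 2 ^ r))) ^ J.card *
          ∑ x ∈ Q, (part A Y x : ℝ) := by
    intro ρ hρ0 hρ1 hmin w hw0 hw h
    have hc := hConc V (part A Y) (Y ∪ F) ε K r J hFam hK1 ρ hρ0 hρ1.le x₀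
    have h5 : 0 ≤ 1 - (1 - ρ) / (K * 2 ^ r) := by
      rw [sub_nonneg, div_le_one hKr0]
      linarith
    have h6 : (1 - (1 - ρ) / (K * 2 ^ r)) ^ J.card ≤
        (1 - min ((1 - ρ1) / (K * 2 ^ r)) ((1 - ρ2) / (K * 2 ^ r))) ^ J.card :=
      pow_le_pow_left₀ h5 (by linarith) _
    have h7 : 0 ≤ (1 - (1 - ρ) / (K * 2 ^ r)) ^ J.card := pow_nonneg h5 _
    calc ∑ x ∈ Q, (T x : ℝ) ≤ w * ∑ x ∈ Q, ρ ^ nact J x * (part A Y x : ℝ) := h
      _ ≤ w * ((1 - (1 - ρ) / (K * 2 ^ r)) ^ J.card * ∑ x ∈ Q, (part A Y x : ℝ)) :=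
          mul_le_mul_of_nonneg_left hc hw0
      _ ≤ (κ * (W + 1)) * ((1 - min ((1 - ρ1) / (K * 2 ^ r)) ((1 - ρ2) / (K * 2 ^ r))) ^ J.card *
            ∑ x ∈ Q, (part A Y x : ℝ)) := by
          apply mul_le_mul hw (mul_le_mul_of_nonneg_right h6 hSum0)
            (mul_nonneg h7 hSum0) (hw0.trans hw)
      _ = _ := by ring
  have hκ0 : (0 : ℝ) ≤ κ := NNReal.coe_nonneg _
  have hW0 : (0 : ℝ) ≤ W := Nat.cast_nonneg W
  rcases hTS with hB | hR
  · apply key ρ1 h10 h11 (min_le_left _ _) κ hκ0 (by nlinarith)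
    exact H1 V (part A Y) (Y ∪ F) K r J hFam T κ x₀ hT
      fun g hg => hB g.p (hpq g hg).1 g.q (hpq g hg).2
  · apply key ρ2 h20 h21 (min_le_right _ _) (κ * W) (by positivity) (by nlinarith)
    exact H2 V (part A Y) (Y ∪ F) K r J hFam T κ x₀ hT S W hR hpq

/-- remove the gadgets which meet `F` -/
theorem Fin_rem {V : Type} [Fintype V] [DecidableEq V] (J : Finset (Gad V)) (F : Finset V)
    (hdis : ∀ g ∈ J, ∀ h ∈ J, g ≠ h → Disjoint g.R h.R) :
    ∃ J' ⊆ J, (∀ g ∈ J', Disjoint g.R F) ∧ J.card ≤ J'.card + F.card := by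
  classical
  refine ⟨J.filter fun g => Disjoint g.R F, filter_subset _ _, fun g hg => (mem_filter.1 hg).2, ?_⟩
  have h1 : (J.filter fun g => ¬ Disjoint g.R F).card ≤ F.card := by
    have h : ∀ g ∈ J.filter (fun g => ¬ Disjoint g.R F), ∃ v, v ∈ g.R ∧ v ∈ F := by
      intro g hg
      have := (mem_filter.1 hg).2
      rw [Finset.disjoint_left] at this
      push Not at this
      exact this
    rcases isEmpty_or_nonempty V with hV | hV
    · have : (J.filter fun g => ¬ Disjoint g.R F) = ∅ := by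
        rw [eq_empty_iff_forall_notMem]
        intro g hg
        obtain ⟨v, -, -⟩ := h g hg
        exact hV.false v
      rw [this]
      simp
    choose! c hc using h
    apply card_le_card_of_injOn c
    · intro g hg
      exact (hc g hg).2
    · intro g hg h hh hgh
      by_contra hne
      have := hdis g (mem_filter.1 hg).1 h (mem_filter.1 hh).1 hne
      rw [Finset.disjoint_left] at this
      exact this (hc g hg).1 (hgh ▸ (hc h hh).1)
  have h2 := card_filter_add_card_filter_not (s := J) (fun g => Disjoint g.R F)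
  omega

/-- gadgets for a balanced cut -/
theorem Fin_sel (hSel1 : St_Sel1) (hSel2 : St_Sel2) (hXp : St_Xp) (k D : ℕ) (hk : 1 ≤ k) :
    ∃ L : ℕ, 0 < L ∧ ∀ (n : ℕ) (E A : Finset (Sym2 (Fin n))) (Y : Finset (Fin n)), 0 < n →
      PG k n D E → A ⊆ E → (∀ e ∈ E, ∀ v ∈ Y, v ∈ e → e ∈ A) → E.card ≤ k * A.card →
      (E.card + k * A.card ≤ k * E.card ∨ n ≤ k * Yᶜ.card) →
      ∃ C : Finset (Fin n), n ≤ 1000 * k * C.card ∧ ∀ S : Finset (Fin n),
        C.card ≤ 3 * (S ∩ C).card → 3 * (S ∩ C).card ≤ 2 * C.card →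
        ∃ J : Finset (Gad (Fin n)), (∀ g ∈ J, IsGad E A Y D g) ∧
          (∀ g ∈ J, ∀ h ∈ J, g ≠ h → Disjoint g.R h.R) ∧ (∀ g ∈ J, g.p ∈ S ∧ g.q ∉ S) ∧
          n ≤ L * J.card := by
  classical
  obtain ⟨L1, H1⟩ := hSel1 k D hk
  obtain ⟨L2, H2⟩ := hSel2 D
  refine ⟨L1 + L2 + 1, by omega, ?_⟩
  intro n E A Y hn hG hAE hclo hA1 hA2
  -- the complement of `Y` is large
  have hXbig : n ≤ 1000 * k * Yᶜ.card := by
    rcases hA2 with hA2 | hA2
    swap
    · nlinarith [Nat.zero_le (k * Yᶜ.card)]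
    by_contra hcon
    push Not at hcon
    have h2 := hG.G2 Yᶜ hcon.le
    have h3 : E \ A ⊆ E.filter fun e => ∀ v ∈ e, v ∈ Yᶜ := by
      intro e he
      rw [mem_sdiff] at he
      rw [mem_filter]
      refine ⟨he.1, fun v hv => ?_⟩
      rw [mem_compl]
      intro hvY
      exact he.2 (hclo e he.1 v hvY hv)
    have h4 := card_le_card h3
    have h5 : (E \ A).card = E.card - A.card := card_sdiff_of_subset hAE
    have h6 := card_le_card hAE
    have h7 := hG.big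
    have h8 : E.card ≤ k * (E \ A).card := by
      rw [h5, Nat.mul_sub]
      omega
    have h9 : E.card ≤ k * (40000 * n) := h8.trans (Nat.mul_le_mul_left _ (h4.trans h2))
    have h10 : 10 ^ 9 * k ^ 2 * n ≤ k * (40000 * n) := h7.trans h9
    have h11 : k * n ≤ k ^ 2 * n := by nlinarith
    nlinarith [Nat.mul_pos (by omega : 0 < k) hn]
  by_cases hY : 3 * n ≤ 20000 * k * Y.card
  · refine ⟨Yᶜ, hXbig, ?_⟩
    intro S hS1 hS2
    have hd1 : Disjoint (S ∩ Yᶜ) (Yᶜ \ S) := by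
      rw [Finset.disjoint_left]
      intro v hv hv2
      exact (mem_sdiff.1 hv2).2 (mem_inter.1 hv).1
    have hd2 : Disjoint (S ∩ Yᶜ) Y := by
      rw [Finset.disjoint_left]
      intro v hv hv2
      exact (mem_compl.1 (mem_inter.1 hv).2) hv2
    have hd3 : Disjoint (Yᶜ \ S) Y := by
      rw [Finset.disjoint_left]
      intro v hv hv2
      exact (mem_compl.1 (mem_sdiff.1 hv).1) hv2
    have hc : (Yᶜ \ S).card + (S ∩ Yᶜ).card = Yᶜ.card := by
      rw [inter_comm]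
      exact card_sdiff_add_card_inter _ _
    have hP : n ≤ 3000 * k * (S ∩ Yᶜ).card := by nlinarith
    have hQ : n ≤ 3000 * k * (Yᶜ \ S).card := by
      have : Yᶜ.card ≤ 3 * (Yᶜ \ S).card := by omega
      nlinarith
    obtain ⟨J, hJ1, hJ2, hJ3⟩ := H1 n E A Y hG hAE hclo hY _ _ hd1 hd2 hd3 hP hQ
    refine ⟨J, fun g hg => (hJ1 g hg).1, hJ2, fun g hg => ?_, ?_⟩
    · exact ⟨(mem_inter.1 (hJ1 g hg).2.1).1, (mem_sdiff.1 (hJ1 g hg).2.2).2⟩
    · exact hJ3.trans (Nat.mul_le_mul_right _ (by omega))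
  · push Not at hY
    obtain ⟨X, hXY, hXn, hX⟩ := hXp k n D E A Y hk hG hAE hA1 hY
    refine ⟨X, hXn, ?_⟩
    intro S hS1 hS2
    have hX' := hX S hS1 hS2
    obtain ⟨J, hJ1, hJ2, hJ3⟩ := H2 (Fin n) E A Y hAE hG.loop hG.deg _ (by
      intro e he
      rw [mem_filter] at he
      obtain ⟨-, h1, h2, h3, h4, h5⟩ := he
      exact ⟨h5, Finset.disjoint_left.1 hXY h1, Finset.disjoint_left.1 hXY h2⟩ :
      ∀ e ∈ (univ.filter fun e : Fin n × Fin n =>
          e.1 ∈ X ∧ e.2 ∈ X ∧ e.1 ∈ S ∧ e.2 ∉ S ∧ s(e.1, e.2) ∈ A),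
        s(e.1, e.2) ∈ A ∧ e.1 ∉ Y ∧ e.2 ∉ Y)
    refine ⟨J, fun g hg => (hJ1 g hg).1, hJ2, fun g hg => ?_, ?_⟩
    · have := (mem_filter.1 (hJ1 g hg).2).2
      exact ⟨this.2.2.1, this.2.2.2.1⟩
    · exact (hX'.trans hJ3).trans (Nat.mul_le_mul_right _ (by omega))

/-- sums over the classes of assignments with the same values in a set -/
theorem Fin_classes {V : Type} [Fintype V] [DecidableEq V] (Y F : Finset V) (r : V → Bool)
    (g h : (V → Bool) → ℝ)
    (H : ∀ x₀ : V → Bool, (∀ v ∈ F, x₀ v = r v) →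
      ∑ x ∈ univ.filter (fun x : V → Bool => ∀ v ∈ Y ∪ F, x v = x₀ v), g x ≤
        ∑ x ∈ univ.filter (fun x : V → Bool => ∀ v ∈ Y ∪ F, x v = x₀ v), h x) :
    ∑ x ∈ univ.filter (fun x : V → Bool => ∀ v ∈ F, x v = r v), g x ≤
      ∑ x ∈ univ.filter (fun x : V → Bool => ∀ v ∈ F, x v = r v), h x := by
  have hm : ∀ x ∈ univ.filter (fun x : V → Bool => ∀ v ∈ F, x v = r v),
      (Y ∪ F).piecewise x (fun _ => false) ∈
        (univ.filter (fun x : V → Bool => ∀ v ∈ F, x v = r v)).image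
          fun x => (Y ∪ F).piecewise x (fun _ => false) := fun x hx => mem_image_of_mem _ hx
  rw [← sum_fiberwise_of_maps_to hm, ← sum_fiberwise_of_maps_to hm]
  apply sum_le_sum
  intro y hy
  obtain ⟨x₀, hx₀, rfl⟩ := mem_image.1 hy
  have hx0 := (mem_filter.1 hx₀).2
  have he : (univ.filter (fun x : V → Bool => ∀ v ∈ F, x v = r v)).filter
      (fun x => (Y ∪ F).piecewise x (fun _ => false) = (Y ∪ F).piecewise x₀ (fun _ => false)) =
      univ.filter (fun x : V → Bool => ∀ v ∈ Y ∪ F, x v = x₀ v) := by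
    ext x
    simp only [mem_filter, mem_univ, true_and]
    constructor
    · rintro ⟨-, h2⟩ v hv
      have := congrFun h2 v
      rwa [piecewise_eq_of_mem _ _ _ hv, piecewise_eq_of_mem _ _ _ hv] at this
    · intro h2
      refine ⟨fun v hv => (h2 v (mem_union_right _ hv)).trans (hx0 v hv), ?_⟩
      funext v
      by_cases hv : v ∈ Y ∪ F
      · rw [piecewise_eq_of_mem _ _ _ hv, piecewise_eq_of_mem _ _ _ hv, h2 v hv]
      · rw [piecewise_eq_of_notMem _ _ _ hv, piecewise_eq_of_notMem _ _ _ hv]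
  rw [he]
  exact H x₀ hx0

theorem Fin_main (hGra1 : St_Gra1) (hGra2 : St_Gra2) (hPar : St_Par) (hConc : St_Conc)
    (hB1 : St_B1) (hB2 : St_B2) (hSel1 : St_Sel1) (hSel2 : St_Sel2) (hXp : St_Xp)
    (hDec : St_Dec2) (k : ℕ) (hk : 1 ≤ k) :
    ∃ c : ℝ, 0 < c ∧ ∃ C n₀ : ℕ, ∀ n ≥ n₀, ∃ E : Finset (Sym2 (Fin n)),
      (∀ e ∈ E, ¬ e.IsDiag) ∧ (∀ v, (E.filter fun e => v ∈ e).card ≤ C) ∧
      ∀ (A : Finset (Sym2 (Fin n))) (Y : Finset (Fin n)), Closed E A Y → E.card ≤ k * A.card →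
        (E.card + k * A.card ≤ k * E.card ∨ n ≤ k * Yᶜ.card) → Hard c A Y := by
  classical
  obtain ⟨n1, hG1⟩ := hGra1 k hk
  obtain ⟨D, n2, hG2⟩ := hGra2 k hk
  obtain ⟨η, hη0, hη1, hLoss⟩ := Fin_loss hPar hConc hB1 hB2 D
  obtain ⟨L, hL, hSel⟩ := Fin_sel hSel1 hSel2 hXp k D hk
  have h0 : (0 : ℝ) < 1 - η := by linarith
  set l := Real.logb 2 (1 / (1 - η)) with hl
  have hl0 : 0 < l := Real.logb_pos (by norm_num) (by rw [lt_div_iff₀ h0]; linarith)
  have hL' : (0 : ℝ) < L := by exact_mod_cast hL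
  refine ⟨min (l / (8 * (2 * L : ℕ))) (1 / (2 * L)), lt_min (by positivity) (by positivity), D,
    max (max n1 n2) (2000 * k), ?_⟩
  intro n hn
  have hn1 : n1 ≤ n := (le_max_left _ _).trans ((le_max_left _ _).trans hn)
  have hn2 : n2 ≤ n := (le_max_right _ _).trans ((le_max_left _ _).trans hn)
  have hn3 : 2000 * k ≤ n := (le_max_right _ _).trans hn
  have hn0 : 0 < n := by nlinarith
  obtain ⟨E0, hE0⟩ := hG1 n hn1
  obtain ⟨E, -, hG⟩ := hG2 n hn2 E0 hE0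
  refine ⟨E, hG.loop, ?_, ?_⟩
  · intro v
    refine le_trans ?_ (hG.deg v)
    have hinj : ∀ e ∈ E.filter (fun e => v ∈ e), ∃ w, e = s(v, w) := by
      intro e he
      obtain ⟨w, hw⟩ := Sym2.mem_iff_exists.1 (mem_filter.1 he).2
      exact ⟨w, hw⟩
    have : Nonempty (Fin n) := ⟨v⟩
    choose! w hw using hinj
    apply card_le_card_of_injOn w
    · intro e he
      unfold nb
      rw [mem_coe, mem_filter]
      refine ⟨mem_univ _, ?_⟩
      rw [← hw e he]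
      exact (mem_filter.1 he).1
    · intro e he e' he' h
      rw [hw e he, hw e' he', h]
  rintro A Y ⟨hAE, hclo⟩ hA1 hA2 F r hF hr s W P κ hκ ⟨i, hi1, hi2⟩
  obtain ⟨C, hCn, hC⟩ := hSel n E A Y hn0 hG hAE hclo hA1 hA2
  have hκW : (0 : ℝ) ≤ κ * (W + 1) :=
    mul_nonneg (NNReal.coe_nonneg _) (add_nonneg (Nat.cast_nonneg _) zero_le_one)
  have hC2 : 2 ≤ C.card := by
    by_contra hcon
    push Not at hcon
    have : C.card ≤ 1 := by omega
    have : 1000 * k * C.card ≤ 1000 * k := by nlinarith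
    nlinarith
  obtain ⟨ι, _, T, S, hι, hle, hT⟩ := hDec Bool (Fin n) s W P i C hC2
  set Q := univ.filter (fun x : Fin n → Bool => ∀ v ∈ F, x v = r v) with hQ
  have hQF : ∀ x ∈ Q, ∀ v ∈ F, x v = r v := fun x hx => (mem_filter.1 hx).2
  set tot := ∑ x ∈ Q, (part A Y x : ℝ) with htot
  have htot0 : 0 < tot := by
    apply sum_pos' (fun x _ => NNReal.coe_nonneg _)
    refine ⟨r, mem_filter.2 ⟨mem_univ _, fun v _ => rfl⟩, ?_⟩
    exact_mod_cast pos_iff_ne_zero.2 hr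
  -- the number of gadgets
  set m := (n + (2 * L - 1)) / (2 * L) with hm
  have hmn : n ≤ (2 * L) * m := by
    rw [hm]
    have := Nat.div_add_mod (n + (2 * L - 1)) (2 * L)
    have h2 := Nat.mod_lt (n + (2 * L - 1)) (show 0 < 2 * L by omega)
    omega
  have hterm : ∀ t, ∑ x ∈ Q, (T t x : ℝ) ≤ κ * (W + 1) * (1 - η) ^ m * tot := by
    intro t
    obtain ⟨hTle, hb1, hb2, hTS⟩ := hT t
    obtain ⟨J, hJ1, hJ2, hJ3, hJ4⟩ := hC (S t) hb1 hb2
    obtain ⟨J', hJJ, hJF, hJc⟩ := Fin_rem J F hJ2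
    have hJm : m ≤ J'.card := by
      have e1 : (n : ℝ) ≤ L * J.card := by exact_mod_cast hJ4
      have e2 : (F.card : ℝ) ≤ 1 / (2 * L) * n :=
        hF.trans (mul_le_mul_of_nonneg_right (min_le_right _ _) (Nat.cast_nonneg _))
      have e3 : (J.card : ℝ) ≤ J'.card + F.card := by exact_mod_cast hJc
      have e4 : (n : ℝ) ≤ 2 * L * J'.card := by
        have : (L : ℝ) * F.card ≤ n / 2 := by
          calc (L : ℝ) * F.card ≤ L * (1 / (2 * L) * n) := mul_le_mul_of_nonneg_left e2 hL'.le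
            _ = n / 2 := by field_simp
        have : (n : ℝ) ≤ L * (J'.card + F.card) :=
          e1.trans (mul_le_mul_of_nonneg_left e3 hL'.le)
        linarith [mul_add (L : ℝ) (J'.card : ℝ) (F.card : ℝ)]
      have e5 : n ≤ 2 * L * J'.card := by exact_mod_cast e4
      rw [hm]
      rw [Nat.div_le_iff_le_mul_add_pred (by omega)]
      omega
    rw [htot, mul_sum]
    refine le_trans (le_of_eq (sum_congr ?_ fun _ _ => rfl)) ((Fin_classes Y F r
      (fun x => (T t x : ℝ)) (fun x => κ * (W + 1) * (1 - η) ^ m * (part A Y x : ℝ)) ?_).trans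
        (le_of_eq (sum_congr ?_ fun _ _ => rfl)))
    · ext x
      simp [hQ]
    swap
    · ext x
      simp [hQ]
    intro x₀ hx₀
    have hthis := hLoss (Fin n) E A Y F hAE hG.loop hG.deg hclo J' (fun g hg => hJ1 g (hJJ hg))
      (fun g hg h hh => hJ2 g (hJJ hg) h (hJJ hh)) hJF (T t) κ x₀
      (fun x hx => (hTle x).trans (hi1 x fun v hv =>
        (hx v (mem_union_right _ hv)).trans (hx₀ v hv))) (S t) W hTS
      (fun g hg => hJ3 g (hJJ hg))
    refine hthis.trans ?_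
    rw [← mul_sum]
    apply mul_le_mul_of_nonneg_right _ (sum_nonneg fun x _ => NNReal.coe_nonneg _)
    apply mul_le_mul_of_nonneg_left _ hκW
    exact pow_le_pow_of_le_one h0.le (by linarith) hJm
  have hi3 : tot ≤ κ * ∑ x ∈ Q, (P.val i x : ℝ) := by
    rw [htot]
    exact_mod_cast hi2
  have hmain : tot ≤ (2 * κ ^ 2 * s ^ 3 * (1 * (W + 1) * (1 - η) ^ m)) * tot := by
    calc tot ≤ κ * ∑ x ∈ Q, (P.val i x : ℝ) := hi3
      _ ≤ κ * ∑ x ∈ Q, ∑ t, (T t x : ℝ) := by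
          apply mul_le_mul_of_nonneg_left _ (NNReal.coe_nonneg _)
          apply sum_le_sum
          intro x hx
          have h2 := hle x
          exact_mod_cast h2
      _ = κ * ∑ t, ∑ x ∈ Q, (T t x : ℝ) := by
          rw [sum_comm]
      _ ≤ κ * ∑ t : ι, κ * (W + 1) * (1 - η) ^ m * tot := by
          apply mul_le_mul_of_nonneg_left _ (NNReal.coe_nonneg _)
          exact sum_le_sum fun t _ => hterm t
      _ = κ * (Fintype.card ι * (κ * (W + 1) * (1 - η) ^ m * tot)) := by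
          rw [sum_const, card_univ, nsmul_eq_mul]
      _ ≤ κ * ((2 * s ^ 3 : ℕ) * (κ * (W + 1) * (1 - η) ^ m * tot)) := by
          apply mul_le_mul_of_nonneg_left _ (NNReal.coe_nonneg _)
          exact mul_le_mul_of_nonneg_right (by exact_mod_cast hι)
            (mul_nonneg (mul_nonneg hκW (pow_nonneg h0.le _)) htot0.le)
      _ = _ := by push_cast; ring
  have hb : (1 : ℝ) ≤ 2 * κ ^ 2 * s ^ 3 * (1 * (W + 1) * (1 - η) ^ m) := by
    by_contra hcon
    push Not at hcon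
    nlinarith
  exact hard3_num hη0 hη1 le_rfl (L := 2 * L) (by omega) hmn hb hκ (min_le_left _ _) (by
    rw [Real.logb_one]
    have : 0 ≤ l * n := mul_nonneg hl0.le (Nat.cast_nonneg _)
    linarith)

end Pool.Agent.EB
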