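import Pool.Agent.EB.St
import Pool.Agent.Helper56.Iso.Prob

/-!
# [Gra1] typical properties of the random graph
-/

set_option autoImplicit false

namespace Pool.Agent.EB

open Finset Pool.Agent.Helper56.Iso

private theorem Gra1_up {α : Type*} [Fintype α] [DecidableEq α] {p : ℝ} (h0 : 0 ≤ p) (h1 : p ≤ 1)
    (R : Finset α) (m : ℕ) :
    Pr p (fun E => m ≤ (E ∩ R).card) ≤ Real.exp (2 * (p * R.card) - m * Real.log 2) := by
  have h := upper_tail h0 h1 (by norm_num : (1 : ℝ) ≤ 2) R m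
  have e1 : Real.exp (2 * (p * R.card) - m * Real.log 2) = Real.exp (p * 2 * R.card) / 2 ^ m := by
    rw [Real.exp_sub, Real.exp_nat_mul, Real.exp_log (by norm_num : (0 : ℝ) < 2)]
    ring_nf
  rw [e1, le_div_iff₀ (by positivity)]
  exact h

private theorem Gra1_lo {α : Type*} [Fintype α] [DecidableEq α] {p : ℝ} (h0 : 0 ≤ p) (h1 : p ≤ 1)
    (R : Finset α) (m : ℕ) :
    Pr p (fun E => (E ∩ R).card ≤ m) ≤ Real.exp (m * Real.log 2 - p * R.card / 2) := by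
  have h := lower_tail h0 h1 R m
  have e1 : Real.exp (m * Real.log 2 - p * R.card / 2) =
      2 ^ m * Real.exp (-(p * R.card / 2)) := by
    rw [sub_eq_add_neg, Real.exp_add, Real.exp_nat_mul, Real.exp_log (by norm_num : (0 : ℝ) < 2)]
  rw [e1]
  exact h

/-- union bound with exponentials -/
private theorem Gra1_ub {α ι : Type*} [Fintype α] [DecidableEq α] {p : ℝ} (h0 : 0 ≤ p)
    (h1 : p ≤ 1) (I : Finset ι) (P : ι → Finset α → Prop) (b c t : ℝ)
    (hI : (I.card : ℝ) ≤ Real.exp c) (hP : ∀ i ∈ I, Pr p (P i) ≤ Real.exp b) (ht : c + b ≤ t) :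
    Pr p (fun E => ∃ i ∈ I, P i E) ≤ Real.exp t := by
  calc Pr p (fun E => ∃ i ∈ I, P i E) ≤ ∑ i ∈ I, Pr p (P i) := Pr_exists_le h0 h1 I P
    _ ≤ ∑ _i ∈ I, Real.exp b := Finset.sum_le_sum hP
    _ = I.card * Real.exp b := by rw [Finset.sum_const, nsmul_eq_mul]
    _ ≤ Real.exp c * Real.exp b := mul_le_mul_of_nonneg_right hI (Real.exp_pos b).le
    _ = Real.exp (c + b) := (Real.exp_add c b).symm
    _ ≤ Real.exp t := Real.exp_le_exp.mpr ht

/-- all the elements of `R` are present -/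
private theorem Gra1_sub {α : Type*} [Fintype α] [DecidableEq α] {p : ℝ} (h0 : 0 < p) (h1 : p ≤ 1)
    (R : Finset α) : Pr p (fun E => R ⊆ E) ≤ (2 * p) ^ R.card := by
  have hm := mgf p (1 / p) R
  have e0 : 1 - p + p * (1 / p) = 2 - p := by
    field_simp
    ring
  rw [e0] at hm
  have h2 : Pr p (fun E => R ⊆ E) * (1 / p) ^ R.card ≤ (2 - p) ^ R.card := by
    rw [← hm]
    unfold Pr
    rw [Finset.sum_mul]
    apply Finset.sum_le_sum
    intro E _
    by_cases hE : R ⊆ E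
    · rw [ind_of (Bad := fun E => R ⊆ E) hE, Finset.inter_eq_right.mpr hE]
    · rw [ind_not (Bad := fun E => R ⊆ E) hE, zero_mul]
      have := wt_nonneg h0.le h1 E
      positivity
  have h3 : (2 - p) ^ R.card ≤ 2 ^ R.card := pow_le_pow_left₀ (by linarith) (by linarith) _
  have h4 : Pr p (fun E => R ⊆ E) =
      (Pr p (fun E => R ⊆ E) * (1 / p) ^ R.card) * p ^ R.card := by
    rw [mul_assoc, ← mul_pow]
    have : 1 / p * p = 1 := by field_simp
    rw [this, one_pow, mul_one]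
  rw [h4, mul_pow]
  exact mul_le_mul_of_nonneg_right (h2.trans h3) (by positivity)

/-- Markov -/
private theorem Gra1_markov {α : Type*} [Fintype α] [DecidableEq α] {p : ℝ} (h0 : 0 ≤ p)
    (h1 : p ≤ 1) {ι : Type*} (I : Finset ι) (P : ι → Finset α → Prop) (n : ℕ) (M : ℝ)
    (X : Finset α → ℕ)
    (hX : ∀ E, ∃ J ⊆ I, (∀ i ∈ J, P i E) ∧ X E ≤ J.card)
    (hP : ∑ i ∈ I, Pr p (P i) ≤ M) :
    Pr p (fun E => n + 1 ≤ X E) * (n + 1) ≤ M := by
  refine le_trans ?_ hP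
  unfold Pr
  rw [Finset.sum_mul, Finset.sum_comm]
  apply Finset.sum_le_sum
  intro E _
  have hs : ∀ i ∈ I, 0 ≤ Set.indicator {E | P i E} (wt p) E := fun i _ => ind_nonneg h0 h1 (P i) E
  by_cases hE : n + 1 ≤ X E
  · rw [ind_of (Bad := fun E => n + 1 ≤ X E) hE]
    obtain ⟨J, hJ, hJP, hJX⟩ := hX E
    calc wt p E * (n + 1) ≤ wt p E * J.card := by
          apply mul_le_mul_of_nonneg_left _ (wt_nonneg h0 h1 E)
          exact_mod_cast hE.trans hJX
      _ = ∑ _i ∈ J, wt p E := by rw [Finset.sum_const, nsmul_eq_mul, mul_comm]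
      _ = ∑ i ∈ J, Set.indicator {E | P i E} (wt p) E :=
          Finset.sum_congr rfl fun i hi => (ind_of (Bad := P i) (hJP i hi)).symm
      _ ≤ ∑ i ∈ I, Set.indicator {E | P i E} (wt p) E :=
          Finset.sum_le_sum_of_subset_of_nonneg hJ fun i hi _ => hs i hi
  · rw [ind_not (Bad := fun E => n + 1 ≤ X E) hE, zero_mul]
    exact Finset.sum_nonneg hs

/-! ### regions -/

private noncomputable def Gra1_all (n : ℕ) : Finset (Sym2 (Fin n)) :=
  univ.filter fun e => ¬ e.IsDiag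

private def Gra1_ST {n : ℕ} (S T : Finset (Fin n)) : Finset (Sym2 (Fin n)) :=
  (S ×ˢ T).image fun q => s(q.1, q.2)

private theorem Gra1_card_all (n : ℕ) : ((Gra1_all n).card : ℝ) = n * (n - 1) / 2 := by
  have h : (Gra1_all n).card = n.choose 2 := by
    have := Sym2.card_subtype_not_diag (α := Fin n)
    rw [Fintype.card_fin] at this
    rw [← this, Gra1_all, Fintype.card_subtype]
  rw [h, Nat.cast_choose_two]

private theorem Gra1_card_ST {n : ℕ} (S T : Finset (Fin n)) (h : Disjoint S T) :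
    (Gra1_ST S T).card = S.card * T.card := by
  unfold Gra1_ST
  rw [Finset.card_image_of_injOn, Finset.card_product]
  rintro ⟨u, v⟩ h1 ⟨u', v'⟩ h2 h3
  simp only [Finset.coe_product, Set.mem_prod, Finset.mem_coe] at h1 h2
  rw [Sym2.eq_iff] at h3
  rcases h3 with ⟨rfl, rfl⟩ | ⟨rfl, rfl⟩
  · rfl
  · exact absurd h2.2 (Finset.disjoint_left.mp h h1.1)

private theorem Gra1_card_in {n : ℕ} (S : Finset (Fin n)) : (Gra1_ST S S).card ≤ S.card * S.card := by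
  unfold Gra1_ST
  exact Finset.card_image_le.trans (by rw [Finset.card_product])

private theorem Gra1_card_touch {n : ℕ} (S : Finset (Fin n)) :
    (Gra1_ST S univ).card ≤ S.card * n := by
  unfold Gra1_ST
  exact Finset.card_image_le.trans (by rw [Finset.card_product, Finset.card_univ, Fintype.card_fin])

private theorem Gra1_mem_in {n : ℕ} (S : Finset (Fin n)) (e : Sym2 (Fin n)) (h : ∀ v ∈ e, v ∈ S) :
    e ∈ Gra1_ST S S := by
  induction e with
  | _ u v =>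
    unfold Gra1_ST
    rw [Finset.mem_image]
    exact ⟨(u, v), Finset.mem_product.mpr ⟨h u (Sym2.mem_mk_left u v), h v (Sym2.mem_mk_right u v)⟩,
      rfl⟩

private theorem Gra1_mem_touch {n : ℕ} (S : Finset (Fin n)) (e : Sym2 (Fin n))
    (h : ∃ v ∈ e, v ∈ S) : e ∈ Gra1_ST S univ := by
  obtain ⟨v, hv, hS⟩ := h
  obtain ⟨w, rfl⟩ := Sym2.mem_iff_exists.mp hv
  unfold Gra1_ST
  rw [Finset.mem_image]
  exact ⟨(v, w), Finset.mem_product.mpr ⟨hS, Finset.mem_univ w⟩, rfl⟩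

/-! ### cycles -/

private theorem Gra1_cyc {n : ℕ} (l : ℕ) [NeZero l] (hl : ∀ j : Fin l, j + 1 + 1 ≠ j) {p : ℝ}
    (h0 : 0 < p) (h1 : p ≤ 1) (c : Fin l → Fin n) :
    Pr p (fun E : Finset (Sym2 (Fin n)) => Cy l (E.filter fun e => ¬ e.IsDiag) c) ≤ (2 * p) ^ l := by
  by_cases hc : Function.Injective c
  · have hR : (univ.image fun i : Fin l => s(c i, c (i + 1))).card = l := by
      rw [Finset.card_image_of_injective, Finset.card_univ, Fintype.card_fin]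
      intro i j hij
      simp only at hij
      rw [Sym2.eq_iff] at hij
      rcases hij with ⟨h, _⟩ | ⟨h, h'⟩
      · exact hc h
      · have e1 := hc h
        have e2 := hc h'
        exact absurd (by rw [← e1, e2]) (hl j)
    have := Gra1_sub h0 h1 (univ.image fun i : Fin l => s(c i, c (i + 1)))
    rw [hR] at this
    refine le_trans (Pr_mono h0.le h1 ?_) this
    rintro E ⟨_, hE⟩
    intro e he
    rw [Finset.mem_image] at he
    obtain ⟨i, _, rfl⟩ := he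
    exact (Finset.mem_filter.mp (hE i)).1
  · have : Pr p (fun E : Finset (Sym2 (Fin n)) => Cy l (E.filter fun e => ¬ e.IsDiag) c) = 0 := by
      unfold Pr
      apply Finset.sum_eq_zero
      intro E _
      apply ind_not (Bad := fun E : Finset (Sym2 (Fin n)) =>
        Cy l (E.filter fun e => ¬ e.IsDiag) c)
      exact fun h => hc h.1
    rw [this]
    positivity

open Classical in
private theorem Gra1_short (n : ℕ) (d p : ℝ) (hn : 0 < n) (hp : p = d / n) (h0 : 0 < p)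
    (h1 : p ≤ 1) (hd : 1 ≤ d) :
    Pr p (fun E : Finset (Sym2 (Fin n)) => n + 1 ≤
      ((E.filter fun e => ¬ e.IsDiag).filter
        fun e => Short (E.filter fun e => ¬ e.IsDiag) e).card) * (n + 1) ≤ 4 * (2 * d) ^ 7 := by
  have hn' : (0 : ℝ) < n := by exact_mod_cast hn
  -- the index set
  let I : Finset ((Fin 3 → Fin n) ⊕ (Fin 4 → Fin n) ⊕ (Fin 5 → Fin n) ⊕ (Fin 7 → Fin n)) := univ
  let P : ((Fin 3 → Fin n) ⊕ (Fin 4 → Fin n) ⊕ (Fin 5 → Fin n) ⊕ (Fin 7 → Fin n)) →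
      Finset (Sym2 (Fin n)) → Prop := fun x E =>
    Sum.elim (fun c => Cy 3 (E.filter fun e => ¬ e.IsDiag) c)
      (Sum.elim (fun c => Cy 4 (E.filter fun e => ¬ e.IsDiag) c)
        (Sum.elim (fun c => Cy 5 (E.filter fun e => ¬ e.IsDiag) c)
          (fun c => Cy 7 (E.filter fun e => ¬ e.IsDiag) c))) x
  let ed : ((Fin 3 → Fin n) ⊕ (Fin 4 → Fin n) ⊕ (Fin 5 → Fin n) ⊕ (Fin 7 → Fin n)) →
      Sym2 (Fin n) := Sum.elim (fun c => s(c 0, c 1)) (Sum.elim (fun c => s(c 0, c 1))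
        (Sum.elim (fun c => s(c 0, c 1)) (fun c => s(c 0, c 1))))
  refine Gra1_markov h0.le h1 I P n (4 * (2 * d) ^ 7) _ ?_ ?_
  · intro E
    refine ⟨univ.filter fun x => P x E, Finset.subset_univ _, fun i hi =>
      (Finset.mem_filter.mp hi).2, ?_⟩
    refine le_trans (Finset.card_le_card (t := (univ.filter fun x => P x E).image ed) ?_)
      Finset.card_image_le
    intro e he
    rw [Finset.mem_filter] at he
    rw [Finset.mem_image]
    rcases he.2 with ⟨c, hc, rfl⟩ | ⟨c, hc, rfl⟩ | ⟨c, hc, rfl⟩ | ⟨c, hc, rfl⟩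
    · exact ⟨Sum.inl c, Finset.mem_filter.mpr ⟨Finset.mem_univ _, hc⟩, rfl⟩
    · exact ⟨Sum.inr (Sum.inl c), Finset.mem_filter.mpr ⟨Finset.mem_univ _, hc⟩, rfl⟩
    · exact ⟨Sum.inr (Sum.inr (Sum.inl c)), Finset.mem_filter.mpr ⟨Finset.mem_univ _, hc⟩, rfl⟩
    · exact ⟨Sum.inr (Sum.inr (Sum.inr c)), Finset.mem_filter.mpr ⟨Finset.mem_univ _, hc⟩, rfl⟩
  · have key : ∀ (l : ℕ) [NeZero l], (∀ j : Fin l, j + 1 + 1 ≠ j) → l ≤ 7 →
        ∑ c : Fin l → Fin n, Pr p (fun E : Finset (Sym2 (Fin n)) =>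
          Cy l (E.filter fun e => ¬ e.IsDiag) c) ≤ (2 * d) ^ 7 := by
      intro l _ hl h7
      calc ∑ c : Fin l → Fin n, Pr p (fun E : Finset (Sym2 (Fin n)) =>
          Cy l (E.filter fun e => ¬ e.IsDiag) c) ≤ ∑ _c : Fin l → Fin n, (2 * p) ^ l :=
            Finset.sum_le_sum fun c _ => Gra1_cyc l hl h0 h1 c
        _ = (n : ℝ) ^ l * (2 * p) ^ l := by
            rw [Finset.sum_const, Finset.card_univ, Fintype.card_fun, Fintype.card_fin,
              Fintype.card_fin, nsmul_eq_mul, Nat.cast_pow]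
        _ = (2 * d) ^ l := by
            rw [← mul_pow, hp]
            congr 1
            field_simp
        _ ≤ (2 * d) ^ 7 := pow_le_pow_right₀ (by linarith) h7
    have k3 := key 3 (by decide) (by norm_num)
    have k4 := key 4 (by decide) (by norm_num)
    have k5 := key 5 (by decide) (by norm_num)
    have k7 := key 7 (by decide) (by norm_num)
    have e : ∑ i ∈ I, Pr p (P i) =
        (∑ c : Fin 3 → Fin n, Pr p (fun E : Finset (Sym2 (Fin n)) =>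
          Cy 3 (E.filter fun e => ¬ e.IsDiag) c)) +
        ((∑ c : Fin 4 → Fin n, Pr p (fun E : Finset (Sym2 (Fin n)) =>
          Cy 4 (E.filter fun e => ¬ e.IsDiag) c)) +
        ((∑ c : Fin 5 → Fin n, Pr p (fun E : Finset (Sym2 (Fin n)) =>
          Cy 5 (E.filter fun e => ¬ e.IsDiag) c)) +
        (∑ c : Fin 7 → Fin n, Pr p (fun E : Finset (Sym2 (Fin n)) =>
          Cy 7 (E.filter fun e => ¬ e.IsDiag) c)))) := by
      show ∑ i, Pr p (P i) = _
      rw [Fintype.sum_sum_type, Fintype.sum_sum_type, Fintype.sum_sum_type]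
      rfl
    rw [e]
    linarith

private theorem Gra1_two (n : ℕ) : ((2 : ℝ) ^ n) = Real.exp (n * Real.log 2) := by
  rw [Real.exp_nat_mul, Real.exp_log (by norm_num : (0 : ℝ) < 2)]

private theorem Gra1_hcard {n : ℕ} (I : Finset (Finset (Fin n))) :
    (I.card : ℝ) ≤ Real.exp (n * Real.log 2) := by
  rw [← Gra1_two]
  have : I.card ≤ 2 ^ n := by
    have h := Finset.card_le_univ I
    rwa [Fintype.card_finset, Fintype.card_fin] at h
  exact_mod_cast this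

private theorem Gra1_hcard2 {n : ℕ} (I : Finset (Finset (Fin n) × Finset (Fin n))) :
    (I.card : ℝ) ≤ Real.exp (2 * n * Real.log 2) := by
  have e : Real.exp (2 * n * Real.log 2) = 2 ^ n * 2 ^ n := by
    rw [Gra1_two, ← Real.exp_add]
    ring_nf
  rw [e]
  have : I.card ≤ 2 ^ n * 2 ^ n := by
    have h := Finset.card_le_univ I
    rwa [Fintype.card_prod, Fintype.card_finset, Fintype.card_fin] at h
  exact_mod_cast this

open Classical in
/-- index sets -/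
private noncomputable def Gra1_J {n : ℕ} (P : Finset (Fin n) → Prop) : Finset (Finset (Fin n)) :=
  univ.filter P

open Classical in
private noncomputable def Gra1_J2 {n : ℕ} (P : Finset (Fin n) → Finset (Fin n) → Prop) :
    Finset (Finset (Fin n) × Finset (Fin n)) :=
  univ.filter fun q => P q.1 q.2

open Classical in
private theorem Gra1_mem_J {n : ℕ} (P : Finset (Fin n) → Prop) (S : Finset (Fin n)) :
    S ∈ Gra1_J P ↔ P S := by
  unfold Gra1_J
  rw [Finset.mem_filter]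
  exact ⟨fun h => h.2, fun h => ⟨Finset.mem_univ _, h⟩⟩

open Classical in
private theorem Gra1_mem_J2 {n : ℕ} (P : Finset (Fin n) → Finset (Fin n) → Prop)
    (q : Finset (Fin n) × Finset (Fin n)) : q ∈ Gra1_J2 P ↔ P q.1 q.2 := by
  unfold Gra1_J2
  rw [Finset.mem_filter]
  exact ⟨fun h => h.2, fun h => ⟨Finset.mem_univ _, h⟩⟩

/-- the events: too many elements of `R i`, too few elements of `R i` -/
private def Gra1_many {n : ℕ} {ι : Type} (R : ι → Finset (Sym2 (Fin n))) (m : ℕ) (i : ι)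
    (E : Finset (Sym2 (Fin n))) : Prop := m + 1 ≤ (E ∩ R i).card

private def Gra1_few {n : ℕ} {ι : Type} (R : ι → Finset (Sym2 (Fin n))) (m : ℕ) (i : ι)
    (E : Finset (Sym2 (Fin n))) : Prop := (E ∩ R i).card ≤ m

private theorem Gra1_Bmany {n : ℕ} {p : ℝ} (h0 : 0 ≤ p) (h1 : p ≤ 1)
    (R : Finset (Fin n) → Finset (Sym2 (Fin n))) (P : Finset (Fin n) → Prop) (m : ℕ) (b t : ℝ)
    (hb : ∀ S, P S → p * ((R S).card : ℝ) ≤ b)
    (ht : n * Real.log 2 + (2 * b - m * Real.log 2) ≤ t) :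
    Pr p (fun E => ∃ S ∈ Gra1_J P, Gra1_many R m S E) ≤ Real.exp t := by
  refine Gra1_ub h0 h1 (Gra1_J P) (fun S E => Gra1_many R m S E) _ _ t (Gra1_hcard _) ?_ ht
  intro S hS
  refine (Gra1_up h0 h1 (R S) (m + 1)).trans (Real.exp_le_exp.mpr ?_)
  have h2 := hb S ((Gra1_mem_J P S).mp hS)
  have h3 : 0 ≤ Real.log 2 := Real.log_nonneg (by norm_num)
  push_cast
  nlinarith

private theorem Gra1_Bfew {n : ℕ} {p : ℝ} (h0 : 0 ≤ p) (h1 : p ≤ 1)
    (R : Finset (Fin n) × Finset (Fin n) → Finset (Sym2 (Fin n)))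
    (P : Finset (Fin n) → Finset (Fin n) → Prop) (m : ℕ) (b t : ℝ)
    (hb : ∀ q : Finset (Fin n) × Finset (Fin n), P q.1 q.2 → b ≤ p * ((R q).card : ℝ))
    (ht : 2 * n * Real.log 2 + (m * Real.log 2 - b / 2) ≤ t) :
    Pr p (fun E => ∃ q ∈ Gra1_J2 P, Gra1_few R m q E) ≤ Real.exp t := by
  refine Gra1_ub h0 h1 (Gra1_J2 P) (fun S E => Gra1_few R m S E) _ _ t (Gra1_hcard2 _) ?_ ht
  intro q hq
  refine (Gra1_lo h0 h1 (R q) m).trans (Real.exp_le_exp.mpr ?_)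
  have h2 := hb q ((Gra1_mem_J2 P q).mp hq)
  linarith

private def Gra1_P3 (k n : ℕ) (S T : Finset (Fin n)) : Prop :=
  Disjoint S T ∧ n ≤ 20000 * k * S.card ∧ n ≤ 20000 * k * T.card

private def Gra1_P4 (k n : ℕ) (S : Finset (Fin n)) : Prop := 1000 * k * S.card ≤ n

private def Gra1_P5 (k n : ℕ) (S : Finset (Fin n)) : Prop := 20000 * k * S.card ≤ 3 * n

private def Gra1_P6 (k n : ℕ) (S : Finset (Fin n)) : Prop := 4 * 10 ^ 10 * k ^ 2 * S.card ≤ n

open Classical in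
private def Gra1_sh (n : ℕ) (E : Finset (Sym2 (Fin n))) : Prop := n + 1 ≤
  ((E.filter fun e => ¬ e.IsDiag).filter
    fun e => Short (E.filter fun e => ¬ e.IsDiag) e).card

private theorem Gra1_B1 (k n : ℕ) (hk : 1 ≤ k) (hn : 100 ≤ n) (p : ℝ)
    (hp : p = 10 ^ 10 * (k : ℝ) ^ 2 / n) (h0 : 0 ≤ p) (h1 : p ≤ 1) :
    Pr p (fun E => (E ∩ Gra1_all n).card ≤ 10 ^ 10 * k ^ 2 * n / 8) ≤
      Real.exp (-((n : ℝ) / 10)) := by
  have hnr : (100 : ℝ) ≤ n := by exact_mod_cast hn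
  have hkr : (1 : ℝ) ≤ k := by exact_mod_cast hk
  have hk2 : (1 : ℝ) ≤ (k : ℝ) ^ 2 := one_le_pow₀ hkr
  obtain ⟨d, hd⟩ : ∃ d : ℝ, d = 10 ^ 10 * (k : ℝ) ^ 2 := ⟨_, rfl⟩
  rw [← hd] at hp
  have hd1 : 1 ≤ d := by
    rw [hd]
    nlinarith
  have l2 : Real.log 2 < 0.6932 := by
    have := Real.log_two_lt_d9
    linarith
  have hl0 : 0 ≤ Real.log 2 := Real.log_nonneg (by norm_num)
  refine (Gra1_lo h0 h1 _ _).trans (Real.exp_le_exp.mpr ?_)
  rw [Gra1_card_all]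
  have hm : ((10 ^ 10 * k ^ 2 * n / 8 : ℕ) : ℝ) ≤ d * n / 8 := by
    refine Nat.cast_div_le.trans ?_
    push_cast
    rw [hd]
    linarith
  have e1 : p * (n * (n - 1) / 2) = d * (n - 1) / 2 := by
    rw [hp]
    field_simp
  rw [e1]
  have h8 : ((10 ^ 10 * k ^ 2 * n / 8 : ℕ) : ℝ) * Real.log 2 ≤ d * n / 8 * 0.6932 :=
    mul_le_mul hm l2.le hl0 (by positivity)
  have h9 : 0 ≤ (d - 1) * ((n : ℝ) * (0.25 - 0.6932 / 8) - 0.25) :=
    mul_nonneg (by linarith) (by linarith)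
  nlinarith

private theorem Gra1_B2 (k n : ℕ) (hk : 1 ≤ k) (hn : 100 ≤ n) (p : ℝ)
    (hp : p = 10 ^ 10 * (k : ℝ) ^ 2 / n) (h0 : 0 ≤ p) (h1 : p ≤ 1) :
    Pr p (fun E => 2 * 10 ^ 10 * k ^ 2 * n + 1 ≤ (E ∩ Gra1_all n).card) ≤
      Real.exp (-((n : ℝ) / 10)) := by
  have hnr : (100 : ℝ) ≤ n := by exact_mod_cast hn
  have hkr : (1 : ℝ) ≤ k := by exact_mod_cast hk
  have hk2 : (1 : ℝ) ≤ (k : ℝ) ^ 2 := one_le_pow₀ hkr
  obtain ⟨d, hd⟩ : ∃ d : ℝ, d = 10 ^ 10 * (k : ℝ) ^ 2 := ⟨_, rfl⟩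
  rw [← hd] at hp
  have hd1 : 1 ≤ d := by
    rw [hd]
    nlinarith
  have l1 : 0.6931 < Real.log 2 := by
    have := Real.log_two_gt_d9
    linarith
  refine (Gra1_up h0 h1 _ _).trans (Real.exp_le_exp.mpr ?_)
  rw [Gra1_card_all]
  have e1 : p * (n * (n - 1) / 2) = d * (n - 1) / 2 := by
    rw [hp]
    field_simp
  rw [e1]
  have h7 : d * n * 2 * 0.6931 ≤ ((2 * 10 ^ 10 * k ^ 2 * n + 1 : ℕ) : ℝ) * Real.log 2 := by
    have h8 : d * n * 2 ≤ ((2 * 10 ^ 10 * k ^ 2 * n + 1 : ℕ) : ℝ) := by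
      push_cast
      rw [hd]
      linarith
    exact mul_le_mul h8 l1.le (by norm_num) (by positivity)
  have h9 : 0 ≤ (d - 1) * ((n : ℝ) * (2 * 0.6931 - 1)) :=
    mul_nonneg (by linarith) (by linarith)
  nlinarith

private theorem Gra1_B3 (k n : ℕ) (hn : 100 ≤ n) (p : ℝ)
    (hp : p = 10 ^ 10 * (k : ℝ) ^ 2 / n) (h0 : 0 ≤ p) (h1 : p ≤ 1) :
    Pr p (fun E => ∃ q ∈ Gra1_J2 (Gra1_P3 k n),
      Gra1_few (fun q => Gra1_ST q.1 q.2) (4 * n) q E) ≤ Real.exp (-((n : ℝ) / 10)) := by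
  have hn100 : (100 : ℝ) ≤ n := by exact_mod_cast hn
  have hnr : (0 : ℝ) < n := by linarith
  have l2 : Real.log 2 < 0.6932 := by
    have := Real.log_two_lt_d9
    linarith
  refine Gra1_Bfew h0 h1 _ _ _ (25 * n) _ ?_ ?_
  · rintro ⟨S, T⟩ ⟨hq1, hq2, hq3⟩
    simp only at hq1 hq2 hq3 ⊢
    rw [Gra1_card_ST S T hq1]
    have h2 : (n : ℝ) ≤ 20000 * k * S.card := by exact_mod_cast hq2
    have h3 : (n : ℝ) ≤ 20000 * k * T.card := by exact_mod_cast hq3
    have h4 : (n : ℝ) * n ≤ (20000 * k * S.card) * (20000 * k * T.card) :=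
      mul_le_mul h2 h3 hnr.le (by positivity)
    rw [hp, div_mul_eq_mul_div, le_div_iff₀ hnr]
    push_cast
    nlinarith
  · push_cast
    nlinarith

private theorem Gra1_B4 (k n : ℕ) (hn : 100 ≤ n) (p : ℝ)
    (hp : p = 10 ^ 10 * (k : ℝ) ^ 2 / n) (h0 : 0 ≤ p) (h1 : p ≤ 1) :
    Pr p (fun E => ∃ S ∈ Gra1_J (Gra1_P4 k n),
      Gra1_many (fun S => Gra1_ST S S) (40000 * n) S E) ≤ Real.exp (-((n : ℝ) / 10)) := by
  have hn100 : (100 : ℝ) ≤ n := by exact_mod_cast hn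
  have hnr : (0 : ℝ) < n := by linarith
  have l1 : 0.6931 < Real.log 2 := by
    have := Real.log_two_gt_d9
    linarith
  have l2 : Real.log 2 < 0.6932 := by
    have := Real.log_two_lt_d9
    linarith
  refine Gra1_Bmany h0 h1 _ _ _ (10000 * n) _ ?_ ?_
  · intro S hS
    have h2 : 1000 * (k : ℝ) * S.card ≤ n := by
      have : 1000 * k * S.card ≤ n := hS
      exact_mod_cast this
    have h3 : ((Gra1_ST S S).card : ℝ) ≤ S.card * S.card := by exact_mod_cast Gra1_card_in S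
    have h4 : (1000 * (k : ℝ) * S.card) * (1000 * (k : ℝ) * S.card) ≤ n * n :=
      mul_le_mul h2 h2 (by positivity) hnr.le
    refine (mul_le_mul_of_nonneg_left h3 h0).trans ?_
    rw [hp, div_mul_eq_mul_div, div_le_iff₀ hnr]
    nlinarith
  · push_cast
    nlinarith

private theorem Gra1_B5 (k n : ℕ) (hk : 1 ≤ k) (hn : 100 ≤ n) (p : ℝ)
    (hp : p = 10 ^ 10 * (k : ℝ) ^ 2 / n) (h0 : 0 ≤ p) (h1 : p ≤ 1) :
    Pr p (fun E => ∃ S ∈ Gra1_J (Gra1_P5 k n),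
      Gra1_many (fun S => Gra1_ST S univ) (5 * 10 ^ 8 * k * n) S E) ≤
      Real.exp (-((n : ℝ) / 10)) := by
  have hn100 : (100 : ℝ) ≤ n := by exact_mod_cast hn
  have hnr : (0 : ℝ) < n := by linarith
  have hkr : (1 : ℝ) ≤ k := by exact_mod_cast hk
  have l1 : 0.6931 < Real.log 2 := by
    have := Real.log_two_gt_d9
    linarith
  have l2 : Real.log 2 < 0.6932 := by
    have := Real.log_two_lt_d9
    linarith
  refine Gra1_Bmany h0 h1 _ _ _ (3 / 2 * 10 ^ 6 * k * n) _ ?_ ?_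
  · intro S hS
    have h2 : 20000 * (k : ℝ) * S.card ≤ 3 * n := by
      have : 20000 * k * S.card ≤ 3 * n := hS
      exact_mod_cast this
    have h3 : ((Gra1_ST S univ).card : ℝ) ≤ S.card * n := by exact_mod_cast Gra1_card_touch S
    refine (mul_le_mul_of_nonneg_left h3 h0).trans ?_
    rw [hp, div_mul_eq_mul_div, div_le_iff₀ hnr]
    have h6 : (k : ℝ) * n * (20000 * (k : ℝ) * S.card) ≤ k * n * (3 * n) :=
      mul_le_mul_of_nonneg_left h2 (by positivity)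
    nlinarith
  · push_cast
    have h6 : (n : ℝ) ≤ k * n := by nlinarith
    have h7 : (k : ℝ) * n * 0.6931 ≤ k * n * Real.log 2 :=
      mul_le_mul_of_nonneg_left l1.le (by positivity)
    have h8 : (n : ℝ) * Real.log 2 ≤ n * 0.6932 := mul_le_mul_of_nonneg_left l2.le hnr.le
    nlinarith

private theorem Gra1_B6 (k n : ℕ) (hn : 100 ≤ n) (p : ℝ)
    (hp : p = 10 ^ 10 * (k : ℝ) ^ 2 / n) (h0 : 0 ≤ p) (h1 : p ≤ 1) :
    Pr p (fun E => ∃ S ∈ Gra1_J (Gra1_P6 k n),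
      Gra1_many (fun S => Gra1_ST S univ) (2 * n) S E) ≤ Real.exp (-((n : ℝ) / 10)) := by
  have hn100 : (100 : ℝ) ≤ n := by exact_mod_cast hn
  have hnr : (0 : ℝ) < n := by linarith
  have l1 : 0.6931 < Real.log 2 := by
    have := Real.log_two_gt_d9
    linarith
  refine Gra1_Bmany h0 h1 _ _ _ (n / 4) _ ?_ ?_
  · intro S hS
    have h2 : 4 * 10 ^ 10 * (k : ℝ) ^ 2 * S.card ≤ n := by
      have : 4 * 10 ^ 10 * k ^ 2 * S.card ≤ n := hS
      exact_mod_cast this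
    have h3 : ((Gra1_ST S univ).card : ℝ) ≤ S.card * n := by exact_mod_cast Gra1_card_touch S
    refine (mul_le_mul_of_nonneg_left h3 h0).trans ?_
    rw [hp, div_mul_eq_mul_div, div_le_iff₀ hnr]
    have h6 : (n : ℝ) * (4 * 10 ^ 10 * (k : ℝ) ^ 2 * S.card) ≤ n * n :=
      mul_le_mul_of_nonneg_left h2 hnr.le
    nlinarith
  · push_cast
    nlinarith

/-- seven events -/
private theorem Gra1_seven {α : Type*} [Fintype α] [DecidableEq α] {p : ℝ} (h0 : 0 ≤ p)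
    (h1 : p ≤ 1) (A1 A2 A3 A4 A5 A6 A7 : Finset α → Prop) (t : ℝ) (ht : t ≤ 1 / 11)
    (B1 : Pr p A1 ≤ t) (B2 : Pr p A2 ≤ t) (B3 : Pr p A3 ≤ t) (B4 : Pr p A4 ≤ t)
    (B5 : Pr p A5 ≤ t) (B6 : Pr p A6 ≤ t) (B7 : Pr p A7 ≤ 1 / 10) :
    ∃ E, ¬ A1 E ∧ ¬ A2 E ∧ ¬ A3 E ∧ ¬ A4 E ∧ ¬ A5 E ∧ ¬ A6 E ∧ ¬ A7 E := by
  have s1 := Pr_or_le h0 h1 A1 (fun E => A2 E ∨ (A3 E ∨ (A4 E ∨ (A5 E ∨ (A6 E ∨ A7 E)))))
  have s2 := Pr_or_le h0 h1 A2 (fun E => (A3 E ∨ (A4 E ∨ (A5 E ∨ (A6 E ∨ A7 E)))))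
  have s3 := Pr_or_le h0 h1 A3 (fun E => (A4 E ∨ (A5 E ∨ (A6 E ∨ A7 E))))
  have s4 := Pr_or_le h0 h1 A4 (fun E => (A5 E ∨ (A6 E ∨ A7 E)))
  have s5 := Pr_or_le h0 h1 A5 (fun E => (A6 E ∨ A7 E))
  have s6 := Pr_or_le h0 h1 A6 A7
  obtain ⟨E, hE⟩ := exists_good (p := p)
    (Bad := fun E => A1 E ∨ (A2 E ∨ (A3 E ∨ (A4 E ∨ (A5 E ∨ (A6 E ∨ A7 E)))))) (by linarith)
  exact ⟨E, by tauto⟩

theorem thm_Gra1 : St_Gra1 := by
  intro k hk
  obtain ⟨N, hN⟩ := exists_nat_ge (40 * (2 * (10 ^ 10 * (k : ℝ) ^ 2)) ^ 7)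
  refine ⟨max N (max 100 (10 ^ 10 * k ^ 2)), ?_⟩
  intro n hn
  have hn1 : N ≤ n := (le_max_left _ _).trans hn
  have hn2 : 100 ≤ n := ((le_max_left _ _).trans (le_max_right _ _)).trans hn
  have hn3 : 10 ^ 10 * k ^ 2 ≤ n := ((le_max_right _ _).trans (le_max_right _ _)).trans hn
  have hnp : 0 < n := by omega
  have hnr : (0 : ℝ) < n := by exact_mod_cast hnp
  have hn100 : (100 : ℝ) ≤ n := by exact_mod_cast hn2
  have hkr : (1 : ℝ) ≤ k := by exact_mod_cast hk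
  have hk2 : (1 : ℝ) ≤ (k : ℝ) ^ 2 := one_le_pow₀ hkr
  have hd1 : (1 : ℝ) ≤ 10 ^ 10 * (k : ℝ) ^ 2 := by nlinarith
  have hdn : 10 ^ 10 * (k : ℝ) ^ 2 ≤ n := by exact_mod_cast hn3
  obtain ⟨p, hp⟩ : ∃ p : ℝ, p = 10 ^ 10 * (k : ℝ) ^ 2 / n := ⟨_, rfl⟩
  have h0 : 0 < p := by
    rw [hp]
    positivity
  have h1 : p ≤ 1 := by
    rw [hp, div_le_one hnr]
    exact hdn
  have B7 : Pr p (fun E : Finset (Sym2 (Fin n)) => Gra1_sh n E) ≤ 1 / 10 := by
    have h := Gra1_short n (10 ^ 10 * (k : ℝ) ^ 2) p hnp hp h0 h1 hd1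
    have hNn : 40 * (2 * (10 ^ 10 * (k : ℝ) ^ 2)) ^ 7 ≤ n := hN.trans (by exact_mod_cast hn1)
    have hn' : (0 : ℝ) < (n : ℝ) + 1 := by positivity
    have h2 : Pr p (fun E : Finset (Sym2 (Fin n)) => Gra1_sh n E) * (n + 1) ≤
        1 / 10 * ((n : ℝ) + 1) := by
      refine le_trans h ?_
      linarith
    exact le_of_mul_le_mul_right h2 hn'
  have hexp : Real.exp (-((n : ℝ) / 10)) ≤ 1 / 11 := by
    have h2 : (11 : ℝ) ≤ Real.exp (n / 10) := by
      have := Real.add_one_le_exp ((n : ℝ) / 10)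
      linarith
    rw [Real.exp_neg, ← one_div]
    exact one_div_le_one_div_of_le (by norm_num) h2
  obtain ⟨E, g1, g2, g3, g4, g5, g6, g7⟩ := Gra1_seven h0.le h1 _ _ _ _ _ _ _ _ hexp
    (Gra1_B1 k n hk hn2 p hp h0.le h1) (Gra1_B2 k n hk hn2 p hp h0.le h1)
    (Gra1_B3 k n hn2 p hp h0.le h1) (Gra1_B4 k n hn2 p hp h0.le h1)
    (Gra1_B5 k n hk hn2 p hp h0.le h1) (Gra1_B6 k n hn2 p hp h0.le h1) B7
  have hall : (E ∩ Gra1_all n) = E.filter fun e => ¬ e.IsDiag := by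
    ext e
    simp [Gra1_all]
  rw [hall] at g1 g2
  refine ⟨E.filter fun e => ¬ e.IsDiag, ?_⟩
  constructor
  · intro e he
    exact (Finset.mem_filter.mp he).2
  · omega
  · omega
  · intro S T hST h2 h3
    have h4 : ¬ Gra1_few (fun q : Finset (Fin n) × Finset (Fin n) => Gra1_ST q.1 q.2) (4 * n)
        (S, T) E := fun h => g3 ⟨(S, T), (Gra1_mem_J2 _ _).mpr ⟨hST, h2, h3⟩, h⟩
    have h5 : 4 * n ≤ (E ∩ Gra1_ST S T).card := (Nat.lt_of_not_le h4).le
    refine le_trans h5 (Finset.card_le_card ?_)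
    intro e he
    rw [Finset.mem_inter] at he
    unfold Gra1_ST at he
    rw [Finset.mem_image] at he
    obtain ⟨heE, ⟨u, v⟩, huv, rfl⟩ := he
    rw [Finset.mem_product] at huv
    rw [Finset.mem_filter, Finset.mem_filter]
    refine ⟨⟨heE, ?_⟩, u, huv.1, v, huv.2, rfl⟩
    intro hdiag
    have huv2 : u = v := Sym2.mk_isDiag_iff.mp hdiag
    subst huv2
    exact Finset.disjoint_left.mp hST huv.1 huv.2
  · intro S hS
    have h4 : ¬ Gra1_many (fun S : Finset (Fin n) => Gra1_ST S S) (40000 * n) S E :=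
      fun h => g4 ⟨S, (Gra1_mem_J _ _).mpr hS, h⟩
    have h5 : (E ∩ Gra1_ST S S).card ≤ 40000 * n := Nat.lt_succ_iff.mp (Nat.lt_of_not_le h4)
    refine le_trans (Finset.card_le_card ?_) h5
    intro e he
    rw [Finset.mem_filter, Finset.mem_filter] at he
    exact Finset.mem_inter.mpr ⟨he.1.1, Gra1_mem_in S e he.2⟩
  · intro S hS
    have h4 : ¬ Gra1_many (fun S : Finset (Fin n) => Gra1_ST S univ) (5 * 10 ^ 8 * k * n) S E :=
      fun h => g5 ⟨S, (Gra1_mem_J _ _).mpr hS, h⟩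
    have h5 : (E ∩ Gra1_ST S univ).card ≤ 5 * 10 ^ 8 * k * n :=
      Nat.lt_succ_iff.mp (Nat.lt_of_not_le h4)
    refine le_trans (Finset.card_le_card ?_) h5
    intro e he
    rw [Finset.mem_filter, Finset.mem_filter] at he
    exact Finset.mem_inter.mpr ⟨he.1.1, Gra1_mem_touch S e he.2⟩
  · intro S hS
    have h4 : ¬ Gra1_many (fun S : Finset (Fin n) => Gra1_ST S univ) (2 * n) S E :=
      fun h => g6 ⟨S, (Gra1_mem_J _ _).mpr hS, h⟩
    have h5 : (E ∩ Gra1_ST S univ).card ≤ 2 * n := Nat.lt_succ_iff.mp (Nat.lt_of_not_le h4)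
    refine le_trans (Finset.card_le_card ?_) h5
    intro e he
    rw [Finset.mem_filter, Finset.mem_filter] at he
    exact Finset.mem_inter.mpr ⟨he.1.1, Gra1_mem_touch S e he.2⟩
  · exact Nat.lt_succ_iff.mp (Nat.lt_of_not_le g7)

end Pool.Agent.EB
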