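import Pool.Agent.EB.Defs
import Pool.Agent.WE.St

/-!
# Signatures of the modules
-/

namespace Pool.Agent.EB

open Finset Pool.Agent.WD
open scoped NNReal

/-- [Gra1] typical properties of `G(n, d/n)`, `d = 10^10 k^2`: tails from
`Pool.Agent.Helper56.Iso.Prob` (with `θ = 2`) and union bounds over `2^n` or `4^n` sets, Markov for
the number of short cycles -/
def St_Gra1 : Prop := ∀ k : ℕ, 1 ≤ k → ∃ n₀ : ℕ, ∀ n ≥ n₀, ∃ E : Finset (Sym2 (Fin n)), RG k n E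

/-- [Gra2] delete the edges with an end of degree `> D = 16 d^2` and the edges in short cycles -/
def St_Gra2 : Prop :=
  ∀ k : ℕ, 1 ≤ k → ∃ D n₀ : ℕ, ∀ n ≥ n₀, ∀ E : Finset (Sym2 (Fin n)), RG k n E →
    ∃ E' ⊆ E, PG k n D E'

/-- [Par] the two-by-two relations and the ratio bound for the partial count -/
def St_Par : Prop :=
  ∀ (V : Type) [Fintype V] [DecidableEq V] (E A : Finset (Sym2 V)) (Y : Finset V) (D : ℕ),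
    A ⊆ E → (∀ e ∈ E, ¬ e.IsDiag) → (∀ v, (nb E v).card ≤ D) →
    (∀ e ∈ E, ∀ v ∈ Y, v ∈ e → e ∈ A) → ∀ g : Gad V, IsGad E A Y D g →
    ((∀ x, Act g x → Gap1 ((2 : ℝ≥0) ^ D)⁻¹ fun a b => part A Y (upd g x a b)) ∨
      ∀ x, Act g x → Gap2 ((2 : ℝ≥0) ^ D)⁻¹ fun a b => part A Y (upd g x a b)) ∧
    ∀ x, part A Y x ≤ 2 ^ (2 * D ^ 2) * part A Y (rst g x)

/-- [Conc] concentration of the number of active gadgets -/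
def St_Conc : Prop :=
  ∀ (V : Type) [Fintype V] [DecidableEq V] (f : (V → Bool) → ℝ≥0) (U : Finset V) (ε K : ℝ≥0)
    (r : ℕ) (J : Finset (Gad V)), Fam f U ε K r J → 1 ≤ K → ∀ ρ : ℝ, 0 ≤ ρ → ρ ≤ 1 →
    ∀ x₀ : V → Bool,
    ∑ x ∈ univ.filter (fun x : V → Bool => ∀ v ∈ U, x v = x₀ v), ρ ^ nact J x * (f x : ℝ) ≤
      (1 - (1 - ρ) / (K * 2 ^ r)) ^ J.card *
        ∑ x ∈ univ.filter (fun x : V → Bool => ∀ v ∈ U, x v = x₀ v), (f x : ℝ)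

/-- [Aff] affinity of a block-rank-one matrix and a matrix with a gap; `ρ = 1 - (ε/15)^2` -/
def St_Aff : Prop :=
  ∀ ε : ℝ≥0, 0 < ε → ε ≤ 1 → ∃ ρ : ℝ, 0 ≤ ρ ∧ ρ < 1 ∧ ∀ M T : Bool → Bool → ℝ≥0,
    (Gap1 ε M ∨ Gap2 ε M) → Four (T true true) (T true false) (T false true) (T false false) →
    (∑ a, ∑ b, Real.sqrt (T a b * M a b)) ^ 2 ≤
      ρ * (∑ a, ∑ b, (T a b : ℝ)) * (∑ a, ∑ b, (M a b : ℝ))

/-- [B1] broken terms -/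
def St_B1 : Prop :=
  ∀ ε : ℝ≥0, 0 < ε → ε ≤ 1 → ∃ ρ : ℝ, 0 ≤ ρ ∧ ρ < 1 ∧
    ∀ (V : Type) [Fintype V] [DecidableEq V] (f : (V → Bool) → ℝ≥0) (U : Finset V) (K : ℝ≥0)
      (r : ℕ) (J : Finset (Gad V)), Fam f U ε K r J → ∀ (T : (V → Bool) → ℝ≥0) (κ : ℝ≥0)
      (x₀ : V → Bool), (∀ x, (∀ v ∈ U, x v = x₀ v) → T x ≤ κ * f x) →
      (∀ g ∈ J, PairB T g.p g.q) →
      ∑ x ∈ univ.filter (fun x : V → Bool => ∀ v ∈ U, x v = x₀ v), (T x : ℝ) ≤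
        κ * ∑ x ∈ univ.filter (fun x : V → Bool => ∀ v ∈ U, x v = x₀ v),
          ρ ^ nact J x * (f x : ℝ)

/-- [MV] maximal volume: a finite family of vectors in the span of `W` vectors has `≤ W` members
which generate all of them with coefficients in `[-1, 1]` -/
def St_MV : Prop :=
  ∀ (X I : Type) [Fintype X] [DecidableEq X] [Fintype I] [DecidableEq I] (W : ℕ) (τ : I → X → ℝ)
    (u : Fin W → X → ℝ) (v : Fin W → I → ℝ), (∀ t s, τ t s = ∑ i, u i s * v i t) →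
    ∃ B : Finset I, B.card ≤ W ∧ ∀ t, ∃ l : I → ℝ, (∀ b, |l b| ≤ 1) ∧
      ∀ s, τ t s = ∑ b ∈ B, l b * τ b s

/-- [Rk] the core estimate for real rank `W` -/
def St_Rk : Prop :=
  ∀ ε : ℝ≥0, 0 < ε → ε ≤ 1 → ∃ ρ : ℝ, 0 ≤ ρ ∧ ρ < 1 ∧
    ∀ (J : Type) [Fintype J] [DecidableEq J] (L : Finset J) (F T : (J → Bool) → (J → Bool) → ℝ≥0)
      (κ : ℝ≥0) (W : ℕ) (u v : Fin W → (J → Bool) → ℝ),
      (∀ i ∈ L, (∀ s t, Gap1 ε fun a b => F (Function.update s i a) (Function.update t i b)) ∨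
        ∀ s t, Gap2 ε fun a b => F (Function.update s i a) (Function.update t i b)) →
      (∀ s t, T s t ≤ κ * F s t) → (∀ s t, (T s t : ℝ) = ∑ i, u i s * v i t) →
      ∑ s, ∑ t, (T s t : ℝ) ≤ κ * W * ρ ^ L.card * ∑ s, ∑ t, (F s t : ℝ)

/-- [B2] terms of rank `W` -/
def St_B2 : Prop :=
  ∀ ε : ℝ≥0, 0 < ε → ε ≤ 1 → ∃ ρ : ℝ, 0 ≤ ρ ∧ ρ < 1 ∧
    ∀ (V : Type) [Fintype V] [DecidableEq V] (f : (V → Bool) → ℝ≥0) (U : Finset V) (K : ℝ≥0)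
      (r : ℕ) (J : Finset (Gad V)), Fam f U ε K r J → ∀ (T : (V → Bool) → ℝ≥0) (κ : ℝ≥0)
      (x₀ : V → Bool), (∀ x, (∀ v ∈ U, x v = x₀ v) → T x ≤ κ * f x) →
      ∀ (S : Finset V) (W : ℕ), RankLe W T S → (∀ g ∈ J, g.p ∈ S ∧ g.q ∉ S) →
      ∑ x ∈ univ.filter (fun x : V → Bool => ∀ v ∈ U, x v = x₀ v), (T x : ℝ) ≤
        κ * W * ∑ x ∈ univ.filter (fun x : V → Bool => ∀ v ∈ U, x v = x₀ v),
          ρ ^ nact J x * (f x : ℝ)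

/-- [Sel1] gadgets, many eliminated variables -/
def St_Sel1 : Prop :=
  ∀ k D : ℕ, 1 ≤ k → ∃ L : ℕ, ∀ (n : ℕ) (E A : Finset (Sym2 (Fin n))) (Y : Finset (Fin n)),
    PG k n D E → A ⊆ E → (∀ e ∈ E, ∀ v ∈ Y, v ∈ e → e ∈ A) → 3 * n ≤ 20000 * k * Y.card →
    ∀ P Q : Finset (Fin n), Disjoint P Q → Disjoint P Y → Disjoint Q Y →
      n ≤ 3000 * k * P.card → n ≤ 3000 * k * Q.card → ∃ J : Finset (Gad (Fin n)),
        (∀ g ∈ J, IsGad E A Y D g ∧ g.p ∈ P ∧ g.q ∈ Q) ∧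
        (∀ g ∈ J, ∀ h ∈ J, g ≠ h → Disjoint g.R h.R) ∧ n ≤ L * J.card

/-- [Sel2] gadgets, few eliminated variables -/
def St_Sel2 : Prop :=
  ∀ D : ℕ, ∃ L : ℕ, ∀ (V : Type) [Fintype V] [DecidableEq V] (E A : Finset (Sym2 V))
    (Y : Finset V), A ⊆ E → (∀ e ∈ E, ¬ e.IsDiag) → (∀ v, (nb E v).card ≤ D) →
    ∀ X : Finset (V × V), (∀ e ∈ X, s(e.1, e.2) ∈ A ∧ e.1 ∉ Y ∧ e.2 ∉ Y) →
      ∃ J : Finset (Gad V), (∀ g ∈ J, IsGad E A Y D g ∧ (g.p, g.q) ∈ X) ∧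
        (∀ g ∈ J, ∀ h ∈ J, g ≠ h → Disjoint g.R h.R) ∧ X.card ≤ L * J.card

/-- [Xp] few eliminated variables: a set which is well linked by the clauses in `A` -/
def St_Xp : Prop :=
  ∀ (k n D : ℕ) (E A : Finset (Sym2 (Fin n))) (Y : Finset (Fin n)), 1 ≤ k → PG k n D E → A ⊆ E →
    E.card ≤ k * A.card → 20000 * k * Y.card < 3 * n →
    ∃ X : Finset (Fin n), Disjoint X Y ∧ n ≤ 1000 * k * X.card ∧
      ∀ S : Finset (Fin n), X.card ≤ 3 * (S ∩ X).card → 3 * (S ∩ X).card ≤ 2 * X.card →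
        n ≤ (univ.filter fun e : Fin n × Fin n =>
          e.1 ∈ X ∧ e.2 ∈ X ∧ e.1 ∈ S ∧ e.2 ∉ S ∧ s(e.1, e.2) ∈ A).card

/-- [Fin] the main theorem -/
def St_Fin : Prop :=
  ∀ k : ℕ, 1 ≤ k → ∃ c : ℝ, 0 < c ∧ ∃ C n₀ : ℕ, ∀ n ≥ n₀, ∃ E : Finset (Sym2 (Fin n)),
    (∀ e ∈ E, ¬ e.IsDiag) ∧ (∀ v, (E.filter fun e => v ∈ e).card ≤ C) ∧
    ∀ (A : Finset (Sym2 (Fin n))) (Y : Finset (Fin n)), A ⊆ E →
      (∀ e ∈ E, ∀ v ∈ Y, v ∈ e → e ∈ A) → E.card ≤ k * A.card →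
      E.card + k * A.card ≤ k * E.card →
      ∀ (F : Finset (Fin n)) (r : Fin n → Bool), Disjoint F Y → (F.card : ℝ) ≤ c * n →
        part A Y r ≠ 0 → ∀ (s W : ℕ) (P : Program Bool (Fin n) s W) (κ : ℝ≥0), 1 ≤ κ →
          (∃ i, ∀ x, (∀ v ∈ F, x v = r v) →
            part A Y x ≤ κ * P.val i x ∧ P.val i x ≤ κ * part A Y x) →
          (2 : ℝ) ^ (c * n) ≤ 2 * κ * (s + W)

end Pool.Agent.EB
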