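import Mathlib
import Pool.Agent.EB.St

/-!
# [Gra2] deletion of the edges at vertices of large degree and of the edges in short cycles
-/

set_option autoImplicit false

namespace Pool.Agent.EB

open Finset

section del

variable {n : ℕ} {E E' : Finset (Sym2 (Fin n))}

/-- no closed walk of length 3 -/
private theorem Gra2_c3 (hE : E' ⊆ E) (hl : ∀ e ∈ E, ¬ e.IsDiag) (hs : ∀ e ∈ E', ¬ Short E e)
    (a b c : Fin n) : ¬ (s(a, b) ∈ E' ∧ s(b, c) ∈ E' ∧ s(c, a) ∈ E') := by
  rintro ⟨h1, h2, h3⟩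
  have n1 : a ≠ b := fun h => hl _ (hE h1) (Sym2.mk_isDiag_iff.mpr h)
  have n2 : b ≠ c := fun h => hl _ (hE h2) (Sym2.mk_isDiag_iff.mpr h)
  have n3 : c ≠ a := fun h => hl _ (hE h3) (Sym2.mk_isDiag_iff.mpr h)
  refine hs _ h1 (Or.inl ⟨![a, b, c], ⟨?_, ?_⟩, rfl⟩)
  · intro i j hij
    fin_cases i <;> fin_cases j <;>
      first
      | rfl
      | exact absurd hij n1
      | exact absurd hij.symm n1
      | exact absurd hij n2
      | exact absurd hij.symm n2
      | exact absurd hij n3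
      | exact absurd hij.symm n3
  · intro i
    fin_cases i
    · exact hE h1
    · exact hE h2
    · exact hE h3

/-- no closed walk of length 4 without repetitions -/
private theorem Gra2_c4 (hE : E' ⊆ E) (hl : ∀ e ∈ E, ¬ e.IsDiag) (hs : ∀ e ∈ E', ¬ Short E e)
    (a b c d : Fin n) (hac : a ≠ c) (hbd : b ≠ d) :
    ¬ (s(a, b) ∈ E' ∧ s(b, c) ∈ E' ∧ s(c, d) ∈ E' ∧ s(d, a) ∈ E') := by
  rintro ⟨h1, h2, h3, h4⟩
  have n1 : a ≠ b := fun h => hl _ (hE h1) (Sym2.mk_isDiag_iff.mpr h)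
  have n2 : b ≠ c := fun h => hl _ (hE h2) (Sym2.mk_isDiag_iff.mpr h)
  have n3 : c ≠ d := fun h => hl _ (hE h3) (Sym2.mk_isDiag_iff.mpr h)
  have n4 : d ≠ a := fun h => hl _ (hE h4) (Sym2.mk_isDiag_iff.mpr h)
  refine hs _ h1 (Or.inr (Or.inl ⟨![a, b, c, d], ⟨?_, ?_⟩, rfl⟩))
  · intro i j hij
    fin_cases i <;> fin_cases j <;>
      first
      | rfl
      | exact absurd hij n1
      | exact absurd hij.symm n1
      | exact absurd hij n2
      | exact absurd hij.symm n2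
      | exact absurd hij n3
      | exact absurd hij.symm n3
      | exact absurd hij n4
      | exact absurd hij.symm n4
      | exact absurd hij hac
      | exact absurd hij.symm hac
      | exact absurd hij hbd
      | exact absurd hij.symm hbd
  · intro i
    fin_cases i
    · exact hE h1
    · exact hE h2
    · exact hE h3
    · exact hE h4

/-- no closed walk of length 5 -/
private theorem Gra2_c5w (hE : E' ⊆ E) (hl : ∀ e ∈ E, ¬ e.IsDiag) (hs : ∀ e ∈ E', ¬ Short E e)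
    (w : Fin 5 → Fin n) (hw : ∀ i, s(w i, w (i + 1)) ∈ E') : False := by
  have hne : ∀ i, w i ≠ w (i + 1) := fun i h => hl _ (hE (hw i)) (Sym2.mk_isDiag_iff.mpr h)
  have hinj : Function.Injective w := by
    intro i j hij
    by_contra hne'
    obtain ⟨t, rfl⟩ : ∃ t, j = i + t := ⟨j - i, (add_sub_cancel i j).symm⟩
    have h0 := hw i
    have h1 := hw (i + 1)
    have h2 := hw (i + 2)
    have h3 := hw (i + 3)
    have h4 := hw (i + 4)
    have g4 := hne (i + 4)
    rw [(by decide : ∀ i : Fin 5, i + 1 + 1 = i + 2) i] at h1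
    rw [(by decide : ∀ i : Fin 5, i + 2 + 1 = i + 3) i] at h2
    rw [(by decide : ∀ i : Fin 5, i + 3 + 1 = i + 4) i] at h3
    rw [(by decide : ∀ i : Fin 5, i + 4 + 1 = i) i] at h4 g4
    fin_cases t
    · exact hne' (by simp)
    · exact hne i hij
    · have hij' : w i = w (i + 2) := hij
      rw [hij'] at h4
      exact Gra2_c3 hE hl hs _ _ _ ⟨h2, h3, h4⟩
    · have hij' : w i = w (i + 3) := hij
      rw [← hij'] at h2
      exact Gra2_c3 hE hl hs _ _ _ ⟨h0, h1, h2⟩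
    · exact g4 hij.symm
  exact hs _ (hw 0) (Or.inr (Or.inr (Or.inl ⟨w, ⟨hinj, fun i => hE (hw i)⟩, rfl⟩)))

private theorem Gra2_c5 (hE : E' ⊆ E) (hl : ∀ e ∈ E, ¬ e.IsDiag) (hs : ∀ e ∈ E', ¬ Short E e)
    (a b c d e : Fin n) :
    ¬ (s(a, b) ∈ E' ∧ s(b, c) ∈ E' ∧ s(c, d) ∈ E' ∧ s(d, e) ∈ E' ∧ s(e, a) ∈ E') := by
  rintro ⟨h1, h2, h3, h4, h5⟩
  refine Gra2_c5w hE hl hs ![a, b, c, d, e] ?_
  intro i
  fin_cases i
  · exact h1
  · exact h2
  · exact h3
  · exact h4
  · exact h5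

/-- no closed walk of length 7 -/
private theorem Gra2_c7w (hE : E' ⊆ E) (hl : ∀ e ∈ E, ¬ e.IsDiag) (hs : ∀ e ∈ E', ¬ Short E e)
    (w : Fin 7 → Fin n) (hw : ∀ i, s(w i, w (i + 1)) ∈ E') : False := by
  have hne : ∀ i, w i ≠ w (i + 1) := fun i h => hl _ (hE (hw i)) (Sym2.mk_isDiag_iff.mpr h)
  have hinj : Function.Injective w := by
    intro i j hij
    by_contra hne'
    obtain ⟨t, rfl⟩ : ∃ t, j = i + t := ⟨j - i, (add_sub_cancel i j).symm⟩
    have h0 := hw i
    have h1 := hw (i + 1)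
    have h2 := hw (i + 2)
    have h3 := hw (i + 3)
    have h4 := hw (i + 4)
    have h5 := hw (i + 5)
    have h6 := hw (i + 6)
    have g6 := hne (i + 6)
    rw [(by decide : ∀ i : Fin 7, i + 1 + 1 = i + 2) i] at h1
    rw [(by decide : ∀ i : Fin 7, i + 2 + 1 = i + 3) i] at h2
    rw [(by decide : ∀ i : Fin 7, i + 3 + 1 = i + 4) i] at h3
    rw [(by decide : ∀ i : Fin 7, i + 4 + 1 = i + 5) i] at h4
    rw [(by decide : ∀ i : Fin 7, i + 5 + 1 = i + 6) i] at h5
    rw [(by decide : ∀ i : Fin 7, i + 6 + 1 = i) i] at h6 g6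
    fin_cases t
    · exact hne' (by simp)
    · exact hne i hij
    · have hij' : w i = w (i + 2) := hij
      rw [hij'] at h6
      exact Gra2_c5 hE hl hs _ _ _ _ _ ⟨h2, h3, h4, h5, h6⟩
    · have hij' : w i = w (i + 3) := hij
      rw [← hij'] at h2
      exact Gra2_c3 hE hl hs _ _ _ ⟨h0, h1, h2⟩
    · have hij' : w i = w (i + 4) := hij
      rw [hij'] at h6
      exact Gra2_c3 hE hl hs _ _ _ ⟨h4, h5, h6⟩
    · have hij' : w i = w (i + 5) := hij
      rw [← hij'] at h4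
      exact Gra2_c5 hE hl hs _ _ _ _ _ ⟨h0, h1, h2, h3, h4⟩
    · exact g6 hij.symm
  exact hs _ (hw 0) (Or.inr (Or.inr (Or.inr ⟨w, ⟨hinj, fun i => hE (hw i)⟩, rfl⟩)))

private theorem Gra2_c7 (hE : E' ⊆ E) (hl : ∀ e ∈ E, ¬ e.IsDiag) (hs : ∀ e ∈ E', ¬ Short E e)
    (a b c d e f g : Fin n) :
    ¬ (s(a, b) ∈ E' ∧ s(b, c) ∈ E' ∧ s(c, d) ∈ E' ∧ s(d, e) ∈ E' ∧ s(e, f) ∈ E' ∧
      s(f, g) ∈ E' ∧ s(g, a) ∈ E') := by
  rintro ⟨h1, h2, h3, h4, h5, h6, h7⟩
  refine Gra2_c7w hE hl hs ![a, b, c, d, e, f, g] ?_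
  intro i
  fin_cases i
  · exact h1
  · exact h2
  · exact h3
  · exact h4
  · exact h5
  · exact h6
  · exact h7

/-- the sum of the degrees -/
private theorem Gra2_deg (E : Finset (Sym2 (Fin n))) :
    ∑ v, (nb E v).card ≤ 2 * E.card := by
  classical
  have h1 : ∑ v, (nb E v).card =
      (univ.filter fun p : Fin n × Fin n => s(p.1, p.2) ∈ E).card := by
    rw [card_filter, ← univ_product_univ, sum_product]
    refine sum_congr rfl fun v _ => ?_
    unfold nb
    rw [card_filter]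
  rw [h1]
  refine card_le_mul_card_image_of_maps_to (f := fun p : Fin n × Fin n => s(p.1, p.2))
    (fun p hp => (mem_filter.mp hp).2) 2 ?_
  intro e he
  induction e using Sym2.ind with
  | _ x y =>
    have h2 : ((univ.filter fun p : Fin n × Fin n => s(p.1, p.2) ∈ E).filter
        fun p => s(p.1, p.2) = s(x, y)) ⊆ {(x, y), (y, x)} := by
      intro p hp
      have h3 := (mem_filter.mp hp).2
      rw [Sym2.eq_iff] at h3
      rw [mem_insert, mem_singleton]
      rcases h3 with ⟨h4, h5⟩ | ⟨h4, h5⟩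
      · exact Or.inl (Prod.ext h4 h5)
      · exact Or.inr (Prod.ext h4 h5)
    exact (card_le_card h2).trans card_le_two

end del

theorem thm_Gra2 : St_Gra2 := by
  classical
  intro k hk
  set d : ℕ := 10 ^ 10 * k ^ 2 with hd
  have hk2 : 1 ≤ k ^ 2 := Nat.one_le_pow _ _ hk
  have hd1 : 10 ^ 10 ≤ d := by
    rw [hd]
    nlinarith
  refine ⟨16 * d ^ 2, 1, fun n hn E hE => ?_⟩
  set H : Finset (Fin n) := univ.filter fun v => 16 * d ^ 2 < (nb E v).card with hH
  set E1 := E.filter fun e => ∃ v ∈ e, v ∈ H with hE1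
  set E2 := E.filter fun e => Short E e with hE2
  set E' := E \ (E1 ∪ E2) with hE'
  have hsub : E' ⊆ E := sdiff_subset
  have hnH : ∀ e ∈ E', ∀ v ∈ e, v ∉ H := by
    intro e he v hv hvH
    have h1 := mem_sdiff.mp he
    exact h1.2 (mem_union_left _ (mem_filter.mpr ⟨h1.1, v, hv, hvH⟩))
  have hnS : ∀ e ∈ E', ¬ Short E e := by
    intro e he hS
    have h1 := mem_sdiff.mp he
    exact h1.2 (mem_union_right _ (mem_filter.mpr ⟨h1.1, hS⟩))
  -- few vertices of large degree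
  have hHc : 4 * 10 ^ 10 * k ^ 2 * H.card ≤ n := by
    have h1 : H.card * (16 * d ^ 2) ≤ 2 * E.card := by
      calc H.card * (16 * d ^ 2) = ∑ _v ∈ H, 16 * d ^ 2 := by rw [sum_const, smul_eq_mul]
        _ ≤ ∑ v ∈ H, (nb E v).card := sum_le_sum fun v hv => (mem_filter.mp hv).2.le
        _ ≤ ∑ v, (nb E v).card := sum_le_sum_of_subset (subset_univ _)
        _ ≤ 2 * E.card := Gra2_deg E
    have h2 : E.card ≤ 2 * d * n := by
      have := hE.tot2
      rw [hd]
      linarith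
    have h3 : (4 * d) * (4 * d * H.card) ≤ (4 * d) * n := by
      calc (4 * d) * (4 * d * H.card) = H.card * (16 * d ^ 2) := by ring
        _ ≤ 2 * E.card := h1
        _ ≤ 2 * (2 * d * n) := by omega
        _ = (4 * d) * n := by ring
    have h4 : 4 * d * H.card ≤ n := Nat.le_of_mul_le_mul_left h3 (by omega)
    calc 4 * 10 ^ 10 * k ^ 2 * H.card = 4 * d * H.card := by rw [hd]; ring
      _ ≤ n := h4
  have hE1c : E1.card ≤ 2 * n := hE.R4 H hHc
  have hE2c : E2.card ≤ n := hE.R5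
  have hrem : (E1 ∪ E2).card ≤ 3 * n := (card_union_le _ _).trans (by omega)
  have hcard : E.card ≤ E'.card + 3 * n := by
    have h1 : E.card ≤ E'.card + (E1 ∪ E2).card := by
      have h2 : E ⊆ E' ∪ (E1 ∪ E2) := by
        intro e he
        by_cases h : e ∈ E1 ∪ E2
        · exact mem_union_right _ h
        · exact mem_union_left _ (mem_sdiff.mpr ⟨he, h⟩)
      exact (card_le_card h2).trans (card_union_le _ _)
    omega
  refine ⟨E', hsub, ?_⟩
  refine ⟨fun e he => hE.loop e (hsub he), ?_, Gra2_c3 hsub hE.loop hnS,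
    Gra2_c4 hsub hE.loop hnS, Gra2_c5 hsub hE.loop hnS, Gra2_c7 hsub hE.loop hnS, ?_, ?_, ?_, ?_⟩
  · -- degrees
    intro v
    by_cases hv : v ∈ H
    · have h1 : nb E' v = ∅ := by
        apply filter_eq_empty_iff.mpr
        intro w _ hw
        exact hnH _ hw v (Sym2.mem_mk_left v w) hv
      rw [h1, card_empty]
      exact Nat.zero_le _
    · have h1 : (nb E v).card ≤ 16 * d ^ 2 := by
        by_contra h
        exact hv (mem_filter.mpr ⟨mem_univ _, not_le.mp h⟩)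
      refine le_trans (card_le_card ?_) h1
      intro w hw
      exact mem_filter.mpr ⟨mem_univ _, hsub (mem_filter.mp hw).2⟩
  · -- the number of edges
    have h1 := hE.tot
    have h2 : n ≤ k ^ 2 * n := Nat.le_mul_of_pos_left _ (by omega)
    have h3 : 10 ^ 10 * k ^ 2 * n = 10 ^ 10 * (k ^ 2 * n) := by ring
    have h4 : 10 ^ 9 * k ^ 2 * n = 10 ^ 9 * (k ^ 2 * n) := by ring
    rw [h3] at h1
    rw [h4]
    omega
  · -- edges between large sets
    intro S T hST hS hT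
    have h1 := hE.R1 S T hST hS hT
    have h2 : ∃ e ∈ E.filter (fun e => ∃ u ∈ S, ∃ v ∈ T, e = s(u, v)), e ∉ E1 ∪ E2 := by
      by_contra hcon
      push Not at hcon
      have h3 : E.filter (fun e => ∃ u ∈ S, ∃ v ∈ T, e = s(u, v)) ⊆ E1 ∪ E2 := hcon
      have h4 := card_le_card h3
      omega
    obtain ⟨e, he, hne⟩ := h2
    obtain ⟨heE, u, hu, v, hv, rfl⟩ := mem_filter.mp he
    exact ⟨u, hu, v, hv, mem_sdiff.mpr ⟨heE, hne⟩⟩
  · intro S hS
    refine le_trans (card_le_card ?_) (hE.R2 S hS)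
    intro e he
    obtain ⟨h1, h2⟩ := mem_filter.mp he
    exact mem_filter.mpr ⟨hsub h1, h2⟩
  · intro S hS
    refine le_trans (card_le_card ?_) (hE.R3 S hS)
    intro e he
    obtain ⟨h1, h2⟩ := mem_filter.mp he
    exact mem_filter.mpr ⟨hsub h1, h2⟩

end Pool.Agent.EB
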