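import Pool.Agent.EB.St

set_option autoImplicit false

/-!
# [MV] maximal volume basis
-/

namespace Pool.Agent.EB

open Finset Module

/-- a spanning finite family contains a basis in which all members of the family have coordinates
in `[-1, 1]` -/
theorem MV_basis {I E : Type*} [Finite I] [AddCommGroup E] [Module ℝ E] (τ : I → E)
    (hτ : Submodule.span ℝ (Set.range τ) = ⊤) :
    ∃ (κ : Type) (_ : Fintype κ) (c : κ → I) (b : Basis κ ℝ E), (∀ j, b j = τ (c j)) ∧
      ∀ t j, |b.repr (τ t) j| ≤ 1 := by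
  classical
  obtain ⟨κ', a, hinj, hspan, hli⟩ := exists_linearIndependent' ℝ τ
  have hfin : Finite κ' := Finite.of_injective a hinj
  obtain ⟨n, ⟨eq⟩⟩ := Finite.exists_equiv_fin κ'
  have hli' : LinearIndependent ℝ (τ ∘ a ∘ eq.symm) := by
    have := hli.comp eq.symm eq.symm.injective
    exact this
  have hsp' : ⊤ ≤ Submodule.span ℝ (Set.range (τ ∘ a ∘ eq.symm)) := by
    have h1 : Set.range (τ ∘ a ∘ eq.symm) = Set.range (τ ∘ a) := by
      rw [← Function.comp_assoc]
      exact eq.symm.surjective.range_comp (τ ∘ a)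
    rw [h1, hspan, hτ]
  obtain ⟨e, he⟩ : ∃ e : Basis (Fin n) ℝ E, e = Basis.mk hli' hsp' := ⟨_, rfl⟩
  have hne : Nonempty (Fin n → I) := ⟨a ∘ eq.symm⟩
  obtain ⟨c, hc⟩ := Finite.exists_max (fun c : Fin n → I => |e.det (τ ∘ c)|)
  have h1 : e.det (τ ∘ (a ∘ eq.symm)) = 1 := by
    have h2 : (τ ∘ (a ∘ eq.symm)) = e := by
      rw [he]
      funext j
      rw [Basis.mk_apply]
    rw [h2]
    exact e.det_self
  have hpos : 0 < |e.det (τ ∘ c)| := by
    have h2 : |e.det (τ ∘ (a ∘ eq.symm))| ≤ |e.det (τ ∘ c)| := hc (a ∘ eq.symm)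
    rw [h1, abs_one] at h2
    linarith
  have hdet : e.det (τ ∘ c) ≠ 0 := abs_pos.mp hpos
  obtain ⟨hli2, hsp2⟩ := (Basis.is_basis_iff_det e).mpr (isUnit_iff_ne_zero.mpr hdet)
  refine ⟨Fin n, inferInstance, c, Basis.mk hli2 hsp2.ge, fun j => Basis.mk_apply hli2 hsp2.ge j,
    fun t j => ?_⟩
  have h3 := congrArg (fun φ : E →ₗ[ℝ] ℝ => φ (τ t)) (e.det_smul_mk_coord_eq_det_update hli2 hsp2.ge j)
  simp only [LinearMap.smul_apply, smul_eq_mul, MultilinearMap.toLinearMap_apply] at h3
  have h4 : Function.update (τ ∘ c) j (τ t) = τ ∘ (Function.update c j t) := by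
    rw [Function.comp_update]
  have h5 : (Basis.mk hli2 hsp2.ge).coord j (τ t) = (Basis.mk hli2 hsp2.ge).repr (τ t) j := rfl
  rw [h4, h5] at h3
  have h6 : |e.det (τ ∘ Function.update c j t)| ≤ |e.det (τ ∘ c)| := hc (Function.update c j t)
  have h7 : |e.det (τ ∘ c)| * |(Basis.mk hli2 hsp2.ge).repr (τ t) j| ≤ |e.det (τ ∘ c)| * 1 := by
    rw [← abs_mul, mul_one]
    have h8 : e.det (τ ∘ c) * (Basis.mk hli2 hsp2.ge).repr (τ t) j =
      e.det (τ ∘ Function.update c j t) := h3
    rw [h8]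
    exact h6
  exact le_of_mul_le_mul_left h7 hpos

theorem thm_MV : St_MV := by
  intro X I _ _ _ _ W τ u v h
  classical
  obtain ⟨E, hE⟩ : ∃ E : Submodule ℝ (X → ℝ), E = Submodule.span ℝ (Set.range τ) := ⟨_, rfl⟩
  have hEu : E ≤ Submodule.span ℝ (Set.range u) := by
    rw [hE, Submodule.span_le]
    rintro _ ⟨t, rfl⟩
    have h1 : τ t = ∑ i, v i t • u i := by
      ext s
      rw [h, Finset.sum_apply]
      exact Finset.sum_congr rfl fun i _ => by rw [Pi.smul_apply, smul_eq_mul, mul_comm]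
    rw [h1]
    exact Submodule.sum_mem _ fun i _ => Submodule.smul_mem _ _ (Submodule.subset_span ⟨i, rfl⟩)
  have hr : finrank ℝ E ≤ W := by
    refine (Submodule.finrank_mono hEu).trans ?_
    have h1 := finrank_range_le_card (R := ℝ) u
    rw [Fintype.card_fin] at h1
    exact h1
  obtain ⟨τ', hτ'⟩ : ∃ τ' : I → E, ∀ t, (τ' t : X → ℝ) = τ t := by
    refine ⟨fun t => ⟨τ t, ?_⟩, fun t => rfl⟩
    rw [hE]
    exact Submodule.subset_span ⟨t, rfl⟩
  have hspan : Submodule.span ℝ (Set.range τ') = ⊤ := by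
    have h1 : Submodule.map E.subtype (Submodule.span ℝ (Set.range τ')) =
        Submodule.map E.subtype ⊤ := by
      rw [Submodule.map_span, Submodule.map_top, Submodule.range_subtype, ← Set.range_comp]
      have h2 : (E.subtype ∘ τ') = τ := by
        funext t
        exact hτ' t
      rw [h2, hE]
    exact Submodule.map_injective_of_injective E.injective_subtype h1
  obtain ⟨κ, hκ, c, b, hb, hle⟩ := MV_basis τ' hspan
  have hcard : Fintype.card κ ≤ W := by
    rw [← finrank_eq_card_basis b]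
    exact hr
  have hcinj : Function.Injective c := by
    intro i j hij
    apply b.injective
    rw [hb, hb, hij]
  refine ⟨Finset.univ.image c, card_image_le.trans (by rw [card_univ]; exact hcard), fun t => ?_⟩
  refine ⟨fun i => if h : ∃ j, c j = i then b.repr (τ' t) h.choose else 0, fun i => ?_,
    fun s => ?_⟩
  · dsimp only
    split_ifs with h
    · exact hle t _
    · rw [abs_zero]; exact zero_le_one
  · rw [Finset.sum_image (fun i _ j _ hij => hcinj hij)]
    have h1 := b.sum_repr (τ' t)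
    have h2 := congrArg (fun e : E => (e : X → ℝ) s) h1
    simp only [Submodule.coe_sum, Submodule.coe_smul, Finset.sum_apply, Pi.smul_apply,
      smul_eq_mul] at h2
    rw [hτ'] at h2
    rw [← h2]
    apply Finset.sum_congr rfl
    intro j _
    have h3 : ∃ j', c j' = c j := ⟨j, rfl⟩
    have h4 : h3.choose = j := hcinj h3.choose_spec
    dsimp only
    rw [dif_pos h3, h4, hb, hτ']

end Pool.Agent.EB
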