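import Pool.Agent.EB.St
import Mathlib

/-!
# The core estimate for real rank `W`

Module of helper35, written by helper73.
-/

set_option autoImplicit false

namespace Pool.Agent.EB

open Finset Pool.Agent.WD
open scoped NNReal

section

variable {J : Type} [Fintype J] [DecidableEq J]

/-- the sum of the values for both values of the variable `i` -/
private def Rk_s (i : J) (x : (J → Bool) → ℝ) (s : J → Bool) : ℝ :=
  x (Function.update s i true) + x (Function.update s i false)

private theorem Rk_sum (i : J) (x : (J → Bool) → ℝ) : ∑ s, Rk_s i x s = 2 * ∑ s, x s := by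
  have hinv : Function.Involutive (fun s : J → Bool => Function.update s i (!s i)) := by
    intro s
    funext j
    by_cases hj : j = i
    · subst hj
      simp
    · simp [Function.update_of_ne hj]
  have h1 : ∀ s, Rk_s i x s = x s + x (hinv.toPerm _ s) := by
    intro s
    have h2 : hinv.toPerm _ s = Function.update s i (!s i) := rfl
    rw [h2]
    unfold Rk_s
    cases hs : s i
    · have h3 : Function.update s i false = s := by
        rw [← hs, Function.update_eq_self]
      rw [h3, add_comm]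
      rfl
    · have h3 : Function.update s i true = s := by
        rw [← hs, Function.update_eq_self]
      rw [h3]
      rfl
  rw [sum_congr rfl fun s _ => h1 s, sum_add_distrib, Equiv.sum_comp]
  ring

omit [Fintype J] in
private theorem Rk_upd {i j : J} (hij : j ≠ i) (x : (J → Bool) → ℝ) (s : J → Bool) (a : Bool) :
    Rk_s i x (Function.update s j a) = x (Function.update (Function.update s i true) j a) +
      x (Function.update (Function.update s i false) j a) := by
  unfold Rk_s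
  rw [Function.update_comm hij, Function.update_comm hij]

/-- a relation between the values for the two values of the variable `i` -/
private def Rk_R (P : ℝ → ℝ → Prop) (x : (J → Bool) → ℝ) (i : J) : Prop :=
  ∀ s, P (x (Function.update s i true)) (x (Function.update s i false))

omit [Fintype J] in
private theorem Rk_Rs {P : ℝ → ℝ → Prop}
    (hP : ∀ a b a' b', P a b → P a' b' → P (a + a') (b + b')) {i j : J} (hij : j ≠ i)
    {x : (J → Bool) → ℝ} (h : Rk_R P x j) : Rk_R P (Rk_s i x) j := by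
  intro s
  rw [Rk_upd hij, Rk_upd hij]
  exact hP _ _ _ _ (h _) (h _)

/-- the relations between two columns which differ at `i` -/
private def Rk_PR (e : ℝ) (x y : (J → Bool) → ℝ) (i : J) : Prop :=
  (Rk_R (fun a b => (1 + e) * b ≤ a ∧ a ≤ 2 * b) x i ∧ Rk_R (fun a b => a = b) y i) ∨
  (Rk_R (fun a b => a = b) x i ∧ Rk_R (fun a b => (1 + e) * b ≤ a ∧ a ≤ 2 * b) y i) ∨
  (Rk_R (fun a b => e * a ≤ b) x i ∧ Rk_R (fun _ b => b = 0) y i) ∨
  (Rk_R (fun _ b => b = 0) x i ∧ Rk_R (fun a b => e * a ≤ b) y i)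

omit [Fintype J] in
private theorem Rk_PRs {e : ℝ} {x y : (J → Bool) → ℝ} {i j : J} (hij : j ≠ i)
    (h : Rk_PR e x y j) : Rk_PR e (Rk_s i x) (Rk_s i y) j := by
  have h1 : ∀ a b a' b' : ℝ, ((1 + e) * b ≤ a ∧ a ≤ 2 * b) → ((1 + e) * b' ≤ a' ∧ a' ≤ 2 * b') →
      ((1 + e) * (b + b') ≤ a + a' ∧ a + a' ≤ 2 * (b + b')) := by
    rintro a b a' b' ⟨h1, h2⟩ ⟨h3, h4⟩
    constructor <;> linarith
  have h2 : ∀ a b a' b' : ℝ, a = b → a' = b' → a + a' = b + b' := by
    intro a b a' b' h1 h2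
    rw [h1, h2]
  have h3 : ∀ a b a' b' : ℝ, e * a ≤ b → e * a' ≤ b' → e * (a + a') ≤ b + b' := by
    intro a b a' b' h1 h2
    linarith
  have h4 : ∀ _a b _a' b' : ℝ, b = 0 → b' = 0 → b + b' = 0 := by
    intro _ b _ b' h1 h2
    rw [h1, h2, add_zero]
  rcases h with ⟨a, b⟩ | ⟨a, b⟩ | ⟨a, b⟩ | ⟨a, b⟩
  · exact Or.inl ⟨Rk_Rs (P := fun a b => (1 + e) * b ≤ a ∧ a ≤ 2 * b) h1 hij a,
      Rk_Rs (P := fun a b => a = b) h2 hij b⟩
  · exact Or.inr (Or.inl ⟨Rk_Rs (P := fun a b => a = b) h2 hij a,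
      Rk_Rs (P := fun a b => (1 + e) * b ≤ a ∧ a ≤ 2 * b) h1 hij b⟩)
  · exact Or.inr (Or.inr (Or.inl ⟨Rk_Rs (P := fun a b => e * a ≤ b) h3 hij a,
      Rk_Rs (P := fun _ b => b = 0) h4 hij b⟩))
  · exact Or.inr (Or.inr (Or.inr ⟨Rk_Rs (P := fun _ b => b = 0) h4 hij a,
      Rk_Rs (P := fun a b => e * a ≤ b) h3 hij b⟩))

/-! ### two points -/

private theorem Rk_two1 {e a b y : ℝ} (he : 0 < e) (he1 : e ≤ 1) (hb : 0 ≤ b)
    (hy : 0 ≤ y) (h1 : (1 + e) * b ≤ a) (h2 : a ≤ 2 * b) :
    Real.sqrt (a * y) + Real.sqrt (b * y) ≤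
      (1 - e ^ 2 / 100) * Real.sqrt ((a + b) * (y + y)) := by
  have ha : 0 ≤ a := le_trans (by positivity) h1
  obtain ⟨p, hp⟩ : ∃ p, p = Real.sqrt a := ⟨_, rfl⟩
  obtain ⟨q, hq⟩ : ∃ q, q = Real.sqrt b := ⟨_, rfl⟩
  have hp0 : 0 ≤ p := by rw [hp]; exact Real.sqrt_nonneg _
  have hq0 : 0 ≤ q := by rw [hq]; exact Real.sqrt_nonneg _
  have hpa : p ^ 2 = a := by rw [hp]; exact Real.sq_sqrt ha
  have hqb : q ^ 2 = b := by rw [hq]; exact Real.sq_sqrt hb
  have e1 : Real.sqrt (a * y) + Real.sqrt (b * y) = (p + q) * Real.sqrt y := by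
    rw [Real.sqrt_mul ha, Real.sqrt_mul hb, hp, hq]
    ring
  have e2 : Real.sqrt ((a + b) * (y + y)) = Real.sqrt (2 * (a + b)) * Real.sqrt y := by
    rw [← Real.sqrt_mul (by positivity)]
    congr 1
    ring
  rw [e1, e2, ← mul_assoc]
  refine mul_le_mul_of_nonneg_right ?_ (Real.sqrt_nonneg _)
  have hc : 0 ≤ 1 - e ^ 2 / 100 := by nlinarith
  -- square
  have key : (p + q) ^ 2 ≤ (1 - e ^ 2 / 50) * (2 * (a + b)) := by
    rw [← hpa, ← hqb] at h1 h2 ⊢
    -- `(p - q) ^ 2 ≥ (4/25) e ^ 2 q ^ 2`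
    have k1 : p ≤ 3 / 2 * q := by
      by_contra hcon
      push Not at hcon
      nlinarith
    have k2 : q ≤ p := by
      by_contra hcon
      push Not at hcon
      nlinarith
    have k3 : e * q ^ 2 ≤ (p - q) * (5 / 2 * q) := by
      have : (p - q) * (p + q) ≤ (p - q) * (5 / 2 * q) :=
        mul_le_mul_of_nonneg_left (by linarith) (by linarith)
      nlinarith
    have k4 : 2 / 5 * e * q ≤ p - q := by
      rcases eq_or_lt_of_le hq0 with h0 | h0
      · rw [← h0]
        linarith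
      · by_contra hcon
        push Not at hcon
        nlinarith
    have k5 : (2 / 5 * e * q) ^ 2 ≤ (p - q) ^ 2 :=
      pow_le_pow_left₀ (by positivity) k4 2
    have k6 : e ^ 2 * (p ^ 2 + q ^ 2) ≤ e ^ 2 * (3 * q ^ 2) :=
      mul_le_mul_of_nonneg_left (by linarith) (by positivity)
    nlinarith
  have k7 : (1 - e ^ 2 / 50) * (2 * (a + b)) ≤
      ((1 - e ^ 2 / 100) * Real.sqrt (2 * (a + b))) ^ 2 := by
    rw [mul_pow, Real.sq_sqrt (by positivity)]
    refine mul_le_mul_of_nonneg_right ?_ (by positivity)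
    nlinarith [sq_nonneg (e ^ 2)]
  exact abs_le_of_sq_le_sq' (key.trans k7) (mul_nonneg hc (Real.sqrt_nonneg _)) |>.2

private theorem Rk_two2 {e a b y z : ℝ} (he : 0 < e) (he1 : e ≤ 1) (ha : 0 ≤ a)
    (hy : 0 ≤ y) (h1 : e * a ≤ b) (hz : z = 0) :
    Real.sqrt (a * y) + Real.sqrt (b * z) ≤
      (1 - e ^ 2 / 100) * Real.sqrt ((a + b) * (y + z)) := by
  have hb : 0 ≤ b := le_trans (by positivity) h1
  rw [hz, mul_zero, Real.sqrt_zero, add_zero, add_zero]
  have hc : 0 ≤ 1 - e ^ 2 / 100 := by nlinarith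
  rw [Real.sqrt_le_left (mul_nonneg hc (Real.sqrt_nonneg _)), mul_pow,
    Real.sq_sqrt (by positivity)]
  have k1 : (1 - e ^ 2 / 50) ≤ (1 - e ^ 2 / 100) ^ 2 := by nlinarith [sq_nonneg (e ^ 2)]
  have k2 : a ≤ (1 - e ^ 2 / 50) * (a + b) := by
    have k3 : (1 + e) * a ≤ a + b := by linarith
    have k4 : 0 ≤ 1 - e ^ 2 / 50 := by nlinarith
    have k5 := mul_le_mul_of_nonneg_left k3 k4
    have k6 : 1 ≤ (1 - e ^ 2 / 50) * (1 + e) := by nlinarith [mul_pos he he]
    nlinarith
  calc a * y ≤ ((1 - e ^ 2 / 50) * (a + b)) * y := mul_le_mul_of_nonneg_right k2 hy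
    _ = (1 - e ^ 2 / 50) * ((a + b) * y) := by ring
    _ ≤ _ := mul_le_mul_of_nonneg_right k1 (by positivity)

omit [Fintype J] in
private theorem Rk_two {e : ℝ} (he : 0 < e) (he1 : e ≤ 1) {x y : (J → Bool) → ℝ}
    (hx : ∀ s, 0 ≤ x s) (hy : ∀ s, 0 ≤ y s) {i : J} (h : Rk_PR e x y i) (s : J → Bool) :
    Rk_s i (fun s => Real.sqrt (x s * y s)) s ≤
      (1 - e ^ 2 / 100) * Real.sqrt (Rk_s i x s * Rk_s i y s) := by
  show Real.sqrt (x (Function.update s i true) * y (Function.update s i true)) +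
    Real.sqrt (x (Function.update s i false) * y (Function.update s i false)) ≤
    (1 - e ^ 2 / 100) * Real.sqrt
      ((x (Function.update s i true) + x (Function.update s i false)) *
        (y (Function.update s i true) + y (Function.update s i false)))
  rcases h with ⟨h1, h2⟩ | ⟨h1, h2⟩ | ⟨h1, h2⟩ | ⟨h1, h2⟩
  · have e1 := h2 s
    have e2 := h1 s
    simp only at e1 e2
    rw [e1]
    exact Rk_two1 he he1 (hx _) (hy _) e2.1 e2.2
  · have e1 := h1 s
    have e2 := h2 s
    simp only at e1 e2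
    rw [e1]
    have h3 := Rk_two1 he he1 (hy _) (hx (Function.update s i false)) e2.1 e2.2
    rw [mul_comm (x _), mul_comm (x _), mul_comm (_ + _) (y _ + y _)]
    exact h3
  · exact Rk_two2 he he1 (hx _) (hy _) (h1 s) (h2 s)
  · have h3 := Rk_two2 he he1 (hy _) (hx (Function.update s i true)) (h2 s) (h1 s)
    rw [mul_comm (x _), mul_comm (x _), mul_comm (_ + _) (y _ + y _)]
    exact h3

/-! ### the affinity of two columns -/

private theorem Rk_bc {e : ℝ} (he : 0 < e) (he1 : e ≤ 1) (D : Finset J) :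
    ∀ x y : (J → Bool) → ℝ, (∀ s, 0 ≤ x s) → (∀ s, 0 ≤ y s) → (∀ i ∈ D, Rk_PR e x y i) →
      ∑ s, Real.sqrt (x s * y s) ≤
        (1 - e ^ 2 / 100) ^ D.card * Real.sqrt ((∑ s, x s) * ∑ s, y s) := by
  induction D using Finset.induction_on with
  | empty =>
    intro x y hx hy _
    rw [card_empty, pow_zero, one_mul, Real.sqrt_mul (sum_nonneg fun s _ => hx s)]
    refine le_trans (le_of_eq ?_) (Real.sum_sqrt_mul_sqrt_le univ hx hy)
    exact sum_congr rfl fun s _ => Real.sqrt_mul (hx s) _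
  | insert i D hi ih =>
    intro x y hx hy h
    have hc : 0 ≤ 1 - e ^ 2 / 100 := by nlinarith
    have h1 := ih (Rk_s i x) (Rk_s i y) (fun s => add_nonneg (hx _) (hx _))
      (fun s => add_nonneg (hy _) (hy _)) (fun j hj => Rk_PRs (fun h0 => hi (h0 ▸ hj))
        (h j (mem_insert_of_mem hj)))
    rw [Rk_sum, Rk_sum] at h1
    have h2 := Rk_sum i (fun s => Real.sqrt (x s * y s))
    have h3 : ∑ s, Rk_s i (fun s => Real.sqrt (x s * y s)) s ≤
        (1 - e ^ 2 / 100) * ∑ s, Real.sqrt (Rk_s i x s * Rk_s i y s) := by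
      rw [mul_sum]
      exact sum_le_sum fun s _ => Rk_two he he1 hx hy (h i (mem_insert_self _ _)) s
    have h4 : Real.sqrt (2 * (∑ s, x s) * (2 * ∑ s, y s)) =
        2 * Real.sqrt ((∑ s, x s) * ∑ s, y s) := by
      rw [show 2 * (∑ s, x s) * (2 * ∑ s, y s) = 2 ^ 2 * ((∑ s, x s) * ∑ s, y s) by ring,
        Real.sqrt_mul (by norm_num), Real.sqrt_sq (by norm_num)]
    rw [h4] at h1
    rw [h2] at h3
    have h5 := mul_le_mul_of_nonneg_left h1 hc
    rw [card_insert_of_notMem hi, pow_succ]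
    nlinarith

/-! ### the weights -/

private theorem Rk_wt {q η : ℝ} (hq : 0 ≤ q) (hq1 : q ≤ 1) (hη : 0 ≤ η) (hη1 : η ≤ 1)
    (b : J → Bool) (D : Finset J) :
    ∀ c : (J → Bool) → ℝ, (∀ t, 0 ≤ c t) →
      (∀ i ∈ D, ∀ t, η * Rk_s i c t ≤ c (Function.update t i (!b i))) →
      ∑ t, c t * ∏ i ∈ D, (if t i = b i then 1 else q) ≤
        (1 - η * (1 - q)) ^ D.card * ∑ t, c t := by
  induction D using Finset.induction_on with
  | empty =>
    intro c _ _
    simp
  | insert i D hi ih =>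
    intro c hc h
    have hr : 0 ≤ 1 - η * (1 - q) := by nlinarith
    have h1 := ih (Rk_s i c) (fun t => add_nonneg (hc _) (hc _)) (by
      intro j hj t
      have hij : j ≠ i := fun h0 => hi (h0 ▸ hj)
      have h2 := h j (mem_insert_of_mem hj) (Function.update t i true)
      have h3 := h j (mem_insert_of_mem hj) (Function.update t i false)
      rw [Rk_upd hij]
      have h4 : Rk_s j (Rk_s i c) t = Rk_s j c (Function.update t i true) +
          Rk_s j c (Function.update t i false) := by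
        unfold Rk_s
        rw [Function.update_comm hij, Function.update_comm hij, Function.update_comm hij,
          Function.update_comm hij]
        ring
      rw [h4]
      linarith)
    rw [Rk_sum] at h1
    have h2 := Rk_sum i (fun t => c t * ∏ j ∈ insert i D, (if t j = b j then 1 else q))
    have h3 : ∀ t, Rk_s i (fun t => c t * ∏ j ∈ insert i D, (if t j = b j then 1 else q)) t ≤
        (1 - η * (1 - q)) * (Rk_s i c t * ∏ j ∈ D, (if t j = b j then 1 else q)) := by
      intro t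
      obtain ⟨w, hw⟩ : ∃ w : ℝ, w = ∏ j ∈ D, (if t j = b j then 1 else q) := ⟨_, rfl⟩
      have hw0 : 0 ≤ w := by
        rw [hw]
        exact prod_nonneg fun j _ => by split_ifs <;> linarith
      have hu : ∀ a : Bool, (∏ j ∈ insert i D, (if Function.update t i a j = b j then (1 : ℝ)
          else q)) = (if a = b i then 1 else q) * w := by
        intro a
        rw [prod_insert hi, Function.update_self, hw]
        congr 1
        refine prod_congr rfl fun j hj => ?_
        have hij : j ≠ i := fun h0 => hi (h0 ▸ hj)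
        rw [Function.update_of_ne hij]
      rw [← hw]
      show c (Function.update t i true) * (∏ j ∈ insert i D,
          (if Function.update t i true j = b j then (1 : ℝ) else q)) +
        c (Function.update t i false) * (∏ j ∈ insert i D,
          (if Function.update t i false j = b j then (1 : ℝ) else q)) ≤ _
      rw [hu, hu]
      have h4 := h i (mem_insert_self _ _) t
      have h5 : 0 ≤ 1 - q := by linarith
      cases hb : b i
      · rw [hb] at h4
        simp only [Bool.not_false] at h4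
        simp only [Bool.true_eq_false, if_false, if_true]
        have h6 : c (Function.update t i true) * q + c (Function.update t i false) ≤
            (1 - η * (1 - q)) * Rk_s i c t := by
          have h7 := mul_le_mul_of_nonneg_left h4 h5
          unfold Rk_s at h7 ⊢
          nlinarith
        have h7 := mul_le_mul_of_nonneg_right h6 hw0
        linarith
      · rw [hb] at h4
        simp only [Bool.not_true] at h4
        simp only [Bool.false_eq_true, if_false, if_true]
        have h6 : c (Function.update t i true) + c (Function.update t i false) * q ≤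
            (1 - η * (1 - q)) * Rk_s i c t := by
          have h7 := mul_le_mul_of_nonneg_left h4 h5
          unfold Rk_s at h7 ⊢
          nlinarith
        have h7 := mul_le_mul_of_nonneg_right h6 hw0
        linarith
    have h4 : ∑ t, Rk_s i (fun t => c t * ∏ j ∈ insert i D, (if t j = b j then 1 else q)) t ≤
        (1 - η * (1 - q)) * ∑ t, (Rk_s i c t * ∏ j ∈ D, (if t j = b j then 1 else q)) := by
      rw [mul_sum]
      exact sum_le_sum fun t _ => h3 t
    rw [h2] at h4
    have h5 := mul_le_mul_of_nonneg_left h1 hr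
    rw [card_insert_of_notMem hi, pow_succ]
    nlinarith

/-! ### the columns -/

omit [Fintype J] in
private theorem Rk_col {ε : ℝ≥0} {F : (J → Bool) → (J → Bool) → ℝ≥0} {i : J}
    (h : (∀ s t, Gap1 ε fun a b => F (Function.update s i a) (Function.update t i b)) ∨
        ∀ s t, Gap2 ε fun a b => F (Function.update s i a) (Function.update t i b))
    {t b : J → Bool} (htb : t i ≠ b i) :
    Rk_PR (ε : ℝ) (fun s => (F s t : ℝ)) (fun s => (F s b : ℝ)) i := by
  have key : ∀ t : J → Bool, t i = true → ∀ b : J → Bool, b i = false →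
      (Rk_R (fun a b => (1 + (ε : ℝ)) * b ≤ a ∧ a ≤ 2 * b) (fun s => (F s t : ℝ)) i ∧
        Rk_R (fun a b => a = b) (fun s => (F s b : ℝ)) i) ∨
      (Rk_R (fun a b => (ε : ℝ) * a ≤ b) (fun s => (F s t : ℝ)) i ∧
        Rk_R (fun _ b => b = 0) (fun s => (F s b : ℝ)) i) := by
    intro t ht b hb
    have e1 : Function.update t i true = t := by rw [← ht, Function.update_eq_self]
    have e2 : Function.update b i false = b := by rw [← hb, Function.update_eq_self]
    rcases h with h | h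
    · refine Or.inl ⟨fun s => ?_, fun s => ?_⟩
      · obtain ⟨h1, -, h3, h4⟩ := h s t
        simp only [e1] at h1 h3 h4
        rw [← h1] at h3 h4
        exact ⟨by exact_mod_cast h3, by exact_mod_cast h4⟩
      · obtain ⟨-, h2, -, -⟩ := h s b
        simp only [e2] at h2
        show (F _ b : ℝ) = F _ b
        rw [h2]
    · refine Or.inr ⟨fun s => ?_, fun s => ?_⟩
      · obtain ⟨-, h2, -, -, -⟩ := h s t
        simp only [e1] at h2
        show (ε : ℝ) * F _ t ≤ F _ t
        exact_mod_cast h2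
      · obtain ⟨h1, -⟩ := h s b
        simp only [e2] at h1
        show (F _ b : ℝ) = 0
        rw [h1]
        rfl
  cases ht : t i
  · cases hb : b i
    · exact absurd (ht.trans hb.symm) htb
    · rcases key b hb t ht with ⟨h1, h2⟩ | ⟨h1, h2⟩
      · exact Or.inr (Or.inl ⟨h2, h1⟩)
      · exact Or.inr (Or.inr (Or.inr ⟨h2, h1⟩))
  · cases hb : b i
    · rcases key t ht b hb with ⟨h1, h2⟩ | ⟨h1, h2⟩
      · exact Or.inl ⟨h1, h2⟩
      · exact Or.inr (Or.inr (Or.inl ⟨h1, h2⟩))
    · exact absurd (ht.trans hb.symm) htb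

private theorem Rk_cw {ε : ℝ≥0} (hε1 : ε ≤ 1) {F : (J → Bool) → (J → Bool) → ℝ≥0} {i : J}
    (h : (∀ s t, Gap1 ε fun a b => F (Function.update s i a) (Function.update t i b)) ∨
        ∀ s t, Gap2 ε fun a b => F (Function.update s i a) (Function.update t i b))
    (t : J → Bool) (a : Bool) :
    (ε : ℝ) / 3 * Rk_s i (fun t => ∑ s, (F s t : ℝ)) t ≤
      ∑ s, (F s (Function.update t i a) : ℝ) := by
  have h0 : (0 : ℝ) ≤ ε := ε.2
  have h1' : (ε : ℝ) ≤ 1 := by exact_mod_cast hε1
  have hs : ∀ b, ∑ s, (F s (Function.update t i b) : ℝ) =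
      (∑ s, ((F (Function.update s i true) (Function.update t i b) : ℝ) +
        F (Function.update s i false) (Function.update t i b))) / 2 := by
    intro b
    have h2 := Rk_sum i (fun s => (F s (Function.update t i b) : ℝ))
    unfold Rk_s at h2
    rw [h2]
    ring
  show (ε : ℝ) / 3 * (∑ s, (F s (Function.update t i true) : ℝ) +
    ∑ s, (F s (Function.update t i false) : ℝ)) ≤ ∑ s, (F s (Function.update t i a) : ℝ)
  rw [hs true, hs false, hs a, ← add_div, ← sum_add_distrib, mul_div_assoc', mul_sum,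
    div_le_div_iff_of_pos_right (by norm_num)]
  refine sum_le_sum fun s _ => ?_
  obtain ⟨A, hA⟩ : ∃ A : ℝ, A = F (Function.update s i true) (Function.update t i true) := ⟨_, rfl⟩
  obtain ⟨B, hB⟩ : ∃ B : ℝ, B = F (Function.update s i false) (Function.update t i true) :=
    ⟨_, rfl⟩
  obtain ⟨C, hC⟩ : ∃ C : ℝ, C = F (Function.update s i true) (Function.update t i false) :=
    ⟨_, rfl⟩
  obtain ⟨D, hD⟩ : ∃ D : ℝ, D = F (Function.update s i false) (Function.update t i false) :=
    ⟨_, rfl⟩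
  have key : (ε : ℝ) / 3 * (A + B + (C + D)) ≤ A + B ∧
      (ε : ℝ) / 3 * (A + B + (C + D)) ≤ C + D := by
    rcases h with h | h
    · obtain ⟨k1, k2, k3, k4⟩ := h s t
      simp only at k1 k2 k3 k4
      have e1 : B = C := by rw [hB, hC, k1]
      have e2 : D = C := by rw [hD, hC, k2]
      have e3 : (1 + (ε : ℝ)) * C ≤ A := by rw [hC, hA]; exact_mod_cast k3
      have e4 : A ≤ 2 * C := by rw [hC, hA]; exact_mod_cast k4
      have e5 : 0 ≤ C := by rw [hC]; exact NNReal.coe_nonneg _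
      have e6 : (ε : ℝ) * (A + B + (C + D)) ≤ 1 * (A + B + (C + D)) :=
        mul_le_mul_of_nonneg_right h1' (by nlinarith)
      have e7 : 0 ≤ (ε : ℝ) * C := mul_nonneg h0 e5
      constructor <;> linarith
    · obtain ⟨k1, k2, k3, k4, k5⟩ := h s t
      simp only at k1 k2 k3 k4 k5
      have e1 : D = 0 := by rw [hD, k1]; rfl
      have e2 : (ε : ℝ) * A ≤ B := by rw [hA, hB]; exact_mod_cast k2
      have e3 : (ε : ℝ) * A ≤ C := by rw [hA, hC]; exact_mod_cast k3
      have e4 : B ≤ A := by rw [hA, hB]; exact_mod_cast k4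
      have e5 : C ≤ A := by rw [hA, hC]; exact_mod_cast k5
      have e6 : 0 ≤ A := by rw [hA]; exact NNReal.coe_nonneg _
      have e7 : (ε : ℝ) * (A + B + (C + D)) ≤ ε * (3 * A) :=
        mul_le_mul_of_nonneg_left (by linarith) h0
      constructor <;> linarith
  rw [← hA, ← hB, ← hC, ← hD]
  cases a
  · rw [← hC, ← hD]
    exact key.2
  · rw [← hA, ← hB]
    exact key.1

private theorem Rk_sqrt {ι : Type} (B : Finset ι) (a : ι → ℝ) (ha : ∀ b, 0 ≤ a b) :
    Real.sqrt (∑ b ∈ B, a b) ≤ ∑ b ∈ B, Real.sqrt (a b) := by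
  classical
  induction B using Finset.induction_on with
  | empty => simp
  | insert b B hb ih =>
    rw [sum_insert hb, sum_insert hb]
    have h1 : 0 ≤ ∑ b ∈ B, a b := sum_nonneg fun b _ => ha b
    have h2 : Real.sqrt (a b + ∑ b ∈ B, a b) ≤ Real.sqrt (a b) + Real.sqrt (∑ b ∈ B, a b) := by
      rw [Real.sqrt_le_left (add_nonneg (Real.sqrt_nonneg _) (Real.sqrt_nonneg _)), add_sq,
        Real.sq_sqrt (ha b), Real.sq_sqrt h1]
      have := mul_nonneg (Real.sqrt_nonneg (a b)) (Real.sqrt_nonneg (∑ b ∈ B, a b))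
      nlinarith
    linarith

end

theorem thm_Rk (hMV : St_MV) : St_Rk := by
  classical
  intro ε hε hε1
  obtain ⟨e, he⟩ : ∃ e : ℝ, e = (ε : ℝ) := ⟨_, rfl⟩
  have he0 : 0 < e := by rw [he]; exact_mod_cast hε
  have he1 : e ≤ 1 := by rw [he]; exact_mod_cast hε1
  obtain ⟨q, hq⟩ : ∃ q : ℝ, q = 1 - e ^ 2 / 100 := ⟨_, rfl⟩
  have hq0 : 0 ≤ q := by rw [hq]; nlinarith
  have hq1 : q < 1 := by rw [hq]; have := pow_pos he0 2; linarith
  obtain ⟨ρ, hρ⟩ : ∃ ρ : ℝ, ρ = 1 - e / 3 * (1 - q) := ⟨_, rfl⟩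
  have hρ0 : 0 ≤ ρ := by rw [hρ]; nlinarith
  have hρ1 : ρ < 1 := by
    have := mul_pos he0 (sub_pos.2 hq1)
    rw [hρ]
    linarith
  refine ⟨ρ, hρ0, hρ1, ?_⟩
  intro J _ _ L F T κ W u v hgap hT hrk
  obtain ⟨c, hc⟩ : ∃ c : (J → Bool) → ℝ, c = fun t => ∑ s, (F s t : ℝ) := ⟨_, rfl⟩
  have hF0 : ∀ s t, (0 : ℝ) ≤ F s t := fun s t => (F s t).2
  have hT0 : ∀ s t, (0 : ℝ) ≤ T s t := fun s t => (T s t).2
  have hκ0 : (0 : ℝ) ≤ κ := κ.2
  have hTF : ∀ s t, (T s t : ℝ) ≤ κ * F s t := fun s t => by exact_mod_cast hT s t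
  have hc0 : ∀ t, 0 ≤ c t := by
    intro t
    rw [hc]
    exact sum_nonneg fun s _ => hF0 s t
  have hFc : ∀ s t, (F s t : ℝ) ≤ c t := by
    intro s t
    rw [hc]
    exact single_le_sum (f := fun s => (F s t : ℝ)) (fun s _ => hF0 s t) (mem_univ s)
  -- the columns which generate
  obtain ⟨B, hBW, hB⟩ := hMV (J → Bool) (J → Bool) W (fun t s => T s t / c t) u
    (fun i t => v i t / c t) (fun t s => by
      rw [hrk s t, sum_div]
      exact sum_congr rfl fun i _ => mul_div_assoc _ _ _)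
  have hgen : ∀ s t, (T s t : ℝ) ≤ c t * ∑ b ∈ B, T s b / c b := by
    intro s t
    rcases eq_or_lt_of_le (hc0 t) with h0 | h0
    · have h1 : (F s t : ℝ) ≤ 0 := by
        rw [h0]
        exact hFc s t
      have h2 : (κ : ℝ) * F s t ≤ 0 := mul_nonpos_of_nonneg_of_nonpos hκ0 h1
      rw [← h0, zero_mul]
      exact (hTF s t).trans h2
    · obtain ⟨l, hl1, hl2⟩ := hB t
      have h1 := hl2 s
      have h2 : (T s t : ℝ) / c t ≤ ∑ b ∈ B, T s b / c b := by
        rw [h1]
        refine sum_le_sum fun b _ => ?_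
        have h3 : 0 ≤ (T s b : ℝ) / c b := div_nonneg (hT0 s b) (hc0 b)
        exact mul_le_of_le_one_left h3 (le_of_abs_le (hl1 b))
      rw [div_le_iff₀ h0] at h2
      linarith
  -- the estimate for one entry
  have hone : ∀ s t, (T s t : ℝ) ≤
      κ * ∑ b ∈ B, Real.sqrt (F s t * c t) * Real.sqrt (F s b / c b) := by
    intro s t
    have h1 : (T s t : ℝ) ≤ κ * (c t * ∑ b ∈ B, F s b / c b) := by
      have h0 : ∑ b ∈ B, (T s b : ℝ) / c b ≤ κ * ∑ b ∈ B, (F s b : ℝ) / c b := by
        rw [mul_sum]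
        refine sum_le_sum fun b _ => ?_
        rw [← mul_div_assoc]
        exact div_le_div_of_nonneg_right (hTF s b) (hc0 b)
      calc (T s t : ℝ) ≤ c t * ∑ b ∈ B, (T s b : ℝ) / c b := hgen s t
        _ ≤ c t * (κ * ∑ b ∈ B, (F s b : ℝ) / c b) := mul_le_mul_of_nonneg_left h0 (hc0 t)
        _ = κ * (c t * ∑ b ∈ B, (F s b : ℝ) / c b) := by ring
    have hS : 0 ≤ ∑ b ∈ B, (F s b : ℝ) / c b :=
      sum_nonneg fun b _ => div_nonneg (hF0 s b) (hc0 b)
    have h2 : (T s t : ℝ) ^ 2 ≤ (κ * F s t) * (κ * (c t * ∑ b ∈ B, F s b / c b)) := by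
      rw [sq]
      exact mul_le_mul (hTF s t) h1 (hT0 s t) (mul_nonneg hκ0 (hF0 s t))
    have h3 : (T s t : ℝ) ≤ κ * (Real.sqrt (F s t * c t) *
        Real.sqrt (∑ b ∈ B, (F s b : ℝ) / c b)) := by
      refine abs_le_of_sq_le_sq' (h2.trans (le_of_eq ?_)) (mul_nonneg hκ0 (mul_nonneg
        (Real.sqrt_nonneg _) (Real.sqrt_nonneg _))) |>.2
      rw [mul_pow, mul_pow, Real.sq_sqrt (mul_nonneg (hF0 s t) (hc0 t)), Real.sq_sqrt hS]
      ring
    refine h3.trans (mul_le_mul_of_nonneg_left ?_ hκ0)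
    rw [← mul_sum]
    exact mul_le_mul_of_nonneg_left (Rk_sqrt B _ fun b => div_nonneg (hF0 s b) (hc0 b))
      (Real.sqrt_nonneg _)
  -- the estimate for two columns
  have htwo : ∀ t b, ∑ s, Real.sqrt (F s t * c t) * Real.sqrt (F s b / c b) ≤
      c t * ∏ i ∈ L, (if t i = b i then 1 else q) := by
    intro t b
    have hw : (∏ i ∈ L, (if t i = b i then (1 : ℝ) else q)) =
        q ^ (L.filter fun i => ¬ t i = b i).card := by
      rw [prod_ite, prod_const_one, one_mul, prod_const]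
    rw [hw]
    rcases eq_or_lt_of_le (hc0 b) with h0 | h0
    · have h1 : ∑ s, Real.sqrt (F s t * c t) * Real.sqrt (F s b / c b) = 0 := by
        refine sum_eq_zero fun s _ => ?_
        rw [← h0, div_zero, Real.sqrt_zero, mul_zero]
      rw [h1]
      exact mul_nonneg (hc0 t) (pow_nonneg hq0 _)
    · have h1 := Rk_bc he0 he1 (L.filter fun i => ¬ t i = b i) (fun s => (F s t : ℝ))
        (fun s => (F s b : ℝ)) (fun s => hF0 s t) (fun s => hF0 s b) (fun i hi => by
          rw [he]
          exact Rk_col (hgap i (mem_filter.1 hi).1) (mem_filter.1 hi).2)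
      rw [← hq] at h1
      have h2 : ∀ s, Real.sqrt (F s t * c t) * Real.sqrt (F s b / c b) =
          Real.sqrt (c t / c b) * Real.sqrt (F s t * F s b) := by
        intro s
        rw [← Real.sqrt_mul (mul_nonneg (hF0 s t) (hc0 t)),
          ← Real.sqrt_mul (div_nonneg (hc0 t) (hc0 b))]
        congr 1
        ring
      rw [sum_congr rfl fun s _ => h2 s, ← mul_sum]
      refine (mul_le_mul_of_nonneg_left h1 (Real.sqrt_nonneg _)).trans (le_of_eq ?_)
      have h3 : Real.sqrt (c t / c b) * Real.sqrt ((∑ s, (F s t : ℝ)) * ∑ s, (F s b : ℝ)) =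
          c t := by
        rw [← Real.sqrt_mul (div_nonneg (hc0 t) (hc0 b))]
        have e1 : ∀ t, ∑ s, (F s t : ℝ) = c t := fun t => by rw [hc]
        rw [e1, e1]
        have e2 : c t / c b * (c t * c b) = c t ^ 2 := by
          field_simp
        rw [e2, Real.sqrt_sq (hc0 t)]
      linear_combination (q ^ (L.filter fun i => ¬ t i = b i).card) * h3
  -- the sum
  have hsum : ∑ t, ∑ s, (T s t : ℝ) ≤ κ * ∑ b ∈ B, ρ ^ L.card * ∑ t, c t := by
    calc ∑ t, ∑ s, (T s t : ℝ)
        ≤ ∑ t, ∑ s, κ * ∑ b ∈ B, Real.sqrt (F s t * c t) * Real.sqrt (F s b / c b) :=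
          sum_le_sum fun t _ => sum_le_sum fun s _ => hone s t
      _ = κ * ∑ b ∈ B, ∑ t, ∑ s, Real.sqrt (F s t * c t) * Real.sqrt (F s b / c b) := by
          rw [sum_comm (s := B), mul_sum]
          refine sum_congr rfl fun t _ => ?_
          rw [sum_comm (s := B), mul_sum]
      _ ≤ _ := by
          refine mul_le_mul_of_nonneg_left (sum_le_sum fun b _ => ?_) hκ0
          refine (sum_le_sum fun t _ => htwo t b).trans ?_
          rw [hρ]
          refine Rk_wt hq0 hq1.le (by positivity) (by linarith) b L c hc0 fun i hi t => ?_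
          rw [hc, he]
          exact Rk_cw hε1 (hgap i hi) t _
  rw [sum_comm]
  refine hsum.trans ?_
  rw [sum_const, nsmul_eq_mul]
  have e1 : ∑ s, ∑ t, (F s t : ℝ) = ∑ t, c t := by
    rw [sum_comm, hc]
  rw [e1]
  have h1 : 0 ≤ ρ ^ L.card * ∑ t, c t :=
    mul_nonneg (pow_nonneg hρ0 _) (sum_nonneg fun t _ => hc0 t)
  have h2 : (B.card : ℝ) * (ρ ^ L.card * ∑ t, c t) ≤ W * (ρ ^ L.card * ∑ t, c t) :=
    mul_le_mul_of_nonneg_right (by exact_mod_cast hBW) h1
  have h3 := mul_le_mul_of_nonneg_left h2 hκ0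
  linarith

end Pool.Agent.EB
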