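import Pool.Agent.EB.St

/-!
# EB: selection of gadgets, many eliminated variables
-/

set_option autoImplicit false

namespace Pool.Agent.EB

open Finset

/-- Greedy choice of a family without conflicts. -/
theorem Sel1_greedy {X : Type} [DecidableEq X] (S : Finset X) (c : X → X → Prop)
    (hs : ∀ a b, c a b → c b a) (M : ℕ) (B : X → Finset X) (hB : ∀ a ∈ S, (B a).card ≤ M)
    (hc : ∀ a ∈ S, ∀ b ∈ S, c a b → b ∈ B a) (hr : ∀ a ∈ S, c a a) :
    ∃ J ⊆ S, (∀ a ∈ J, ∀ b ∈ J, a ≠ b → ¬ c a b) ∧ S.card ≤ M * J.card := by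
  classical
  have key : ∀ Ind : Finset X → Prop, Ind ∅ →
      ∃ J, J ⊆ S ∧ Ind J ∧ ∀ J', J' ⊆ S → Ind J' → J'.card ≤ J.card := by
    intro Ind h0
    obtain ⟨J, hJ, hmax⟩ := Finset.exists_max_image (S.powerset.filter Ind) Finset.card
      ⟨∅, mem_filter.mpr ⟨mem_powerset.mpr (empty_subset _), h0⟩⟩
    rw [mem_filter, mem_powerset] at hJ
    exact ⟨J, hJ.1, hJ.2, fun J' h1 h2 => hmax J' (mem_filter.mpr ⟨mem_powerset.mpr h1, h2⟩)⟩
  obtain ⟨J, hJS, hJi, hmax⟩ := key (fun J => ∀ a ∈ J, ∀ b ∈ J, a ≠ b → ¬ c a b) (by simp)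
  refine ⟨J, hJS, hJi, ?_⟩
  have hcov : S ⊆ J.biUnion B := by
    intro a ha
    rw [mem_biUnion]
    by_cases haJ : a ∈ J
    · exact ⟨a, haJ, hc a ha a ha (hr a ha)⟩
    · by_contra hcon
      push Not at hcon
      have hno : ∀ b ∈ J, ¬ c b a := fun b hb hba => hcon b hb (hc b (hJS hb) a ha hba)
      have hins : ∀ x ∈ insert a J, ∀ y ∈ insert a J, x ≠ y → ¬ c x y := by
        intro x hx y hy hxy
        rw [mem_insert] at hx hy
        rcases hx with rfl | hx <;> rcases hy with rfl | hy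
        · exact absurd rfl hxy
        · exact fun h => hno y hy (hs _ _ h)
        · exact hno x hx
        · exact hJi x hx y hy hxy
      have h1 := hmax _ (insert_subset ha hJS) hins
      rw [card_insert_of_notMem haJ] at h1
      omega
  refine (card_le_card hcov).trans ?_
  rw [mul_comm]
  exact card_biUnion_le_card_mul _ _ _ fun a ha => hB a (hJS ha)

section

variable {V : Type} [Fintype V] [DecidableEq V] (E : Finset (Sym2 V))

/-- closed neighbourhood -/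
def Sel1_nc (v : V) : Finset V := insert v (nb E v)

theorem Sel1_mem_nc (v w : V) : w ∈ Sel1_nc E v ↔ w = v ∨ s(v, w) ∈ E := by
  unfold Sel1_nc nb
  rw [mem_insert, mem_filter]
  simp

theorem Sel1_nc_card (D : ℕ) (hD : ∀ v, (nb E v).card ≤ D) (v : V) :
    (Sel1_nc E v).card ≤ D + 1 :=
  (card_insert_le _ _).trans (Nat.succ_le_succ (hD v))

/-- the ball of radius four -/
def Sel1_ball (v : V) : Finset V := (Sel1_nc E v).biUnion fun a => (Sel1_nc E a).biUnion fun b =>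
  (Sel1_nc E b).biUnion fun c => Sel1_nc E c

theorem Sel1_ball_card (D : ℕ) (hD : ∀ v, (nb E v).card ≤ D) (v : V) :
    (Sel1_ball E v).card ≤ (D + 1) ^ 4 := by
  have h1 := Sel1_nc_card E D hD
  have h2 : ∀ b, ((Sel1_nc E b).biUnion fun c => Sel1_nc E c).card ≤ (D + 1) ^ 2 := fun b =>
    (card_biUnion_le_card_mul _ _ _ fun c _ => h1 c).trans (by
      rw [pow_two]
      exact Nat.mul_le_mul_right _ (h1 b))
  have h3 : ∀ a, ((Sel1_nc E a).biUnion fun b =>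
      (Sel1_nc E b).biUnion fun c => Sel1_nc E c).card ≤ (D + 1) ^ 3 := fun a =>
    (card_biUnion_le_card_mul _ _ _ fun c _ => h2 c).trans (by
      rw [pow_succ' _ 2]
      exact Nat.mul_le_mul_right _ (h1 a))
  refine (card_biUnion_le_card_mul _ _ _ fun c _ => h3 c).trans ?_
  rw [pow_succ' _ 3]
  exact Nat.mul_le_mul_right _ (h1 v)

theorem Sel1_mem_ball {v a b c w : V} (h1 : a = v ∨ s(v, a) ∈ E) (h2 : b = a ∨ s(a, b) ∈ E)
    (h3 : c = b ∨ s(b, c) ∈ E) (h4 : w = c ∨ s(c, w) ∈ E) : w ∈ Sel1_ball E v := by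
  unfold Sel1_ball
  simp only [mem_biUnion]
  exact ⟨a, (Sel1_mem_nc E v a).mpr h1, b, (Sel1_mem_nc E a b).mpr h2, c,
    (Sel1_mem_nc E b c).mpr h3, (Sel1_mem_nc E c w).mpr h4⟩

end

/-- one gadget -/
theorem Sel1_gad {k n D : ℕ} {E A : Finset (Sym2 (Fin n))} {Y : Finset (Fin n)}
    (hG : PG k n D E) {e p q : Fin n} (he : e ∈ Y) (hp : p ∉ Y) (hq : q ∉ Y) (hpq : p ≠ q)
    (hep : s(e, p) ∈ E) (heq : s(e, q) ∈ E)
    (bp : ∀ e' ∈ Y, s(e', p) ∈ E → ∃ v, v ∉ Y ∧ s(e', v) ∈ E ∧ v ≠ p)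
    (bq : ∀ e' ∈ Y, s(e', q) ∈ E → ∃ v, v ∉ Y ∧ s(e', v) ∈ E ∧ v ≠ q) :
    ∃ g : Gad (Fin n), IsGad E A Y D g ∧ g.p = p ∧ g.q = q ∧ ∀ v ∈ g.R, e ∈ Sel1_ball E v := by
  classical
  have sw : ∀ {u v : Fin n}, s(u, v) ∈ E → s(v, u) ∈ E := fun {u v} h => by
    rwa [Sym2.eq_swap]
  have hl : ∀ u, s(u, u) ∉ E := fun u h => hG.loop _ h (Sym2.mk_isDiag_iff.mpr rfl)
  have hz0 : ∀ e', ∃ v, e' ∈ Y → e' ≠ e → (s(e', p) ∈ E ∨ s(e', q) ∈ E) →
      v ∉ Y ∧ s(e', v) ∈ E ∧ v ≠ p ∧ v ≠ q := by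
    intro e'
    by_cases h : e' ∈ Y ∧ e' ≠ e ∧ (s(e', p) ∈ E ∨ s(e', q) ∈ E)
    · obtain ⟨h1, h2, h3⟩ := h
      have h4 : ¬ (s(e', p) ∈ E ∧ s(e', q) ∈ E) := by
        rintro ⟨h5, h6⟩
        exact hG.c4 e p e' q (Ne.symm h2) hpq ⟨hep, sw h5, h6, sw heq⟩
      rcases h3 with h3 | h3
      · obtain ⟨v, v1, v2, v3⟩ := bp e' h1 h3
        refine ⟨v, fun _ _ _ => ⟨v1, v2, v3, ?_⟩⟩
        rintro rfl
        exact h4 ⟨h3, v2⟩
      · obtain ⟨v, v1, v2, v3⟩ := bq e' h1 h3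
        refine ⟨v, fun _ _ _ => ⟨v1, v2, ?_, v3⟩⟩
        rintro rfl
        exact h4 ⟨v2, h3⟩
    · exact ⟨e', fun h1 h2 h3 => absurd ⟨h1, h2, h3⟩ h⟩
  choose z hz using hz0
  set C := ((nb E p ∪ nb E q).filter fun e' => e' ∈ Y ∧ e' ≠ e).image z with hC
  have hmC : ∀ u, u ∈ C ↔ ∃ e', e' ∈ Y ∧ e' ≠ e ∧ (s(e', p) ∈ E ∨ s(e', q) ∈ E) ∧ z e' = u := by
    intro u
    rw [hC, mem_image]
    constructor
    · rintro ⟨e', h1, h2⟩
      rw [mem_filter, mem_union] at h1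
      refine ⟨e', h1.2.1, h1.2.2, ?_, h2⟩
      rcases h1.1 with h3 | h3
      · exact Or.inl (sw (mem_filter.mp h3).2)
      · exact Or.inr (sw (mem_filter.mp h3).2)
    · rintro ⟨e', h1, h2, h3, h4⟩
      refine ⟨e', ?_, h4⟩
      rw [mem_filter, mem_union]
      refine ⟨?_, h1, h2⟩
      rcases h3 with h3 | h3
      · exact Or.inl (mem_filter.mpr ⟨mem_univ _, sw h3⟩)
      · exact Or.inr (mem_filter.mpr ⟨mem_univ _, sw h3⟩)
  have hCc : C.card ≤ 2 * D := by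
    rw [hC]
    refine card_image_le.trans ((card_filter_le _ _).trans ((card_union_le _ _).trans ?_))
    have h1 := hG.deg p
    have h2 := hG.deg q
    omega
  set R := ((insert e (insert p (insert q C))).biUnion fun u => Sel1_nc E u).filter
    (fun v => v ∉ Y) with hR
  have hmR : ∀ v, v ∈ R ↔ (∃ u, (u = e ∨ u = p ∨ u = q ∨ u ∈ C) ∧ (v = u ∨ s(u, v) ∈ E)) ∧
      v ∉ Y := by
    intro v
    rw [hR, mem_filter, mem_biUnion]
    simp only [mem_insert, Sel1_mem_nc]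
  -- adjacency to e, no edges between the chosen vertices
  have hne : ∀ u ∈ C, s(e, u) ∉ E := by
    intro u hu h
    obtain ⟨e', h1, h2, h3, rfl⟩ := (hmC u).mp hu
    obtain ⟨-, z2, z3, z4⟩ := hz e' h1 h2 h3
    rcases h3 with h3 | h3
    · exact hG.c4 e p e' (z e') (Ne.symm h2) (Ne.symm z3) ⟨hep, sw h3, z2, sw h⟩
    · exact hG.c4 e q e' (z e') (Ne.symm h2) (Ne.symm z4) ⟨heq, sw h3, z2, sw h⟩
  have hpq' : s(p, q) ∉ E := fun h => hG.c3 e p q ⟨hep, h, sw heq⟩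
  have hzp : ∀ u ∈ C, s(u, p) ∉ E := by
    intro u hu h
    obtain ⟨e', h1, h2, h3, rfl⟩ := (hmC u).mp hu
    obtain ⟨-, z2, z3, z4⟩ := hz e' h1 h2 h3
    rcases h3 with h3 | h3
    · exact hG.c3 e' (z e') p ⟨z2, h, sw h3⟩
    · exact hG.c5 e q e' (z e') p ⟨heq, sw h3, z2, h, sw hep⟩
  have hzq : ∀ u ∈ C, s(u, q) ∉ E := by
    intro u hu h
    obtain ⟨e', h1, h2, h3, rfl⟩ := (hmC u).mp hu
    obtain ⟨-, z2, z3, z4⟩ := hz e' h1 h2 h3
    rcases h3 with h3 | h3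
    · exact hG.c5 e p e' (z e') q ⟨hep, sw h3, z2, h, sw heq⟩
    · exact hG.c3 e' (z e') q ⟨z2, h, sw h3⟩
  have hzz : ∀ u ∈ C, ∀ v ∈ C, s(u, v) ∉ E := by
    intro u hu v hv h
    obtain ⟨e', h1, h2, h3, rfl⟩ := (hmC u).mp hu
    obtain ⟨e'', h1', h2', h3', rfl⟩ := (hmC v).mp hv
    obtain ⟨-, z2, -, -⟩ := hz e' h1 h2 h3
    obtain ⟨-, z2', -, -⟩ := hz e'' h1' h2' h3'
    rcases h3 with h3 | h3 <;> rcases h3' with h3' | h3'
    · exact hG.c5 p e' (z e') (z e'') e'' ⟨sw h3, z2, h, sw z2', h3'⟩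
    · exact hG.c7 e p e' (z e') (z e'') e'' q ⟨hep, sw h3, z2, h, sw z2', h3', sw heq⟩
    · exact hG.c7 e q e' (z e') (z e'') e'' p ⟨heq, sw h3, z2, h, sw z2', h3', sw hep⟩
    · exact hG.c5 q e' (z e') (z e'') e'' ⟨sw h3, z2, h, sw z2', h3'⟩
  refine ⟨⟨p, q, R, C⟩, ⟨?_, ?_, hpq, ?_, ?_, ?_, ?_, hCc, ?_, ?_, ?_⟩, rfl, rfl, ?_⟩
  · exact (hmR p).mpr ⟨⟨p, Or.inr (Or.inl rfl), Or.inl rfl⟩, hp⟩
  · exact (hmR q).mpr ⟨⟨q, Or.inr (Or.inr (Or.inl rfl)), Or.inl rfl⟩, hq⟩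
  · intro u hu
    obtain ⟨e', h1, h2, h3, rfl⟩ := (hmC u).mp hu
    exact (hmR _).mpr ⟨⟨_, Or.inr (Or.inr (Or.inr hu)), Or.inl rfl⟩, (hz e' h1 h2 h3).1⟩
  · intro hu
    obtain ⟨e', h1, h2, h3, h4⟩ := (hmC p).mp hu
    exact (hz e' h1 h2 h3).2.2.1 h4
  · intro hu
    obtain ⟨e', h1, h2, h3, h4⟩ := (hmC q).mp hu
    exact (hz e' h1 h2 h3).2.2.2 h4
  · rw [Finset.disjoint_left]
    intro v hv
    exact ((hmR v).mp hv).2
  · show R.card ≤ (D + 1) * (2 * D + 3)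
    rw [hR]
    refine (card_filter_le _ _).trans ((card_biUnion_le_card_mul _ _ _ fun u _ =>
      Sel1_nc_card E D hG.deg u).trans ?_)
    rw [mul_comm]
    refine Nat.mul_le_mul_left _ ?_
    have h1 := card_insert_le e (insert p (insert q C))
    have h2 := card_insert_le p (insert q C)
    have h3 := card_insert_le q C
    omega
  · intro u v hu hv huv
    refine (hmR v).mpr ⟨⟨u, ?_, Or.inr huv⟩, hv⟩
    rcases hu with hu | hu | hu
    · exact Or.inr (Or.inr (Or.inr hu))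
    · exact Or.inr (Or.inl hu)
    · exact Or.inr (Or.inr (Or.inl hu))
  · left
    refine ⟨e, he, hep, heq, ?_, hne, ?_, ?_⟩
    · intro v hv hev
      exact (hmR v).mpr ⟨⟨e, Or.inl rfl, Or.inr hev⟩, hv⟩
    · intro u v hu hv
      show s(u, v) ∉ E
      rcases hu with hu | rfl | rfl <;> rcases hv with hv | rfl | rfl
      · exact hzz u hu v hv
      · exact hzp u hu
      · exact hzq u hu
      · exact fun h => hzp v hv (sw h)
      · exact hl _
      · exact hpq'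
      · exact fun h => hzq v hv (sw h)
      · exact fun h => hpq' (sw h)
      · exact hl _
    · intro e' he' hne' had
      exact ⟨z e', (hmC _).mpr ⟨e', he', hne', had, rfl⟩, (hz e' he' hne' had).2.1⟩
  · intro v hv
    obtain ⟨⟨u, hu, hvu⟩, -⟩ := (hmR v).mp hv
    have h1 : u = v ∨ s(v, u) ∈ E := by
      rcases hvu with rfl | h
      · exact Or.inl rfl
      · exact Or.inr (sw h)
    rcases hu with rfl | rfl | rfl | hu
    · exact Sel1_mem_ball E h1 (Or.inl rfl) (Or.inl rfl) (Or.inl rfl)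
    · exact Sel1_mem_ball E h1 (Or.inl rfl) (Or.inl rfl) (Or.inr (sw hep))
    · exact Sel1_mem_ball E h1 (Or.inl rfl) (Or.inl rfl) (Or.inr (sw heq))
    · obtain ⟨e', f1, f2, f3, rfl⟩ := (hmC u).mp hu
      have f4 := (hz e' f1 f2 f3).2.1
      rcases f3 with f3 | f3
      · exact Sel1_mem_ball E h1 (Or.inr (sw f4)) (Or.inr f3) (Or.inr (sw hep))
      · exact Sel1_mem_ball E h1 (Or.inr (sw f4)) (Or.inr f3) (Or.inr (sw heq))

/-- the number of vertices without neighbours in a large set is small -/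
private lemma Sel1_few {k n D : ℕ} {E : Finset (Sym2 (Fin n))} (hG : PG k n D E)
    (Y T : Finset (Fin n)) (hd : Disjoint Y T) (hT : n ≤ 20000 * k * T.card) :
    20000 * k * (Y.filter fun e => ∀ v ∈ T, s(e, v) ∉ E).card < n := by
  classical
  by_contra hcon
  push Not at hcon
  obtain ⟨u, hu, v, hv, huv⟩ := hG.G1 (Y.filter fun e => ∀ v ∈ T, s(e, v) ∉ E) T
    (hd.mono_left (filter_subset _ _)) hcon hT
  exact (mem_filter.mp hu).2 v hv huv

/-- gadgets, many eliminated variables -/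
theorem thm_Sel1 : St_Sel1 := by
  classical
  intro k D hk
  refine ⟨20000 * k * ((D + 1) * (2 * D + 3) * (D + 1) ^ 4), ?_⟩
  intro n E A Y hG _ _ hY P Q hPQ hPY hQY hP hQ
  have sw : ∀ {u v : Fin n}, s(u, v) ∈ E → s(v, u) ∈ E := fun {u v} h => by
    rwa [Sym2.eq_swap]
  -- the bad vertices
  set YP := Y.filter fun e => ∀ v ∈ P, s(e, v) ∉ E with hYP
  set YQ := Y.filter fun e => ∀ v ∈ Q, s(e, v) ∉ E with hYQ
  have c1 : 20000 * k * YP.card < n := Sel1_few hG Y P hPY.symm (by nlinarith)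
  have c2 : 20000 * k * YQ.card < n := Sel1_few hG Y Q hQY.symm (by nlinarith)
  let bad : Finset (Fin n) := univ.filter fun p => p ∉ Y ∧ ∃ e' ∈ Y, s(e', p) ∈ E ∧
    ∀ v, v ∉ Y → s(e', v) ∈ E → v = p
  have hbad : ∀ p, p ∈ bad ↔ p ∉ Y ∧ ∃ e' ∈ Y, s(e', p) ∈ E ∧
      ∀ v, v ∉ Y → s(e', v) ∈ E → v = p := by
    intro p
    show p ∈ univ.filter _ ↔ _
    rw [mem_filter]
    exact ⟨fun h => h.2, fun h => ⟨mem_univ _, h⟩⟩
  have hbc : bad.card ≤ (YP ∪ YQ).card := by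
    have h1 : ∀ p : Fin n, ∃ e', p ∈ bad → e' ∈ Y ∧ s(e', p) ∈ E ∧
        ∀ v, v ∉ Y → s(e', v) ∈ E → v = p := by
      intro p
      by_cases h : p ∈ bad
      · obtain ⟨-, e', h1, h2, h3⟩ := (hbad p).mp h
        exact ⟨e', fun _ => ⟨h1, h2, h3⟩⟩
      · exact ⟨p, fun h' => absurd h' h⟩
    choose f hf using h1
    refine card_le_card_of_injOn f (fun p hp => ?_) fun p hp p' hp' hpp => ?_
    · obtain ⟨h1, h2, h3⟩ := hf p hp
      rw [Finset.mem_coe, mem_union]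
      by_cases hpP : p ∈ P
      · right
        rw [hYQ, mem_filter]
        refine ⟨h1, fun v hv hev => ?_⟩
        have h4 := h3 v (Finset.disjoint_left.mp hQY hv) hev
        rw [h4] at hv
        exact Finset.disjoint_left.mp hPQ hpP hv
      · left
        rw [hYP, mem_filter]
        refine ⟨h1, fun v hv hev => ?_⟩
        have h4 := h3 v (Finset.disjoint_left.mp hPY hv) hev
        rw [h4] at hv
        exact hpP hv
    · have h2 := (hf p hp).2.1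
      rw [hpp] at h2
      exact (hf p' hp').2.2 p ((hbad p).mp hp).1 h2
  have hbc' : bad.card ≤ YP.card + YQ.card := hbc.trans (card_union_le _ _)
  have good : ∀ p, p ∉ Y → p ∉ bad → ∀ e' ∈ Y, s(e', p) ∈ E →
      ∃ v, v ∉ Y ∧ s(e', v) ∈ E ∧ v ≠ p := by
    intro p hp hpb e' he' hep
    by_contra hcon
    push Not at hcon
    exact hpb ((hbad p).mpr ⟨hp, e', he', hep, fun v h1 h2 => hcon v h1 h2⟩)
  -- the good vertices
  have hP1 : n ≤ 20000 * k * (P \ bad).card := by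
    have h1 := card_sdiff_add_card P bad
    have h2 : P.card ≤ (P \ bad).card + bad.card := by
      have := card_le_card (subset_union_left (s₁ := P) (s₂ := bad))
      omega
    nlinarith
  have hQ1 : n ≤ 20000 * k * (Q \ bad).card := by
    have h1 := card_sdiff_add_card Q bad
    have h2 : Q.card ≤ (Q \ bad).card + bad.card := by
      have := card_le_card (subset_union_left (s₁ := Q) (s₂ := bad))
      omega
    nlinarith
  have c3 : 20000 * k * (Y.filter fun e => ∀ v ∈ P \ bad, s(e, v) ∉ E).card < n :=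
    Sel1_few hG Y _ (hPY.symm.mono_right sdiff_subset) hP1
  have c4 : 20000 * k * (Y.filter fun e => ∀ v ∈ Q \ bad, s(e, v) ∉ E).card < n :=
    Sel1_few hG Y _ (hQY.symm.mono_right sdiff_subset) hQ1
  set Y1 := Y.filter fun e => (∃ p ∈ P \ bad, s(e, p) ∈ E) ∧ ∃ q ∈ Q \ bad, s(e, q) ∈ E with hY1
  have hY1c : n ≤ 20000 * k * Y1.card := by
    have h1 : Y ⊆ Y1 ∪ ((Y.filter fun e => ∀ v ∈ P \ bad, s(e, v) ∉ E) ∪
        (Y.filter fun e => ∀ v ∈ Q \ bad, s(e, v) ∉ E)) := by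
      intro e he
      rw [mem_union, mem_union, hY1, mem_filter, mem_filter, mem_filter]
      by_cases h1 : ∃ p ∈ P \ bad, s(e, p) ∈ E
      · by_cases h2 : ∃ q ∈ Q \ bad, s(e, q) ∈ E
        · exact Or.inl ⟨he, h1, h2⟩
        · push Not at h2
          exact Or.inr (Or.inr ⟨he, h2⟩)
      · push Not at h1
        exact Or.inr (Or.inl ⟨he, h1⟩)
    have h2 := (card_le_card h1).trans (card_union_le _ _)
    have h3 := h2.trans (Nat.add_le_add_left (card_union_le _ _) _)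
    nlinarith
  -- the gadgets
  have hg : ∀ e : Fin n, ∃ g : Gad (Fin n), e ∈ Y1 → IsGad E A Y D g ∧ g.p ∈ P ∧ g.q ∈ Q ∧
      ∀ v ∈ g.R, e ∈ Sel1_ball E v := by
    intro e
    by_cases he : e ∈ Y1
    · rw [hY1, mem_filter] at he
      obtain ⟨heY, ⟨p, hp, hep⟩, q, hq, heq⟩ := he
      rw [mem_sdiff] at hp hq
      have hpY : p ∉ Y := Finset.disjoint_left.mp hPY hp.1
      have hqY : q ∉ Y := Finset.disjoint_left.mp hQY hq.1
      have hpq : p ≠ q := by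
        rintro rfl
        exact Finset.disjoint_left.mp hPQ hp.1 hq.1
      obtain ⟨g, g1, g2, g3, g4⟩ := Sel1_gad (A := A) hG heY hpY hqY hpq hep heq
        (good p hpY hp.2) (good q hqY hq.2)
      exact ⟨g, fun _ => ⟨g1, g2 ▸ hp.1, g3 ▸ hq.1, g4⟩⟩
    · exact ⟨⟨e, e, ∅, ∅⟩, fun h => absurd h he⟩
  choose g hg using hg
  obtain ⟨J, hJ1, hJ2, hJ3⟩ := Sel1_greedy Y1 (fun a b => ¬ Disjoint (g a).R (g b).R)
    (fun a b h h' => h h'.symm) ((D + 1) * (2 * D + 3) * (D + 1) ^ 4)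
    (fun a => (g a).R.biUnion (Sel1_ball E))
    (fun a ha => by
      refine (card_biUnion_le_card_mul _ _ _ fun v _ => Sel1_ball_card E D hG.deg v).trans ?_
      exact Nat.mul_le_mul_right _ (hg a ha).1.Rc)
    (fun a _ b hb hab => by
      rw [Finset.not_disjoint_iff] at hab
      obtain ⟨v, hv1, hv2⟩ := hab
      rw [mem_biUnion]
      exact ⟨v, hv1, (hg b hb).2.2.2 v hv2⟩)
    (fun a ha h => by
      have h1 := (hg a ha).1.pR
      exact Finset.disjoint_left.mp h h1 h1)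
  have hJ2' : ∀ a ∈ J, ∀ b ∈ J, a ≠ b → Disjoint (g a).R (g b).R := fun a ha b hb hab =>
    not_not.mp (hJ2 a ha b hb hab)
  refine ⟨J.image g, ?_, ?_, ?_⟩
  · intro x hx
    obtain ⟨e, he, rfl⟩ := mem_image.mp hx
    have h1 := hg e (hJ1 he)
    exact ⟨h1.1, h1.2.1, h1.2.2.1⟩
  · intro x hx y hy hxy
    obtain ⟨e, he, rfl⟩ := mem_image.mp hx
    obtain ⟨e', he', rfl⟩ := mem_image.mp hy
    exact hJ2' e he e' he' fun h => hxy (by rw [h])
  · have h1 : (J.image g).card = J.card := by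
      refine card_image_of_injOn fun a ha b hb hab => ?_
      by_contra hne
      have h2 := hJ2' a ha b hb hne
      have h3 := (hg a (hJ1 ha)).1.pR
      have h4 : (g a).p ∈ (g b).R := by
        have h5 : g a = g b := hab
        rw [← h5]
        exact h3
      exact Finset.disjoint_left.mp h2 h3 h4
    rw [h1]
    calc n ≤ 20000 * k * Y1.card := hY1c
      _ ≤ 20000 * k * ((D + 1) * (2 * D + 3) * (D + 1) ^ 4 * J.card) :=
          Nat.mul_le_mul_left _ hJ3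
      _ = _ := by ring

end Pool.Agent.EB
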