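import Pool.Agent.EB.St

/-!
# Selection of gadgets, few eliminated variables
-/

namespace Pool.Agent.EB

open Finset Pool.Agent.WD
open scoped NNReal

set_option linter.unusedSectionVars false

variable {V : Type} [Fintype V] [DecidableEq V]

private def Sel2_R (E : Finset (Sym2 V)) (Y : Finset V) (a : V × V) : Finset V :=
  (insert a.1 (insert a.2 (nb E a.1 ∪ nb E a.2))) \ Y

private def Sel2_g (E : Finset (Sym2 V)) (Y : Finset V) (a : V × V) : Gad V :=
  ⟨a.1, a.2, Sel2_R E Y a, ∅⟩

private theorem Sel2_nb (E : Finset (Sym2 V)) (v w : V) : w ∈ nb E v ↔ s(v, w) ∈ E := by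
  unfold nb
  rw [Finset.mem_filter]
  exact ⟨fun h => h.2, fun h => ⟨mem_univ _, h⟩⟩

private theorem Sel2_card (E : Finset (Sym2 V)) (Y : Finset V) (D : ℕ)
    (hD : ∀ v, (nb E v).card ≤ D) (a : V × V) : (Sel2_R E Y a).card ≤ 2 * D + 2 := by
  unfold Sel2_R
  refine (Finset.card_le_card Finset.sdiff_subset).trans ?_
  have h1 := Finset.card_insert_le a.1 (insert a.2 (nb E a.1 ∪ nb E a.2))
  have h2 := Finset.card_insert_le a.2 (nb E a.1 ∪ nb E a.2)
  have h3 := Finset.card_union_le (nb E a.1) (nb E a.2)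
  have h4 := hD a.1
  have h5 := hD a.2
  omega

private theorem Sel2_isGad (E A : Finset (Sym2 V)) (Y : Finset V) (D : ℕ) (hAE : A ⊆ E)
    (hloop : ∀ e ∈ E, ¬ e.IsDiag) (hD : ∀ v, (nb E v).card ≤ D) (a : V × V)
    (ha : s(a.1, a.2) ∈ A ∧ a.1 ∉ Y ∧ a.2 ∉ Y) : IsGad E A Y D (Sel2_g E Y a) where
  pR := by
    show a.1 ∈ Sel2_R E Y a
    unfold Sel2_R
    rw [Finset.mem_sdiff]
    exact ⟨Finset.mem_insert_self _ _, ha.2.1⟩
  qR := by
    show a.2 ∈ Sel2_R E Y a
    unfold Sel2_R
    rw [Finset.mem_sdiff]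
    exact ⟨Finset.mem_insert_of_mem (Finset.mem_insert_self _ _), ha.2.2⟩
  pq := by
    show a.1 ≠ a.2
    intro h
    exact hloop _ (hAE ha.1) (Sym2.mk_isDiag_iff.2 h)
  CR := Finset.empty_subset _
  pC := Finset.notMem_empty _
  qC := Finset.notMem_empty _
  RY := by
    show Disjoint (Sel2_R E Y a) Y
    unfold Sel2_R
    exact Finset.sdiff_disjoint
  Cc := by
    show (∅ : Finset V).card ≤ 2 * D
    simp
  Rc := by
    show (Sel2_R E Y a).card ≤ (D + 1) * (2 * D + 3)
    refine (Sel2_card E Y D hD a).trans ?_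
    nlinarith
  near := by
    intro u v hu hv huv
    show v ∈ Sel2_R E Y a
    unfold Sel2_R
    rw [Finset.mem_sdiff]
    refine ⟨?_, hv⟩
    rcases hu with hu | hu | hu
    · exact absurd hu (Finset.notMem_empty _)
    · have hu' : u = a.1 := hu
      subst hu'
      exact Finset.mem_insert_of_mem (Finset.mem_insert_of_mem
        (Finset.mem_union_left _ ((Sel2_nb E _ _).2 huv)))
    · have hu' : u = a.2 := hu
      subst hu'
      exact Finset.mem_insert_of_mem (Finset.mem_insert_of_mem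
        (Finset.mem_union_right _ ((Sel2_nb E _ _).2 huv)))
  typ := Or.inr ⟨rfl, ha.1⟩

private def Sel2_P (E : Finset (Sym2 V)) (v : V) : Finset (V × V) :=
  (insert v (nb E v)).biUnion (fun p => (nb E p).image (fun q => (p, q))) ∪
    (insert v (nb E v)).biUnion (fun q => (nb E q).image (fun p => (p, q)))

private theorem Sel2_P_card (E : Finset (Sym2 V)) (D : ℕ) (hD : ∀ v, (nb E v).card ≤ D) (v : V) :
    (Sel2_P E v).card ≤ 2 * ((D + 1) * D) := by
  unfold Sel2_P
  have h0 : (insert v (nb E v)).card ≤ D + 1 :=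
    (Finset.card_insert_le _ _).trans (Nat.succ_le_succ (hD v))
  have h1 : ((insert v (nb E v)).biUnion (fun p => (nb E p).image (fun q => (p, q)))).card ≤
      (D + 1) * D :=
    (Finset.card_biUnion_le_card_mul _ _ D fun p _ => Finset.card_image_le.trans (hD p)).trans
      (Nat.mul_le_mul_right _ h0)
  have h2 : ((insert v (nb E v)).biUnion (fun q => (nb E q).image (fun p => (p, q)))).card ≤
      (D + 1) * D :=
    (Finset.card_biUnion_le_card_mul _ _ D fun p _ => Finset.card_image_le.trans (hD p)).trans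
      (Nat.mul_le_mul_right _ h0)
  have h3 := Finset.card_union_le
    ((insert v (nb E v)).biUnion (fun p => (nb E p).image (fun q => (p, q))))
    ((insert v (nb E v)).biUnion (fun q => (nb E q).image (fun p => (p, q))))
  omega

private theorem Sel2_mem_P (E : Finset (Sym2 V)) (Y : Finset V) (v : V) (a : V × V)
    (ha : s(a.1, a.2) ∈ E) (hv : v ∈ Sel2_R E Y a) : a ∈ Sel2_P E v := by
  have ha' : s(a.2, a.1) ∈ E := by rw [Sym2.eq_swap]; exact ha
  unfold Sel2_R at hv
  rw [Finset.mem_sdiff, Finset.mem_insert, Finset.mem_insert, Finset.mem_union, Sel2_nb,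
    Sel2_nb] at hv
  unfold Sel2_P
  rw [Finset.mem_union, Finset.mem_biUnion, Finset.mem_biUnion]
  have hL : a.1 ∈ insert v (nb E v) → ∃ p ∈ insert v (nb E v),
      a ∈ (nb E p).image (fun q => (p, q)) := fun h =>
    ⟨a.1, h, Finset.mem_image.2 ⟨a.2, (Sel2_nb E _ _).2 ha, rfl⟩⟩
  have hR : a.2 ∈ insert v (nb E v) → ∃ q ∈ insert v (nb E v),
      a ∈ (nb E q).image (fun p => (p, q)) := fun h =>
    ⟨a.2, h, Finset.mem_image.2 ⟨a.1, (Sel2_nb E _ _).2 ha', rfl⟩⟩
  rcases hv.1 with h | h | h | h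
  · exact Or.inl (hL (by rw [h]; exact Finset.mem_insert_self _ _))
  · exact Or.inr (hR (by rw [h]; exact Finset.mem_insert_self _ _))
  · exact Or.inl (hL (Finset.mem_insert_of_mem ((Sel2_nb E _ _).2 (by rw [Sym2.eq_swap]; exact h))))
  · exact Or.inr (hR (Finset.mem_insert_of_mem ((Sel2_nb E _ _).2 (by rw [Sym2.eq_swap]; exact h))))

theorem thm_Sel2 : St_Sel2 := by
  classical
  intro D
  refine ⟨(2 * D + 2) * (2 * ((D + 1) * D)), fun V _ _ E A Y hAE hloop hD X hX => ?_⟩
  -- a maximal subfamily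
  set PP : Finset (Finset (V × V)) := X.powerset.filter
    (fun Z => ∀ a ∈ Z, ∀ b ∈ Z, a ≠ b → Disjoint (Sel2_R E Y a) (Sel2_R E Y b)) with hPP
  have hne : PP.Nonempty := by
    refine ⟨∅, ?_⟩
    rw [hPP, Finset.mem_filter]
    exact ⟨Finset.empty_mem_powerset _, fun a ha => absurd ha (Finset.notMem_empty _)⟩
  obtain ⟨Z, hZ, hmax⟩ := Finset.exists_max_image PP Finset.card hne
  rw [hPP, Finset.mem_filter, Finset.mem_powerset] at hZ
  obtain ⟨hZX, hZd⟩ := hZ
  have hinj : Function.Injective (Sel2_g E Y) := by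
    intro a b hab
    have h1 : (Sel2_g E Y a).p = (Sel2_g E Y b).p := by rw [hab]
    have h2 : (Sel2_g E Y a).q = (Sel2_g E Y b).q := by rw [hab]
    exact Prod.ext h1 h2
  have hmeet : ∀ e ∈ X, ∃ a ∈ Z, ¬ Disjoint (Sel2_R E Y e) (Sel2_R E Y a) := by
    intro e he
    by_cases heZ : e ∈ Z
    · refine ⟨e, heZ, ?_⟩
      rw [disjoint_self]
      intro h0
      have h1 := (Sel2_isGad E A Y D hAE hloop hD e (hX e he)).pR
      have h2 : e.1 ∈ Sel2_R E Y e := h1
      rw [h0] at h2
      exact absurd h2 (Finset.notMem_empty _)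
    · by_contra hcon
      push Not at hcon
      have hins : insert e Z ∈ PP := by
        rw [hPP, Finset.mem_filter, Finset.mem_powerset]
        refine ⟨Finset.insert_subset he hZX, ?_⟩
        intro a ha b hb hab
        rcases Finset.mem_insert.1 ha with ha' | ha'
        · rcases Finset.mem_insert.1 hb with hb' | hb'
          · exact absurd (ha'.trans hb'.symm) hab
          · rw [ha']; exact hcon b hb'
        · rcases Finset.mem_insert.1 hb with hb' | hb'
          · rw [hb']; exact (hcon a ha').symm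
          · exact hZd a ha' b hb' hab
      have h1 := hmax _ hins
      rw [Finset.card_insert_of_notMem heZ] at h1
      omega
  refine ⟨Z.image (Sel2_g E Y), ?_, ?_, ?_⟩
  · intro g hg
    obtain ⟨a, ha, rfl⟩ := Finset.mem_image.1 hg
    exact ⟨Sel2_isGad E A Y D hAE hloop hD a (hX a (hZX ha)), hZX ha⟩
  · intro g hg h hh hgh
    obtain ⟨a, ha, rfl⟩ := Finset.mem_image.1 hg
    obtain ⟨b, hb, rfl⟩ := Finset.mem_image.1 hh
    exact hZd a ha b hb fun e => hgh (by rw [e])
  · rw [Finset.card_image_of_injective _ hinj]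
    have hsub : X ⊆ Z.biUnion (fun a => (Sel2_R E Y a).biUnion (Sel2_P E)) := by
      intro e he
      obtain ⟨a, ha, hd⟩ := hmeet e he
      rw [Finset.not_disjoint_iff] at hd
      obtain ⟨v, hv1, hv2⟩ := hd
      rw [Finset.mem_biUnion]
      refine ⟨a, ha, ?_⟩
      rw [Finset.mem_biUnion]
      exact ⟨v, hv2, Sel2_mem_P E Y v e (hAE (hX e he).1) hv1⟩
    refine (Finset.card_le_card hsub).trans ?_
    refine (Finset.card_biUnion_le_card_mul _ _ ((2 * D + 2) * (2 * ((D + 1) * D))) ?_).trans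
      (le_of_eq (Nat.mul_comm _ _))
    intro a _
    refine (Finset.card_biUnion_le_card_mul _ _ _ fun v _ => Sel2_P_card E D hD v).trans ?_
    exact Nat.mul_le_mul_right _ (Sel2_card E Y D hD a)

end Pool.Agent.EB
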