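import Mathlib
import Pool.Agent.EB.St

set_option autoImplicit false

/-!
# [Xp] a set which is well linked by the clauses
-/

namespace Pool.Agent.EB

open Finset Pool.Agent.WD
open scoped NNReal

private theorem Xp_split {n : ℕ} (A : Finset (Sym2 (Fin n))) (U S : Finset (Fin n)) :
    (A.filter fun e => ∀ v ∈ e, v ∈ U).card ≤
      (A.filter fun e => ∀ v ∈ e, v ∈ S ∩ U).card + (A.filter fun e => ∀ v ∈ e, v ∈ U \ S).card +
      (univ.filter fun e : Fin n × Fin n =>
          e.1 ∈ U ∧ e.2 ∈ U ∧ e.1 ∈ S ∧ e.2 ∉ S ∧ s(e.1, e.2) ∈ A).card := by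
  classical
  have h1 : (A.filter fun e => ∀ v ∈ e, v ∈ U) ⊆
      ((A.filter fun e => ∀ v ∈ e, v ∈ S ∩ U) ∪ (A.filter fun e => ∀ v ∈ e, v ∈ U \ S)) ∪
      (univ.filter fun e : Fin n × Fin n =>
          e.1 ∈ U ∧ e.2 ∈ U ∧ e.1 ∈ S ∧ e.2 ∉ S ∧ s(e.1, e.2) ∈ A).image
        (fun p => s(p.1, p.2)) := by
    intro e he
    rw [mem_filter] at he
    obtain ⟨heA, heU⟩ := he
    induction e using Sym2.ind with
    | _ a b =>
      have ha : a ∈ U := heU a (Sym2.mem_mk_left a b)
      have hb : b ∈ U := heU b (Sym2.mem_mk_right a b)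
      by_cases haS : a ∈ S <;> by_cases hbS : b ∈ S
      · refine mem_union_left _ (mem_union_left _ (mem_filter.2 ⟨heA, fun v hv => ?_⟩))
        rcases Sym2.mem_iff.1 hv with rfl | rfl
        · exact mem_inter.2 ⟨haS, ha⟩
        · exact mem_inter.2 ⟨hbS, hb⟩
      · refine mem_union_right _ (mem_image.2 ⟨(a, b), mem_filter.2 ⟨mem_univ _, ?_⟩, rfl⟩)
        exact ⟨ha, hb, haS, hbS, heA⟩
      · refine mem_union_right _ (mem_image.2 ⟨(b, a), mem_filter.2 ⟨mem_univ _, ?_⟩,
          Sym2.eq_swap⟩)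
        refine ⟨hb, ha, hbS, haS, ?_⟩
        rw [Sym2.eq_swap]
        exact heA
      · refine mem_union_left _ (mem_union_right _ (mem_filter.2 ⟨heA, fun v hv => ?_⟩))
        rcases Sym2.mem_iff.1 hv with rfl | rfl
        · exact mem_sdiff.2 ⟨ha, haS⟩
        · exact mem_sdiff.2 ⟨hb, hbS⟩
  refine (card_le_card h1).trans ((card_union_le _ _).trans ?_)
  exact add_le_add (card_union_le _ _) card_image_le

private theorem Xp_claim {k n D : ℕ} {E A : Finset (Sym2 (Fin n))} {Y : Finset (Fin n)}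
    (hP : PG k n D E) (hAE : A ⊆ E) (hn : 1 ≤ n)
    (hno : ∀ X : Finset (Fin n), Disjoint X Y → n ≤ 1000 * k * X.card →
      ∃ S : Finset (Fin n), X.card ≤ 3 * (S ∩ X).card ∧ 3 * (S ∩ X).card ≤ 2 * X.card ∧
        (univ.filter fun e : Fin n × Fin n =>
          e.1 ∈ X ∧ e.2 ∈ X ∧ e.1 ∈ S ∧ e.2 ∉ S ∧ s(e.1, e.2) ∈ A).card < n) (m : ℕ) :
    ∀ U : Finset (Fin n), U.card = m → Disjoint U Y → n ≤ 3000 * k * U.card →
      (A.filter fun e => ∀ v ∈ e, v ∈ U).card + n ≤ 40001 * (3000 * k * U.card) := by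
  induction m using Nat.strong_induction_on with
  | _ m ih =>
    intro U hUm hUY hU
    by_cases h1 : 1000 * k * U.card ≤ n
    · have h2 := hP.G2 U h1
      have h3 : (A.filter fun e => ∀ v ∈ e, v ∈ U).card ≤
          (E.filter fun e => ∀ v ∈ e, v ∈ U).card := card_le_card (filter_subset_filter _ hAE)
      omega
    · have h2 : n ≤ 1000 * k * U.card := by omega
      obtain ⟨S, hS1, hS2, hS3⟩ := hno U hUY h2
      have hc : (S ∩ U).card + (U \ S).card = U.card := by
        rw [inter_comm]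
        exact card_inter_add_card_sdiff U S
      have hU0 : 0 < U.card := by
        rcases Nat.eq_zero_or_pos U.card with h | h
        · rw [h] at h2
          omega
        · exact h
      have hk1 : 1000 * k * U.card ≤ 3000 * k * (S ∩ U).card := by
        have h5 : 1000 * k * U.card ≤ 1000 * k * (3 * (S ∩ U).card) := Nat.mul_le_mul_left _ hS1
        have h6 : 1000 * k * (3 * (S ∩ U).card) = 3000 * k * (S ∩ U).card := by ring
        omega
      have hk2 : 1000 * k * U.card ≤ 3000 * k * (U \ S).card := by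
        have h5 : 1000 * k * U.card ≤ 1000 * k * (3 * (U \ S).card) :=
          Nat.mul_le_mul_left _ (by omega)
        have h6 : 1000 * k * (3 * (U \ S).card) = 3000 * k * (U \ S).card := by ring
        omega
      have e1 := ih (S ∩ U).card (by omega) (S ∩ U) rfl
        (hUY.mono_left inter_subset_right) (by omega)
      have e2 := ih (U \ S).card (by omega) (U \ S) rfl
        (hUY.mono_left sdiff_subset) (by omega)
      have e3 := Xp_split A U S
      have e4 : 40001 * (3000 * k * U.card) = 40001 * (3000 * k * (S ∩ U).card) +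
          40001 * (3000 * k * (U \ S).card) := by
        rw [← hc]
        ring
      omega

theorem thm_Xp : St_Xp := by
  classical
  intro k n D E A Y hk hP hAE hEA hY
  rcases Nat.eq_zero_or_pos n with hn | hn
  · refine ⟨∅, disjoint_empty_left _, by omega, fun S _ _ => by omega⟩
  by_contra hcon
  push Not at hcon
  have hno : ∀ X : Finset (Fin n), Disjoint X Y → n ≤ 1000 * k * X.card →
      ∃ S : Finset (Fin n), X.card ≤ 3 * (S ∩ X).card ∧ 3 * (S ∩ X).card ≤ 2 * X.card ∧
        (univ.filter fun e : Fin n × Fin n =>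
          e.1 ∈ X ∧ e.2 ∈ X ∧ e.1 ∈ S ∧ e.2 ∉ S ∧ s(e.1, e.2) ∈ A).card < n := hcon
  have hc : (Yᶜ).card + Y.card = n := by
    rw [card_compl_add_card, Fintype.card_fin]
  have hk1 : Y.card ≤ k * Y.card := Nat.le_mul_of_pos_left _ hk
  have hY2 : 20000 * Y.card < 3 * n := by
    have h6 : 20000 * k * Y.card = 20000 * (k * Y.card) := by ring
    omega
  have hU1 : n ≤ 3000 * k * (Yᶜ).card := by
    have h5 : (Yᶜ).card ≤ k * (Yᶜ).card := Nat.le_mul_of_pos_left _ hk
    have h6 : 3000 * k * (Yᶜ).card = 3000 * (k * (Yᶜ).card) := by ring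
    omega
  have e1 := Xp_claim hP hAE hn hno _ (Yᶜ) rfl disjoint_compl_left hU1
  have e2 : (A.filter fun e => ∃ v ∈ e, v ∈ Y).card ≤ 5 * 10 ^ 8 * k * n :=
    (card_le_card (filter_subset_filter _ hAE)).trans (hP.G3 Y (by omega))
  have e3 : A.card ≤ (A.filter fun e => ∀ v ∈ e, v ∈ Yᶜ).card +
      (A.filter fun e => ∃ v ∈ e, v ∈ Y).card := by
    refine (card_le_card (fun e he => ?_)).trans (card_union_le _ _)
    by_cases h : ∃ v ∈ e, v ∈ Y
    · exact mem_union_right _ (mem_filter.2 ⟨he, h⟩)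
    · push Not at h
      exact mem_union_left _ (mem_filter.2 ⟨he, fun v hv => mem_compl.2 (h v hv)⟩)
  have e4 : 10 ^ 9 * k ^ 2 * n ≤ k * A.card := hP.big.trans hEA
  have e5 : 10 ^ 9 * k * n ≤ A.card := by
    have h6 : 10 ^ 9 * k ^ 2 * n = k * (10 ^ 9 * k * n) := by ring
    rw [h6] at e4
    exact Nat.le_of_mul_le_mul_left e4 hk
  have e6 : 3000 * k * (Yᶜ).card ≤ 3000 * k * n := Nat.mul_le_mul_left _ (by omega)
  have h7 : 3000 * k * n = 3000 * (k * n) := by ring
  have h8 : 5 * 10 ^ 8 * k * n = 500000000 * (k * n) := by ring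
  have h9 : 10 ^ 9 * k * n = 1000000000 * (k * n) := by ring
  have h10 : 1 ≤ k * n := Nat.mul_pos hk hn
  omega

end Pool.Agent.EB
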