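import Pool.Agent.EB.Fin
import Pool.Agent.EB.Gra1
import Pool.Agent.EB.Gra2
import Pool.Agent.EB.Par
import Pool.Agent.EB.Conc
import Pool.Agent.EB.Aff
import Pool.Agent.EB.B1
import Pool.Agent.EB.MV
import Pool.Agent.EB.Rk
import Pool.Agent.EB.B2
import Pool.Agent.EB.Sel1
import Pool.Agent.EB.Sel2
import Pool.Agent.EB.Xp
import Pool.Agent.EB.Cube
import Pool.Agent.WD.Bro
import Pool.Agent.WE.Dec2

/-!
# Assembly
-/

namespace Pool.Agent.EB

open Finset Pool.Agent.WD
open scoped NNReal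

theorem Main_nat (k : ℕ) (hk : 1 ≤ k) :
    ∃ c : ℝ, 0 < c ∧ ∃ C n₀ : ℕ, ∀ n ≥ n₀, ∃ E : Finset (Sym2 (Fin n)),
      (∀ e ∈ E, ¬ e.IsDiag) ∧ (∀ v, (E.filter fun e => v ∈ e).card ≤ C) ∧
      ∀ (A : Finset (Sym2 (Fin n))) (Y : Finset (Fin n)), Closed E A Y → E.card ≤ k * A.card →
        (E.card + k * A.card ≤ k * E.card ∨ n ≤ k * Yᶜ.card) → Hard c A Y :=
  Fin_main thm_Gra1 thm_Gra2 thm_Par thm_Conc (thm_B1 thm_Aff) (thm_B2 (thm_Rk thm_MV)) thm_Sel1
    thm_Sel2 thm_Xp (thm_Dec2 thm_Bro) k hk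

theorem Main_mono {n : ℕ} {c c' : ℝ} (hc : c' ≤ c) {A : Finset (Sym2 (Fin n))}
    {Y F : Finset (Fin n)} {r : Fin n → Bool} (h : HardOn c A Y F r) : HardOn c' A Y F r := by
  intro s W P κ hκ hi
  refine le_trans ?_ (h s W P κ hκ hi)
  exact Real.rpow_le_rpow_of_exponent_le (by norm_num)
    (mul_le_mul_of_nonneg_right hc (Nat.cast_nonneg _))

theorem Main_small {n : ℕ} {c : ℝ} (hc : c * n ≤ 1) (A : Finset (Sym2 (Fin n)))
    (Y F : Finset (Fin n)) (r : Fin n → Bool) : HardOn c A Y F r := by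
  rintro s W P κ hκ ⟨i, -⟩
  have hs : (1 : ℝ) ≤ s := by
    have : 1 ≤ s := by have := i.2; omega
    exact_mod_cast this
  have hκ' : (1 : ℝ) ≤ κ := by exact_mod_cast hκ
  have hW : (0 : ℝ) ≤ W := Nat.cast_nonneg W
  calc (2 : ℝ) ^ (c * n) ≤ (2 : ℝ) ^ (1 : ℝ) :=
        Real.rpow_le_rpow_of_exponent_le (by norm_num) hc
    _ = 2 := Real.rpow_one 2
    _ ≤ 2 * κ * (s + W) := by nlinarith

/-- the support of the partial count -/
theorem Main_supp {V : Type} [Fintype V] [DecidableEq V] (A : Finset (Sym2 V)) (Y : Finset V)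
    (x : V → Bool) : part A Y x ≠ 0 ↔ ∀ e ∈ A, ∃ v ∈ e, v ∈ Y ∨ x v = true := by
  unfold part
  rw [Nat.cast_ne_zero, card_ne_zero]
  constructor
  · rintro ⟨y, hy⟩ e he
    obtain ⟨-, h1, h2⟩ := mem_filter.1 hy
    obtain ⟨v, hv, hyv⟩ := h2 e he
    refine ⟨v, hv, ?_⟩
    by_cases hvY : v ∈ Y
    · exact Or.inl hvY
    · exact Or.inr (by rw [← h1 v hvY, hyv])
  · intro h
    refine ⟨Y.piecewise (fun _ => true) x, mem_filter.2 ⟨mem_univ _, ?_, ?_⟩⟩
    · intro v hv
      rw [piecewise_eq_of_notMem _ _ _ hv]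
    · intro e he
      obtain ⟨v, hv, h1⟩ := h e he
      refine ⟨v, hv, ?_⟩
      by_cases hvY : v ∈ Y
      · rw [piecewise_eq_of_mem _ _ _ hvY]
      · rw [piecewise_eq_of_notMem _ _ _ hvY]
        exact h1.resolve_left hvY

theorem Main_run {n N : ℕ} {E : Finset (Sym2 (Fin n))} {C : ℕ} (hloop : ∀ e ∈ E, ¬ e.IsDiag)
    (hdeg : ∀ v, (E.filter fun e => v ∈ e).card ≤ C) {t k : ℕ} {c₁ c₂ ε : ℝ} (hε : 0 < 1 - ε)
    (hε1 : 0 < ε) (ht : (1 : ℝ) ≤ t)
    (hk : (t : ℝ) ≤ k * (1 - ε)) (hc : c₂ ≤ c₁ / (C + 1) *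
      Real.logb 2 (1 / (1 - 1 / (2 : ℝ) ^ (C + 1))))
    (core : ∀ (A : Finset (Sym2 (Fin n))) (Y : Finset (Fin n)), Closed E A Y →
        (E.card : ℝ) ≤ k * A.card → (A.card : ℝ) ≤ (1 - ε) * E.card → Hard c₁ A Y)
    (A : Fin N → Finset (Sym2 (Fin n))) (Y F : Fin N → Finset (Fin n)) (r : Fin N → Fin n → Bool)
    (hrun : Run E t ((1 - ε) * E.card) A Y F r) (i₀ : Fin N) (hi₀ : A i₀ = E) (hF₀ : F i₀ = ∅)
    (hE : 0 < E.card) :
    (2 : ℝ) ^ (c₂ * n) ≤ N ∨ ∃ i, HardOn c₁ (A i) (Y i) (F i) (r i) := by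
  classical
  by_contra hcon
  push Not at hcon
  obtain ⟨hN, hno⟩ := hcon
  have hE0 : (0 : ℝ) < E.card := by exact_mod_cast hE
  have ht0 : (0 : ℝ) < t := by linarith
  -- each model lies in a small cube
  have key : ∀ x ∈ Cube_mod E ∅ (fun _ => true), ∃ i, c₁ * n < ((F i).card : ℝ) ∧
      x ∈ Cube_mod E (F i) (r i) := by
    intro x hx
    have hxE : ∀ e ∈ E, ∃ v ∈ e, x v = true := (Cube_mem.1 hx).1
    have hne : (univ.filter fun i : Fin N => (1 - ε) * E.card < t * ((A i).card : ℝ) ∧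
        ∀ v ∈ F i, x v = r i v).Nonempty := by
      refine ⟨i₀, mem_filter.2 ⟨mem_univ _, ?_, ?_⟩⟩
      · rw [hi₀]
        nlinarith
      · rw [hF₀]
        simp
    set i := (univ.filter fun i : Fin N => (1 - ε) * E.card < t * ((A i).card : ℝ) ∧
        ∀ v ∈ F i, x v = r i v).min' hne with hi
    have him := (mem_filter.1 (min'_mem _ hne)).2
    rw [← hi] at him
    obtain ⟨him1, him2⟩ := him
    have hlt : ∀ j < i, (∀ v ∈ F j, x v = r j v) → t * ((A j).card : ℝ) ≤ (1 - ε) * E.card := by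
      intro j hj hxj
      by_contra hcon
      push Not at hcon
      have hj' : j ∈ univ.filter fun i : Fin N => (1 - ε) * E.card < t * ((A i).card : ℝ) ∧
          ∀ v ∈ F i, x v = r i v := mem_filter.2 ⟨mem_univ _, hcon, hxj⟩
      exact absurd hj (not_lt.2 (min'_le _ j hj'))
    obtain ⟨hcl, hstep⟩ := hrun i
    refine ⟨i, ?_, Cube_mem.2 ⟨hxE, him2⟩⟩
    by_contra hFi
    push Not at hFi
    have hA1 : (E.card : ℝ) ≤ k * (A i).card := by
      have e1 : (t : ℝ) * E.card ≤ k * (1 - ε) * E.card :=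
        mul_le_mul_of_nonneg_right hk hE0.le
      have e2 : (k : ℝ) * ((1 - ε) * E.card) ≤ k * (t * (A i).card) :=
        mul_le_mul_of_nonneg_left him1.le (Nat.cast_nonneg _)
      have e3 : (t : ℝ) * E.card ≤ t * (k * (A i).card) := by linarith
      exact le_of_mul_le_mul_left e3 ht0
    have hA2 : ((A i).card : ℝ) ≤ (1 - ε) * E.card := by
      rcases hstep with h | h
      · exact absurd him1 (not_lt.2 h)
      · obtain ⟨J, hJt, hJi, hJA⟩ := h x him2 fun e he => hxE e (hcl.1 he)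
        have e1 : (A i).card ≤ ∑ j ∈ J, (A j).card :=
          (card_le_card hJA).trans card_biUnion_le
        have e2 : ((A i).card : ℝ) ≤ ∑ j ∈ J, ((A j).card : ℝ) := by exact_mod_cast e1
        have e3 : ∑ j ∈ J, ((A j).card : ℝ) ≤ ∑ _j ∈ J, (1 - ε) * E.card / t := by
          apply sum_le_sum
          intro j hj
          rw [le_div_iff₀ ht0]
          linarith [hlt j (hJi j hj).1 (hJi j hj).2]
        rw [sum_const, nsmul_eq_mul] at e3
        have e4 : (J.card : ℝ) ≤ t := by exact_mod_cast hJt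
        have e5 : (J.card : ℝ) * ((1 - ε) * E.card / t) ≤ t * ((1 - ε) * E.card / t) :=
          mul_le_mul_of_nonneg_right e4 (div_nonneg (mul_nonneg hε.le hE0.le) ht0.le)
        have e6 : (t : ℝ) * ((1 - ε) * E.card / t) = (1 - ε) * E.card := by
          field_simp
        linarith
    have hr : part (A i) (Y i) x ≠ 0 := by
      rw [Main_supp]
      intro e he
      obtain ⟨v, hv, hxv⟩ := hxE e (hcl.1 he)
      exact ⟨v, hv, Or.inr hxv⟩
    have hh := core (A i) (Y i) hcl hA1 hA2 (F i) x hFi hr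
    apply hno i
    intro s W P κ hκ hex
    apply hh s W P κ hκ
    obtain ⟨g, hg1, hg2⟩ := hex
    have hcube : ∀ y : Fin n → Bool, (∀ v ∈ F i, y v = x v) ↔ ∀ v ∈ F i, y v = r i v := by
      intro y
      exact forall₂_congr fun v hv => by rw [him2 v hv]
    refine ⟨g, fun y hy => hg1 y ((hcube y).1 hy), ?_⟩
    simp only [hcube]
    exact hg2
  -- the number of models
  set M := (Cube_mod E ∅ (fun _ => true)).card with hM
  have hM0 : 0 < M := by
    rw [hM, card_pos]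
    refine ⟨fun _ => true, Cube_mem.2 ⟨?_, by simp⟩⟩
    intro e _
    induction e using Sym2.inductionOn with
    | hf a b => exact ⟨a, Sym2.mem_mk_left _ _, rfl⟩
  have hdeg' : ∀ v, (nb E v).card ≤ C := by
    intro v
    refine le_trans ?_ (hdeg v)
    apply card_le_card_of_injOn fun w => s(v, w)
    · intro w hw
      have := (mem_filter.1 hw).2
      exact mem_filter.2 ⟨this, Sym2.mem_mk_left _ _⟩
    · intro w _ w' _ h
      exact Sym2.congr_right.1 h
  set q : ℝ := 1 - 1 / (2 : ℝ) ^ (C + 1) with hq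
  have h2C : (2 : ℝ) ≤ 2 ^ (C + 1) := by
    calc (2 : ℝ) = 2 ^ 1 := by norm_num
      _ ≤ 2 ^ (C + 1) := pow_le_pow_right₀ (by norm_num) (by omega)
  have h2C0 : (0 : ℝ) < 2 ^ (C + 1) := by positivity
  have hq0 : 0 < q := by
    rw [hq, sub_pos, div_lt_one h2C0]
    linarith
  have hq1 : q < 1 := by
    rw [hq]
    have : 0 < 1 / (2 : ℝ) ^ (C + 1) := by positivity
    linarith
  set l := Real.logb 2 (1 / q) with hl
  have hl0 : 0 < l := Real.logb_pos (by norm_num) (by rw [lt_div_iff₀ hq0]; linarith)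
  have h2l : (2 : ℝ) ^ (-l) = q := by
    rw [Real.rpow_neg (by norm_num), hl, Real.rpow_logb (by norm_num) (by norm_num) (by positivity)]
    rw [one_div, inv_inv]
  have hcube : ∀ i, c₁ * n < ((F i).card : ℝ) →
      ((Cube_mod E (F i) (r i)).card : ℝ) ≤ (2 : ℝ) ^ (-(c₂ * n)) * M := by
    intro i hi
    obtain ⟨m, hm1, hm2⟩ := Cube_main E hloop (F i) (r i) C hdeg'
    have hM' : Cube_mod E ∅ (r i) = Cube_mod E ∅ (fun _ => true) := by
      ext x
      rw [Cube_mem, Cube_mem]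
      simp
    rw [hM', ← hM] at hm2
    have e1 : ((2 : ℝ) ^ (C + 1)) ^ m * (Cube_mod E (F i) (r i)).card ≤
        ((2 : ℝ) ^ (C + 1) - 1) ^ m * M := by
      have h3 : 1 ≤ 2 ^ (C + 1) := Nat.one_le_two_pow
      have : (((2 ^ (C + 1)) ^ m * (Cube_mod E (F i) (r i)).card : ℕ) : ℝ) ≤
          (((2 ^ (C + 1) - 1) ^ m * M : ℕ) : ℝ) := by exact_mod_cast hm2
      push_cast [Nat.cast_sub h3] at this
      exact this
    have e2 : ((2 : ℝ) ^ (C + 1) - 1) = q * 2 ^ (C + 1) := by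
      rw [hq]
      field_simp
    rw [e2, mul_pow] at e1
    have e3 : ((Cube_mod E (F i) (r i)).card : ℝ) ≤ q ^ m * M := by
      have h4 : (0 : ℝ) < ((2 : ℝ) ^ (C + 1)) ^ m := by positivity
      have h5 : ((2 : ℝ) ^ (C + 1)) ^ m * (Cube_mod E (F i) (r i)).card ≤
          ((2 : ℝ) ^ (C + 1)) ^ m * (q ^ m * M) := by
        calc _ ≤ _ := e1
          _ = _ := by ring
      exact le_of_mul_le_mul_left h5 h4
    refine e3.trans (mul_le_mul_of_nonneg_right ?_ (Nat.cast_nonneg _))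
    rw [← Real.rpow_natCast, ← h2l, ← Real.rpow_mul (by norm_num)]
    apply Real.rpow_le_rpow_of_exponent_le (by norm_num)
    have hm3 : ((F i).card : ℝ) ≤ (C + 1) * m := by exact_mod_cast hm1
    have hC1 : (0 : ℝ) < C + 1 := by positivity
    have e5 : c₁ / (C + 1) * n ≤ m := by
      rw [div_mul_eq_mul_div, div_le_iff₀ hC1]
      linarith
    have e6 : c₂ * n ≤ c₁ / (C + 1) * l * n := mul_le_mul_of_nonneg_right hc (Nat.cast_nonneg _)
    have e7 : c₁ / (C + 1) * n * l ≤ m * l := mul_le_mul_of_nonneg_right e5 hl0.le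
    nlinarith
  have hsub : Cube_mod E ∅ (fun _ => true) ⊆ (univ.filter fun i : Fin N =>
      c₁ * n < ((F i).card : ℝ)).biUnion fun i => Cube_mod E (F i) (r i) := by
    intro x hx
    obtain ⟨i, hi1, hi2⟩ := key x hx
    exact mem_biUnion.2 ⟨i, mem_filter.2 ⟨mem_univ _, hi1⟩, hi2⟩
  have h1 : (M : ℝ) ≤ ∑ i ∈ univ.filter (fun i : Fin N => c₁ * n < ((F i).card : ℝ)),
      ((Cube_mod E (F i) (r i)).card : ℝ) := by
    have := (card_le_card hsub).trans card_biUnion_le
    rw [← hM] at this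
    exact_mod_cast this
  have h2 : ∑ i ∈ univ.filter (fun i : Fin N => c₁ * n < ((F i).card : ℝ)),
      ((Cube_mod E (F i) (r i)).card : ℝ) ≤ N * ((2 : ℝ) ^ (-(c₂ * n)) * M) := by
    refine (sum_le_card_nsmul _ _ _ fun i hi => hcube i (mem_filter.1 hi).2).trans ?_
    rw [nsmul_eq_mul]
    apply mul_le_mul_of_nonneg_right _ (by positivity)
    have : (univ.filter (fun i : Fin N => c₁ * n < ((F i).card : ℝ))).card ≤ N := by
      refine (card_le_univ _).trans ?_
      rw [Fintype.card_fin]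
    exact_mod_cast this
  have h3 : (M : ℝ) ≤ N * ((2 : ℝ) ^ (-(c₂ * n)) * M) := h1.trans h2
  have hM1 : (0 : ℝ) < M := by exact_mod_cast hM0
  have h4 : (N : ℝ) * (2 : ℝ) ^ (-(c₂ * n)) < 1 := by
    rw [Real.rpow_neg (by norm_num), ← div_eq_mul_inv, div_lt_one (by positivity)]
    exact hN
  nlinarith

theorem Main_real (ε : ℝ) (hε0 : 0 < ε) (hε1 : ε < 1) (t : ℕ) (ht : 1 ≤ t) :
    ∃ c : ℝ, 0 < c ∧ ∃ C : ℕ, ∀ n : ℕ, ∃ E : Finset (Sym2 (Fin n)),
      (∀ e ∈ E, ¬ e.IsDiag) ∧ (∀ v, (E.filter fun e => v ∈ e).card ≤ C) ∧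
      (∀ (A : Finset (Sym2 (Fin n))) (Y : Finset (Fin n)), Closed E A Y →
        ε * E.card ≤ A.card →
        ((A.card : ℝ) ≤ (1 - ε) * E.card ∨ (Y.card : ℝ) ≤ (1 - ε) * n) → Hard c A Y) ∧
      ∀ (N : ℕ) (A : Fin N → Finset (Sym2 (Fin n))) (Y F : Fin N → Finset (Fin n))
        (r : Fin N → Fin n → Bool), Run E t ((1 - ε) * E.card) A Y F r →
        (∃ i, A i = E ∧ F i = ∅) →
        (2 : ℝ) ^ (c * n) ≤ N ∨ ∃ i, HardOn c (A i) (Y i) (F i) (r i) := by
  classical
  have h1ε : 0 < 1 - ε := by linarith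
  have ht' : (1 : ℝ) ≤ t := by exact_mod_cast ht
  obtain ⟨k, hk⟩ := exists_nat_ge (max (1 / ε) (t / (1 - ε)))
  have hk1 : 1 / ε ≤ k := (le_max_left _ _).trans hk
  have hk2 : t / (1 - ε) ≤ k := (le_max_right _ _).trans hk
  have hk1' : 1 ≤ k * ε := by rwa [div_le_iff₀ hε0] at hk1
  have hk2' : t ≤ k * (1 - ε) := by rwa [div_le_iff₀ h1ε] at hk2
  have hk0 : (0 : ℝ) < k := by
    by_contra hcon
    push Not at hcon
    nlinarith
  have hk3 : 1 ≤ k := by
    have : 0 < k := by exact_mod_cast hk0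
    omega
  obtain ⟨c, hc, C, n₀, H⟩ := Main_nat k hk3
  have hn₀ : (0 : ℝ) < n₀ + 1 := by positivity
  set l := Real.logb 2 (1 / (1 - 1 / (2 : ℝ) ^ (C + 1))) with hl
  have hl0 : 0 < l := by
    have h2C : (1 : ℝ) < 2 ^ (C + 1) := one_lt_pow₀ (by norm_num) (by omega)
    have h5 : 0 < 1 - 1 / (2 : ℝ) ^ (C + 1) := by
      rw [sub_pos, div_lt_one (by positivity)]
      exact h2C
    apply Real.logb_pos (by norm_num)
    rw [lt_div_iff₀ h5]
    have : 0 < 1 / (2 : ℝ) ^ (C + 1) := by positivity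
    linarith
  set c₂ := c / (C + 1) * l with hc₂
  have hc₂0 : 0 < c₂ := mul_pos (div_pos hc (by positivity)) hl0
  set c' := min (min c c₂) (1 / (n₀ + 1)) with hc'
  have hc'c : c' ≤ c := (min_le_left _ _).trans (min_le_left _ _)
  have hc'c₂ : c' ≤ c₂ := (min_le_left _ _).trans (min_le_right _ _)
  have hc'n : c' ≤ 1 / (n₀ + 1) := min_le_right _ _
  refine ⟨c', lt_min (lt_min hc hc₂0) (by positivity), C, ?_⟩
  intro n
  rcases lt_or_ge n n₀ with hn | hn
  · have hsm : c' * n ≤ 1 := by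
      have h1 : c' * n ≤ 1 / (n₀ + 1) * n := mul_le_mul_of_nonneg_right hc'n (Nat.cast_nonneg _)
      refine h1.trans ?_
      rw [one_div_mul_eq_div, div_le_one hn₀]
      have : (n : ℝ) < n₀ := by exact_mod_cast hn
      linarith
    refine ⟨∅, by simp, by simp, fun A Y _ _ _ F r _ _ => Main_small hsm A Y F r, ?_⟩
    rintro N A Y F r - ⟨i, -⟩
    exact Or.inr ⟨i, Main_small hsm _ _ _ _⟩
  · obtain ⟨E, hE1, hE2, hE3⟩ := H n hn
    -- the core statement
    have core : ∀ (A : Finset (Sym2 (Fin n))) (Y : Finset (Fin n)), Closed E A Y →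
        (E.card : ℝ) ≤ k * A.card →
        ((A.card : ℝ) ≤ (1 - ε) * E.card ∨ (Y.card : ℝ) ≤ (1 - ε) * n) → Hard c A Y := by
      intro A Y hcl h1 h2
      refine hE3 A Y hcl (by exact_mod_cast h1) ?_
      rcases h2 with h2 | h2
      · left
        have : (E.card : ℝ) + k * A.card ≤ k * E.card := by
          have e1 : (k : ℝ) * A.card ≤ k * ((1 - ε) * E.card) :=
            mul_le_mul_of_nonneg_left h2 hk0.le
          have e2 : (E.card : ℝ) ≤ k * ε * E.card := by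
            have := mul_le_mul_of_nonneg_right hk1' (Nat.cast_nonneg (α := ℝ) E.card)
            linarith
          nlinarith
        exact_mod_cast this
      · right
        have e0 : (Yᶜ.card : ℝ) = n - Y.card := by
          have := card_compl_add_card Y
          rw [Fintype.card_fin] at this
          have h3 : ((Yᶜ.card + Y.card : ℕ) : ℝ) = n := by rw [this]
          push_cast at h3
          linarith
        have : (n : ℝ) ≤ k * Yᶜ.card := by
          rw [e0]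
          have e2 : (n : ℝ) ≤ k * ε * n := by
            have := mul_le_mul_of_nonneg_right hk1' (Nat.cast_nonneg (α := ℝ) n)
            linarith
          have e3 : (k : ℝ) * (ε * n) ≤ k * (n - Y.card) :=
            mul_le_mul_of_nonneg_left (by linarith) hk0.le
          linarith
        exact_mod_cast this
    refine ⟨E, hE1, hE2, ?_, ?_⟩
    · intro A Y hcl h1 h2 F r hF hr
      refine Main_mono hc'c (core A Y hcl ?_ h2 F r ?_ hr)
      · have e1 : (k : ℝ) * (ε * E.card) ≤ k * A.card := mul_le_mul_of_nonneg_left h1 hk0.le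
        have e2 : (E.card : ℝ) ≤ k * ε * E.card := by
          have := mul_le_mul_of_nonneg_right hk1' (Nat.cast_nonneg (α := ℝ) E.card)
          linarith
        linarith
      · exact hF.trans (mul_le_mul_of_nonneg_right hc'c (Nat.cast_nonneg _))
    · rintro N A Y F r hrun ⟨i₀, hi₀, hF₀⟩
      rcases Nat.eq_zero_or_pos E.card with h0 | h0
      · refine Or.inr ⟨i₀, Main_mono hc'c (core _ _ (hrun i₀).1 ?_ (Or.inl ?_) _ _ ?_ ?_)⟩
        · rw [hi₀, h0]; simp
        · rw [hi₀, h0]; simp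
        · rw [hF₀]
          simp only [card_empty, Nat.cast_zero]
          positivity
        · rw [Main_supp, hi₀, card_eq_zero.1 h0]
          simp
      rcases Main_run hE1 hE2 h1ε hε0 ht' hk2' le_rfl
        (fun A Y hcl h1 h2 => core A Y hcl h1 (Or.inl h2)) A Y F r hrun i₀ hi₀ hF₀ h0 with h | h
      · left
        refine le_trans ?_ h
        exact Real.rpow_le_rpow_of_exponent_le (by norm_num)
          (mul_le_mul_of_nonneg_right hc'c₂ (Nat.cast_nonneg _))
      · obtain ⟨i, hi⟩ := h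
        exact Or.inr ⟨i, Main_mono hc'c hi⟩

end Pool.Agent.EB
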