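import Pool.Agent.WE.Model

/-!
# Partial model counts of monotone 2-CNF formulas, and runs of counting algorithms: definitions

The programs are defined in `Pool/Agent/WE/Model.lean`.
-/

namespace Pool.Agent.EB

open Finset Pool.Agent.WD
open scoped NNReal

/-- The partial count: the number of assignments which agree with `x` outside `Y` and satisfy all
clauses in `A`, as a function of the values of `x` outside `Y`. A clause is an unordered pair of
variables; it is satisfied if one of its variables has the value `true`. -/
noncomputable def part {V : Type} [Fintype V] [DecidableEq V] (A : Finset (Sym2 V)) (Y : Finset V)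
    (x : V → Bool) : ℝ≥0 :=
  ((univ.filter fun y : V → Bool =>
    (∀ v, v ∉ Y → y v = x v) ∧ ∀ e ∈ A, ∃ v ∈ e, y v = true).card : ℝ≥0)

/-- `Closed E A Y`: `A` is a set of clauses of `E` which contains all clauses of `E` with a variable
in `Y`. -/
def Closed {n : ℕ} (E A : Finset (Sym2 (Fin n))) (Y : Finset (Fin n)) : Prop :=
  A ⊆ E ∧ ∀ e ∈ E, ∀ v ∈ Y, v ∈ e → e ∈ A

/-- `HardOn c A Y F r`: the partial count `part A Y` is hard on the cube of all `x` which agree with
`r` on `F`: each program one of whose gates is at most `κ` times the partial count everywhere on the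
cube and at least `1 / κ` times the partial count on average over the cube has exponential size. -/
def HardOn {n : ℕ} (c : ℝ) (A : Finset (Sym2 (Fin n))) (Y F : Finset (Fin n))
    (r : Fin n → Bool) : Prop :=
  ∀ (s W : ℕ) (P : Program Bool (Fin n) s W) (κ : ℝ≥0), 1 ≤ κ →
    (∃ i, (∀ x, (∀ v ∈ F, x v = r v) → P.val i x ≤ κ * part A Y x) ∧
      ∑ x ∈ univ.filter (fun x : Fin n → Bool => ∀ v ∈ F, x v = r v), part A Y x ≤
        κ * ∑ x ∈ univ.filter (fun x : Fin n → Bool => ∀ v ∈ F, x v = r v), P.val i x) →
    (2 : ℝ) ^ (c * n) ≤ 2 * κ * (s + W)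

/-- `Hard c A Y`: the partial count `part A Y` is hard on each cube which is given by at most `c n`
fixed variables and on which it is not zero. -/
def Hard {n : ℕ} (c : ℝ) (A : Finset (Sym2 (Fin n))) (Y : Finset (Fin n)) : Prop :=
  ∀ (F : Finset (Fin n)) (r : Fin n → Bool), (F.card : ℝ) ≤ c * n → part A Y r ≠ 0 →
    HardOn c A Y F r

/-- `Run E t b A Y F r`: the list of the subproblems `i < N`, given by the clauses `A i`, the
eliminated variables `Y i` and the cube of all `x` which agree with `r i` on `F i`, is a run of a
counting algorithm which computes the partial count `part (A i) (Y i)` on its cube for each `i`: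
each subproblem has at most `b / t` clauses (these are free), or each model `x` of `A i` in its cube
lies in the cubes of at most `t` earlier subproblems which contain together all clauses in `A i`. -/
def Run {n N : ℕ} (E : Finset (Sym2 (Fin n))) (t : ℕ) (b : ℝ) (A : Fin N → Finset (Sym2 (Fin n)))
    (Y F : Fin N → Finset (Fin n)) (r : Fin N → Fin n → Bool) : Prop :=
  ∀ i, Closed E (A i) (Y i) ∧ (t * ((A i).card : ℝ) ≤ b ∨
    ∀ x : Fin n → Bool, (∀ v ∈ F i, x v = r i v) → (∀ e ∈ A i, ∃ v ∈ e, x v = true) →
      ∃ J : Finset (Fin N), J.card ≤ t ∧ (∀ j ∈ J, j < i ∧ ∀ v ∈ F j, x v = r j v) ∧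
        A i ⊆ J.biUnion A)

end Pool.Agent.EB
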